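import Pool.Agent.Helper85.EV2.RowX
import Pool.Agent.Helper48.EV2.Label
import Pool.Agent.Helper59.EV2.QSum
import Pool.Agent.Helper60.EV2.Schur

/-!
# EV2, rows: the elimination (R6)
-/

set_option autoImplicit false

namespace Pool.Agent.Helper85.Rows

open Polynomial Pool.Agent.Helper27.EV2 Pool.Agent.Helper85.Exp

variable {W : Word}

/-! ### The steps of the travel -/

/-- From the point `(r, i, j)` to the next point. -/
inductive Step (W : Word) : ℕ → ℕ → ℕ → ℕ → ℕ → ℕ → Prop
  | cr {r i j : ℕ} (hr : r < W.length) (hd : dir W r j = true) (hi : i < (row W r).w.length) :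
      Step W r i j r (i + 1) (sw ((row W r).w.getD i 0) j)
  | mxl {r j k : ℕ} {d : Bool} (hr : r + 1 < W.length) (he : (row W (r + 1)).e = .mx k d)
      (hd : dir W r j = true) (hj : j < k) : Step W r (row W r).w.length j (r + 1) 0 j
  | mxr {r j k : ℕ} {d : Bool} (hr : r + 1 < W.length) (he : (row W (r + 1)).e = .mx k d)
      (hd : dir W r j = true) (hj : k ≤ j) : Step W r (row W r).w.length j (r + 1) 0 (j + 2)
  | mnl {r j k : ℕ} (hr : r + 1 < W.length) (he : (row W (r + 1)).e = .mn k)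
      (hd : dir W r j = true) (hj : j < k) : Step W r (row W r).w.length j (r + 1) 0 j
  | mnr {r j k : ℕ} (hr : r + 1 < W.length) (he : (row W (r + 1)).e = .mn k)
      (hd : dir W r (j + 2) = true) (hj : k ≤ j) : Step W r (row W r).w.length (j + 2) (r + 1) 0 j
  | mna {r k : ℕ} (hr : r + 1 < W.length) (he : (row W (r + 1)).e = .mn k)
      (hd : dir W r k = true) (hd' : dir W r (k + 1) = false) :
      Step W r (row W r).w.length k r (row W r).w.length (k + 1)
  | mnb {r k : ℕ} (hr : r + 1 < W.length) (he : (row W (r + 1)).e = .mn k)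
      (hd : dir W r (k + 1) = true) (hd' : dir W r k = false) :
      Step W r (row W r).w.length (k + 1) r (row W r).w.length k
  | up {r i j : ℕ} (hr : r < W.length) (hd : dir W r j = false) : Step W r (i + 1) j r i j
  | umxl {r j k : ℕ} {d : Bool} (hr : r + 1 < W.length) (he : (row W (r + 1)).e = .mx k d)
      (hd : dir W (r + 1) j = false) (hj : j < k) : Step W (r + 1) 0 j r (row W r).w.length j
  | umxr {r j k : ℕ} {d : Bool} (hr : r + 1 < W.length) (he : (row W (r + 1)).e = .mx k d)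
      (hd : dir W (r + 1) (j + 2) = false) (hj : k ≤ j) :
      Step W (r + 1) 0 (j + 2) r (row W r).w.length j
  | bra {r k : ℕ} (hr : r < W.length) (he : (row W r).e = .mx k false) : Step W r 0 k r 0 (k + 1)
  | brb {r k : ℕ} (hr : r < W.length) (he : (row W r).e = .mx k true) : Step W r 0 (k + 1) r 0 k
  | umnl {r j k : ℕ} (hr : r + 1 < W.length) (he : (row W (r + 1)).e = .mn k)
      (hd : dir W (r + 1) j = false) (hj : j < k) : Step W (r + 1) 0 j r (row W r).w.length j
  | umnr {r j k : ℕ} (hr : r + 1 < W.length) (he : (row W (r + 1)).e = .mn k)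
      (hd : dir W (r + 1) j = false) (hj : k ≤ j) : Step W (r + 1) 0 j r (row W r).w.length (j + 2)

theorem step_of {p : Pt W} {r' i' j' : ℕ} (hv : Val W r' i' j')
    (he : nxRaw W p.r p.i p.j = (r', i', j')) (h : Step W p.r p.i p.j r' i' j') :
    Step W p.r p.i p.j (nx p).r (nx p).i (nx p).j := by
  have h1 : nx p = ⟨r', i', j', hv.1, hv.2.1, hv.2.2⟩ := nx_eq he
  rw [h1]
  exact h

theorem step (hW : Ok W) (p : Pt W) : Step W p.r p.i p.j (nx p).r (nx p).i (nx p).j := by
  obtain ⟨r, i, j, hr, hi, hj⟩ := p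
  cases hd : dir W r j with
  | true =>
    rcases lt_or_ge i (row W r).w.length with hi0 | hi0
    · obtain ⟨h1, h2, h3⟩ := cr_facts hW hr hi0
      exact step_of (p := ⟨r, i, j, hr, hi, hj⟩) ⟨hr, hi0, sw_lt h1 hj⟩ (nx_cross hd hi0)
        (Step.cr hr hd hi0)
    · have hi1 : i = (row W r).w.length := le_antisymm hi hi0
      subst hi1
      have hr1 : r + 1 < W.length := by
        by_contra hr1
        have : r + 1 = W.length := by omega
        rw [this, hW.closed] at hj
        simp at hj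
      cases he : (row W (r + 1)).e with
      | mx k d =>
        obtain ⟨h1, h2, h3, h4, h5, h6⟩ := mx_facts hW hr1 he
        rcases lt_or_ge j k with hjk | hjk
        · refine step_of (p := ⟨r, _, j, hr, hi, hj⟩) (r' := r + 1) (i' := 0) (j' := j)
            ⟨hr1, Nat.zero_le _, by omega⟩ ?_ (Step.mxl hr1 he hd hjk)
          show nxRaw W r _ j = _
          rw [nx_mx_dn hd he, if_pos hjk]
        · refine step_of (p := ⟨r, _, j, hr, hi, hj⟩) (r' := r + 1) (i' := 0) (j' := j + 2)
            ⟨hr1, Nat.zero_le _, by omega⟩ ?_ (Step.mxr hr1 he hd hjk)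
          show nxRaw W r _ j = _
          rw [nx_mx_dn hd he, if_neg (by omega)]
      | mn k =>
        obtain ⟨h1, h2, h3, h4, h5⟩ := mn_facts hW hr1 he
        rw [dir_eq, dir_eq] at h3
        rcases lt_trichotomy j k with hjk | rfl | hjk
        · refine step_of (p := ⟨r, _, j, hr, hi, hj⟩) (r' := r + 1) (i' := 0) (j' := j)
            ⟨hr1, Nat.zero_le _, by omega⟩ ?_ (Step.mnl hr1 he hd hjk)
          show nxRaw W r _ j = _
          rw [nx_mn_dn hd he, if_pos hjk]
        · refine step_of (p := ⟨r, _, j, hr, hi, hj⟩) (r' := r) (i' := (row W r).w.length)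
            (j' := j + 1) ⟨hr, le_rfl, h1⟩ ?_ (Step.mna hr1 he hd (by rw [h3, hd]; rfl))
          show nxRaw W r _ j = _
          rw [nx_mn_dn hd he, if_neg (by omega), if_pos rfl]
        · rcases Nat.lt_or_ge (k + 1) j with hjk2 | hjk2
          · obtain ⟨j0, rfl⟩ : ∃ j0, j = j0 + 2 := ⟨j - 2, by omega⟩
            refine step_of (p := ⟨r, _, j0 + 2, hr, hi, hj⟩) (r' := r + 1) (i' := 0) (j' := j0)
              ⟨hr1, Nat.zero_le _, by omega⟩ ?_ (Step.mnr hr1 he hd (by omega))
            show nxRaw W r _ _ = _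
            rw [nx_mn_dn hd he, if_neg (by omega), if_neg (by omega), if_neg (by omega)]
            rfl
          · have : j = k + 1 := by omega
            subst this
            refine step_of (p := ⟨r, _, k + 1, hr, hi, hj⟩) (r' := r) (i' := (row W r).w.length)
              (j' := k) ⟨hr, le_rfl, by omega⟩ ?_
              (Step.mnb hr1 he hd (by rw [h3] at hd; simpa using hd))
            show nxRaw W r _ _ = _
            rw [nx_mn_dn hd he, if_neg (by omega), if_neg (by omega), if_pos rfl]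
  | false =>
    rcases Nat.eq_zero_or_pos i with rfl | hi0
    · cases he : (row W r).e with
      | mx k d =>
        obtain ⟨h1, h2, h3, h4, h5, h6⟩ := mx_facts hW hr he
        rcases lt_trichotomy j k with hjk | rfl | hjk
        · have hr0 : r ≠ 0 := by
            rintro rfl
            have h9 : (lv W 0).length = 0 := by rw [lv_zero]; rfl
            omega
          obtain ⟨q, rfl⟩ := Nat.exists_eq_succ_of_ne_zero hr0
          refine step_of (p := ⟨q + 1, 0, j, hr, hi, hj⟩) (r' := q) (i' := (row W q).w.length)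
            (j' := j) ⟨by omega, le_rfl, by
              have : k ≤ (lv W (q + 1)).length := h1
              omega⟩ ?_ (Step.umxl hr he hd hjk)
          show nxRaw W (q + 1) 0 j = _
          rw [nx_mx_up hd he, if_pos hjk]
          rfl
        · have hdd : d = false := by rw [← h4, hd]
          subst hdd
          refine step_of (p := ⟨r, 0, j, hr, hi, hj⟩) (r' := r) (i' := 0) (j' := j + 1)
            ⟨hr, Nat.zero_le _, by omega⟩ ?_ (Step.bra hr he)
          show nxRaw W r 0 j = _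
          rw [nx_mx_up hd he, if_neg (by omega), if_pos rfl]
        · rcases Nat.lt_or_ge (k + 1) j with hjk2 | hjk2
          · obtain ⟨j0, rfl⟩ : ∃ j0, j = j0 + 2 := ⟨j - 2, by omega⟩
            have hr0 : r ≠ 0 := by
              rintro rfl
              have h9 : (lv W 0).length = 0 := by rw [lv_zero]; rfl
              omega
            obtain ⟨q, rfl⟩ := Nat.exists_eq_succ_of_ne_zero hr0
            refine step_of (p := ⟨q + 1, 0, j0 + 2, hr, hi, hj⟩) (r' := q)
              (i' := (row W q).w.length) (j' := j0) ⟨by omega, le_rfl, by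
                have : (lv W (q + 1 + 1)).length = (lv W (q + 1)).length + 2 := h2
                have hj' : j0 + 2 < (lv W (q + 1 + 1)).length := hj
                omega⟩ ?_ (Step.umxr hr he hd (by omega))
            show nxRaw W (q + 1) 0 (j0 + 2) = _
            rw [nx_mx_up hd he, if_neg (by omega), if_neg (by omega), if_neg (by omega)]
            rfl
          · have : j = k + 1 := by omega
            subst this
            have hdd : d = true := by
              rw [h5] at hd
              simpa using hd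
            subst hdd
            refine step_of (p := ⟨r, 0, k + 1, hr, hi, hj⟩) (r' := r) (i' := 0) (j' := k)
              ⟨hr, Nat.zero_le _, by omega⟩ ?_ (Step.brb hr he)
            show nxRaw W r 0 _ = _
            rw [nx_mx_up hd he, if_neg (by omega), if_neg (by omega), if_pos rfl]
      | mn k =>
        obtain ⟨h1, h2, h3, h4, h5⟩ := mn_facts hW hr he
        have hr0 : r ≠ 0 := by
          rintro rfl
          have h9 : (lv W 0).length = 0 := by rw [lv_zero]; rfl
          omega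
        obtain ⟨q, rfl⟩ := Nat.exists_eq_succ_of_ne_zero hr0
        have hl : (lv W (q + 1 + 1)).length + 2 = (lv W (q + 1)).length := h2
        have hj' : j < (lv W (q + 1 + 1)).length := hj
        rcases lt_or_ge j k with hjk | hjk
        · refine step_of (p := ⟨q + 1, 0, j, hr, hi, hj⟩) (r' := q) (i' := (row W q).w.length)
            (j' := j) ⟨by omega, le_rfl, by omega⟩ ?_ (Step.umnl hr he hd hjk)
          show nxRaw W (q + 1) 0 j = _
          rw [nx_mn_up hd he, if_pos hjk]
          rfl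
        · refine step_of (p := ⟨q + 1, 0, j, hr, hi, hj⟩) (r' := q) (i' := (row W q).w.length)
            (j' := j + 2) ⟨by omega, le_rfl, by omega⟩ ?_ (Step.umnr hr he hd hjk)
          show nxRaw W (q + 1) 0 j = _
          rw [nx_mn_up hd he, if_neg (by omega)]
          rfl
    · obtain ⟨i0, rfl⟩ : ∃ i0, i = i0 + 1 := ⟨i - 1, by omega⟩
      exact step_of (p := ⟨r, i0 + 1, j, hr, hi, hj⟩) ⟨hr, by omega, hj⟩ (nx_up hd)
        (Step.up hr hd)

/-! ### The births -/

/-- The point `p` is the downward leg of the birth `x`. -/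
def Bi (p : Pt W) (x : ℕ) : Prop :=
  p.i = 0 ∧ nb W p.r = x ∧ ∃ k d, (row W p.r).e = .mx k d ∧ p.j = if d = true then k else k + 1

theorem nb_mono {r r' : ℕ} (h : r ≤ r') (hr' : r' ≤ W.length) : nb W r ≤ nb W r' := by
  induction r', h using Nat.le_induction with
  | base => exact le_rfl
  | succ r' h ih =>
    exact (ih (by omega)).trans (Pool.Agent.Helper48.EV2.nb_le_succ (by omega)).1

theorem Bi.unique {p p' : Pt W} {x : ℕ} (h : Bi p x) (h' : Bi p' x) : p = p' := by
  obtain ⟨h1, h2, k, d, h3, h4⟩ := h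
  obtain ⟨h1', h2', k', d', h3', h4'⟩ := h'
  have hlt : ∀ {q q' : Pt W}, nb W q.r = x → nb W q'.r = x →
      (∃ k d, (row W q.r).e = .mx k d) → ¬ q.r < q'.r := by
    rintro q q' g g' ⟨k, d, g''⟩ hlt
    have e1 := Pool.Agent.Helper48.EV2.nb_succ_mx q.hr g''
    have e2 := nb_mono (W := W) (r := q.r + 1) hlt q'.hr.le
    omega
  have hr : p.r = p'.r := by
    have a1 := hlt h2 h2' ⟨k, d, h3⟩
    have a2 := hlt h2' h2 ⟨k', d', h3'⟩
    omega
  have hkd : Ext.mx k d = Ext.mx k' d' := by rw [← h3, ← h3', hr]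
  injection hkd with e1 e2
  subst e1 e2
  ext
  · exact hr
  · rw [h1, h1']
  · rw [h4, h4']

theorem exists_bi (hW : Ok W) {x : ℕ} (hx : x < maxima W) : ∃ p : Pt W, Bi p x := by
  obtain ⟨r, hr, hn, k, d, he⟩ := Pool.Agent.Helper48.EV2.exists_birth hx
  obtain ⟨h1, h2, _⟩ := mx_facts hW hr he
  refine ⟨⟨r, 0, if d = true then k else k + 1, hr, Nat.zero_le _, ?_⟩, rfl, hn, k, d, he, rfl⟩
  split_ifs <;> omega

theorem Bi.dir (hW : Ok W) {p : Pt W} {x : ℕ} (h : Bi p x) : dir W p.r p.j = true := by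
  obtain ⟨h1, h2, k, d, h3, h4⟩ := h
  obtain ⟨_, _, _, g4, g5, _⟩ := mx_facts hW p.hr h3
  rw [h4]
  cases d with
  | true => rw [if_pos rfl]; exact g4
  | false => rw [if_neg (by simp)]; exact g5

theorem get_of_dir {r j : ℕ} {c : Bool} (hj : j < (lv W (r + 1)).length) (h : dir W r j = c) :
    (lv W (r + 1))[j]? = some c := by
  unfold dir at h
  rw [List.getD_eq_getElem?_getD, List.getElem?_eq_getElem hj] at h
  rw [List.getElem?_eq_getElem hj, ← h]
  rfl

/-! ### The time -/

/-- the number of the level `(r, i)` -/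
def ix0 (W : Word) (r i : ℕ) : ℕ := ∑ q ∈ Finset.range r, ((row W q).w.length + 1) + i

theorem ix0_end (W : Word) (r : ℕ) : ix0 W (r + 1) 0 = ix0 W r (row W r).w.length + 1 := by
  unfold ix0
  rw [Finset.sum_range_succ]
  omega

theorem ix0_lt {r i : ℕ} (hr : r < W.length) (hi : i ≤ (row W r).w.length) :
    ix0 W r i < ix0 W W.length 0 := by
  have h1 : ix0 W (r + 1) 0 ≤ ix0 W W.length 0 := by
    unfold ix0
    have := Finset.sum_le_sum_of_subset (f := fun q => (row W q).w.length + 1)
      (Finset.range_subset_range.2 (by omega : r + 1 ≤ W.length))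
    omega
  have h2 := ix0_end W r
  have h3 : ix0 W r i ≤ ix0 W r (row W r).w.length := by
    unfold ix0
    omega
  omega

/-- the time -/
def tim (W : Word) (r i j : ℕ) : ℕ :=
  if dir W r j = true then ix0 W r i else 2 * ix0 W W.length 0 - ix0 W r i

theorem Step.tim (hW : Ok W) {r i j r' i' j' : ℕ} (hs : Step W r i j r' i' j') (hvp : Val W r i j)
    (hb : ∀ x, ¬ (i' = 0 ∧ nb W r' = x ∧ ∃ k d, (row W r').e = .mx k d ∧
      j' = if d = true then k else k + 1)) : tim W r i j < tim W r' i' j' := by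
  unfold Rows.tim
  induction hs with
  | cr hr hd hi =>
    obtain ⟨_, h2, h3⟩ := cr_facts hW hr hi
    rw [if_pos hd, if_pos (by rw [dir_sw h2 h3]; exact hd)]
    unfold ix0
    omega
  | @mxl r j k d hr he hd hj =>
    obtain ⟨_, _, h3, _⟩ := mx_facts hW hr he
    have : dir W (r + 1) j = true := (h3 j hj).trans hd
    rw [if_pos hd, if_pos this, ix0_end]
    omega
  | mxr hr he hd hj =>
    obtain ⟨_, _, _, _, _, h6⟩ := mx_facts hW hr he
    have := (h6 _ hj).trans hd
    rw [if_pos hd, if_pos this, ix0_end]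
    omega
  | @mnl r j k hr he hd hj =>
    obtain ⟨_, _, _, h4, _⟩ := mn_facts hW hr he
    have : dir W (r + 1) j = true := (h4 j hj).trans hd
    rw [if_pos hd, if_pos this, ix0_end]
    omega
  | mnr hr he hd hj =>
    obtain ⟨_, _, _, _, h5⟩ := mn_facts hW hr he
    have := (h5 _ hj).trans hd
    rw [if_pos hd, if_pos this, ix0_end]
    omega
  | @mna r k hr he hd hd' =>
    rw [if_pos hd, if_neg (by rw [hd']; simp)]
    have := ix0_lt (W := W) (r := r) (by omega) le_rfl
    omega
  | @mnb r k hr he hd hd' =>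
    rw [if_pos hd, if_neg (by rw [hd']; simp)]
    have := ix0_lt (W := W) (r := r) (by omega) le_rfl
    omega
  | up hr hd =>
    rw [if_neg (by rw [hd]; simp), if_neg (by rw [hd]; simp)]
    have := ix0_lt hvp.1 hvp.2.1
    unfold ix0 at this ⊢
    omega
  | @umxl r j k d hr he hd hj =>
    obtain ⟨_, _, h3, _⟩ := mx_facts hW hr he
    have : dir W r j = false := (h3 j hj).symm.trans hd
    rw [if_neg (by rw [hd]; simp), if_neg (by rw [this]; simp)]
    have h7 := ix0_lt hvp.1 hvp.2.1
    have h8 := ix0_end W r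
    omega
  | @umxr r j k d hr he hd hj =>
    obtain ⟨_, _, _, _, _, h6⟩ := mx_facts hW hr he
    have := (h6 _ hj).symm.trans hd
    rw [dir_eq] at this
    rw [if_neg (by rw [hd]; simp), if_neg (by rw [this]; simp)]
    have h7 := ix0_lt hvp.1 hvp.2.1
    have h8 := ix0_end W r
    omega
  | bra hr he =>
    exact absurd ⟨rfl, rfl, _, _, he, by simp⟩ (hb _)
  | brb hr he =>
    exact absurd ⟨rfl, rfl, _, _, he, by simp⟩ (hb _)
  | @umnl r j k hr he hd hj =>
    obtain ⟨_, _, _, h4, _⟩ := mn_facts hW hr he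
    have : dir W r j = false := (h4 j hj).symm.trans hd
    rw [if_neg (by rw [hd]; simp), if_neg (by rw [this]; simp)]
    have h7 := ix0_lt hvp.1 hvp.2.1
    have h8 := ix0_end W r
    omega
  | @umnr r j k hr he hd hj =>
    obtain ⟨_, _, _, _, h5⟩ := mn_facts hW hr he
    have := (h5 _ hj).symm.trans hd
    rw [dir_eq] at this
    rw [if_neg (by rw [hd]; simp), if_neg (by rw [this]; simp)]
    have h7 := ix0_lt hvp.1 hvp.2.1
    have h8 := ix0_end W r
    omega

theorem tim_step (hW : Ok W) {p : Pt W} (hb : ∀ x, ¬ Bi (nx p) x) :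
    tim W p.r p.i p.j < tim W (nx p).r (nx p).i (nx p).j :=
  (step hW p).tim hW (val_pt p) hb

/-! ### The values -/

section Values

variable {R : Type} [CommRing R] (t ti : R) (σ : ℕ → ℕ → St) (ξ : ℕ → R)

/-- The mass at a point: the flow on the downward strands, the mass which arrives on the upward strands. -/
def yv (W : Word) (r i j : ℕ) : R :=
  if dir W r j = true then flowI W t ti σ ξ 0 r i j else Q W t ti σ ξ (lab W (r + 1) j)

theorem yv_dn {r i j : ℕ} (h : dir W r j = true) :
    yv t ti σ ξ W r i j = flowI W t ti σ ξ 0 r i j := if_pos h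

theorem yv_up {r i j : ℕ} (h : dir W r j = false) :
    yv t ti σ ξ W r i j = Q W t ti σ ξ (lab W (r + 1) j) := if_neg (by rw [h]; simp)

theorem flowI_succ (r i : ℕ) : flowI W t ti σ ξ 0 r (i + 1) =
    fl t ti (σ r i) ((row W r).w.getD i 0) (flowI W t ti σ ξ 0 r i) := rfl

theorem flowI_end (r : ℕ) :
    flowI W t ti σ ξ 0 r (row W r).w.length = flow W t ti σ ξ 0 (r + 1) := rfl

theorem flowI_mx {r k : ℕ} {d : Bool} (he : (row W r).e = .mx k d) (j : ℕ) :
    flowI W t ti σ ξ 0 r 0 j = ins k (if d then ξ (nb W r) else 0) (if d then 0 else ξ (nb W r))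
      (flow W t ti σ ξ 0 r) j := by
  show fext (row W r).e (nb W r) ξ 0 (flow W t ti σ ξ 0 r) j = _
  rw [he]
  rfl

theorem flowI_mn {r k : ℕ} (he : (row W r).e = .mn k) (j : ℕ) :
    flowI W t ti σ ξ 0 r 0 j = del k (flow W t ti σ ξ 0 r) j := by
  show fext (row W r).e (nb W r) ξ 0 (flow W t ti σ ξ 0 r) j = _
  rw [he]
  rfl

theorem lab_mx {r k : ℕ} {d : Bool} (he : (row W r).e = .mx k d) (j : ℕ) :
    lab W (r + 1) j = ins k (nb W r) (nb W r) (lab W r) j := by
  show (match (row W r).e with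
    | .mx k _ => ins k (nb W r) (nb W r) (lab W r)
    | .mn k => del k (lab W r)) j = _
  rw [he]

theorem lab_mn {r k : ℕ} (he : (row W r).e = .mn k) (j : ℕ) :
    lab W (r + 1) j = del k (lab W r) j := by
  show (match (row W r).e with
    | .mx k _ => ins k (nb W r) (nb W r) (lab W r)
    | .mn k => del k (lab W r)) j = _
  rw [he]

theorem ins_lt {M : Type} {k j : ℕ} (a b : M) (u : ℕ → M) (h : j < k) : ins k a b u j = u j :=
  if_pos h

theorem ins_ge {M : Type} {k j : ℕ} (a b : M) (u : ℕ → M) (h : k ≤ j) :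
    ins k a b u (j + 2) = u j := by
  unfold ins
  rw [if_neg (by omega), if_neg (by omega), if_neg (by omega)]
  rfl

theorem ins_k {M : Type} (k : ℕ) (a b : M) (u : ℕ → M) : ins k a b u k = a := by
  unfold ins
  rw [if_neg (by omega), if_pos rfl]

theorem ins_k1 {M : Type} (k : ℕ) (a b : M) (u : ℕ → M) : ins k a b u (k + 1) = b := by
  unfold ins
  rw [if_neg (by omega), if_neg (by omega), if_pos rfl]

theorem del_lt {M : Type} {k j : ℕ} (u : ℕ → M) (h : j < k) : del k u j = u j := if_pos h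

theorem del_ge {M : Type} {k j : ℕ} (u : ℕ → M) (h : k ≤ j) : del k u j = u (j + 2) :=
  if_neg (by omega)

/-- the other strands of a crossing -/
theorem fl_ne {k j : ℕ} (a : St) (u : ℕ → R) (h1 : j ≠ k) (h2 : j ≠ k + 1) :
    fl t ti a k u j = u j := by
  cases a
  · simp only [fl, if_neg h1, if_neg h2]
  · simp only [fl, if_neg h1, if_neg h2]
  · rfl

/-- The mass does not change at a step without a crossing which does not end in a birth. -/
theorem Step.val (hW : Ok W) {r i j r' i' j' : ℕ} (hs : Step W r i j r' i' j')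
    (hv : Val W r i j) (hv' : Val W r' i' j')
    (hc : i < (row W r).w.length → dir W r j = true →
      j ≠ (row W r).w.getD i 0 ∧ j ≠ (row W r).w.getD i 0 + 1)
    (hb : ∀ x, ¬ (i' = 0 ∧ nb W r' = x ∧ ∃ k d, (row W r').e = .mx k d ∧
      j' = if d = true then k else k + 1)) :
    yv t ti σ ξ W r' i' j' = yv t ti σ ξ W r i j := by
  induction hs with
  | @cr r i j hr hd hi =>
    obtain ⟨h1, h2⟩ := hc hi hd
    rw [sw_of_ne h1 h2, yv_dn _ _ _ _ hd, yv_dn _ _ _ _ hd, flowI_succ, fl_ne _ _ _ _ h1 h2]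
  | @mxl r j k d hr he hd hj =>
    obtain ⟨_, _, h3, _⟩ := mx_facts hW hr he
    have h : dir W (r + 1) j = true := (h3 j hj).trans hd
    rw [yv_dn _ _ _ _ hd, yv_dn _ _ _ _ h, flowI_mx _ _ _ _ he, ins_lt _ _ _ hj, flowI_end]
  | @mxr r j k d hr he hd hj =>
    obtain ⟨_, _, _, _, _, h6⟩ := mx_facts hW hr he
    have h : dir W (r + 1) (j + 2) = true := (h6 _ hj).trans hd
    rw [yv_dn _ _ _ _ hd, yv_dn _ _ _ _ h, flowI_mx _ _ _ _ he, ins_ge _ _ _ hj, flowI_end]
  | @mnl r j k hr he hd hj =>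
    obtain ⟨_, _, _, h4, _⟩ := mn_facts hW hr he
    have h : dir W (r + 1) j = true := (h4 j hj).trans hd
    rw [yv_dn _ _ _ _ hd, yv_dn _ _ _ _ h, flowI_mn _ _ _ _ he, del_lt _ hj, flowI_end]
  | @mnr r j k hr he hd hj =>
    obtain ⟨_, _, _, _, h5⟩ := mn_facts hW hr he
    have h : dir W (r + 1) j = true := (h5 _ hj).trans hd
    rw [yv_dn _ _ _ _ hd, yv_dn _ _ _ _ h, flowI_mn _ _ _ _ he, del_ge _ hj, flowI_end]
  | @mna r k hr he hd hd' =>
    rw [yv_dn _ _ _ _ hd, yv_up _ _ _ _ hd', flowI_end]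
    rcases Pool.Agent.Helper48.EV2.Q_eq hW t ti σ ξ hr he with ⟨⟨h1, h2⟩, h3⟩ | ⟨⟨h1, h2⟩, h3⟩
    · exact h3
    · have h4 := getD_of_get h1
      rw [dir_eq, hd] at h4
      exact absurd h4 (by simp)
  | @mnb r k hr he hd hd' =>
    rw [yv_dn _ _ _ _ hd, yv_up _ _ _ _ hd', flowI_end]
    rcases Pool.Agent.Helper48.EV2.Q_eq hW t ti σ ξ hr he with ⟨⟨h1, h2⟩, h3⟩ | ⟨⟨h1, h2⟩, h3⟩
    · have h4 := getD_of_get h1
      rw [dir_eq, hd'] at h4
      exact absurd h4 (by simp)
    · exact h3
  | @up r i j hr hd => rw [yv_up _ _ _ _ hd, yv_up _ _ _ _ hd]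
  | @umxl r j k d hr he hd hj =>
    obtain ⟨_, _, h3, _⟩ := mx_facts hW hr he
    have h : dir W r j = false := (h3 j hj).symm.trans hd
    rw [yv_up _ _ _ _ hd, yv_up _ _ _ _ h, lab_mx he, ins_lt _ _ _ hj]
  | @umxr r j k d hr he hd hj =>
    obtain ⟨_, _, _, _, _, h6⟩ := mx_facts hW hr he
    have h : dir W r j = false := (h6 _ hj).symm.trans hd
    rw [yv_up _ _ _ _ hd, yv_up _ _ _ _ h, lab_mx he, ins_ge _ _ _ hj]
  | @bra r k hr he => exact absurd ⟨rfl, rfl, _, _, he, by simp⟩ (hb _)
  | @brb r k hr he => exact absurd ⟨rfl, rfl, _, _, he, by simp⟩ (hb _)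
  | @umnl r j k hr he hd hj =>
    obtain ⟨_, _, _, h4, _⟩ := mn_facts hW hr he
    have h : dir W r j = false := (h4 j hj).symm.trans hd
    rw [yv_up _ _ _ _ hd, yv_up _ _ _ _ h, lab_mn he, del_lt _ hj]
  | @umnr r j k hr he hd hj =>
    obtain ⟨_, _, _, _, h5⟩ := mn_facts hW hr he
    have h : dir W r (j + 2) = false := (h5 _ hj).symm.trans hd
    rw [yv_up _ _ _ _ hd, yv_up _ _ _ _ h, lab_mn he, del_ge _ hj]

/-- The mass which arrives at a birth. -/
theorem Step.birth (hW : Ok W) {r i j r' i' j' : ℕ} (hs : Step W r i j r' i' j')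
    (hi' : i' = 0) {k' : ℕ} {d' : Bool} (he' : (row W r').e = .mx k' d')
    (hj' : j' = if d' = true then k' else k' + 1) (hr' : r' < W.length) :
    dir W r j = false ∧ yv t ti σ ξ W r i j = Q W t ti σ ξ (nb W r') := by
  have hdir : dir W r' j' = true := by
    obtain ⟨_, _, _, g4, g5, _⟩ := mx_facts hW hr' he'
    rw [hj']
    cases d' with
    | true => rw [if_pos rfl]; exact g4
    | false => rw [if_neg (by simp)]; exact g5
  have hj1 : k' ≤ j' := by rw [hj']; split_ifs <;> omega
  have hj2 : j' ≤ k' + 1 := by rw [hj']; split_ifs <;> omega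
  induction hs with
  | @cr r i j hr hd hi => omega
  | @mxl r j k d hr he hd hj =>
    rw [he] at he'
    injection he' with e1 e2
    omega
  | @mxr r j k d hr he hd hj =>
    rw [he] at he'
    injection he' with e1 e2
    omega
  | @mnl r j k hr he hd hj =>
    rw [he] at he'
    cases he'
  | @mnr r j k hr he hd hj =>
    rw [he] at he'
    cases he'
  | @mna r k hr he hd hd' =>
    rw [hd'] at hdir
    cases hdir
  | @mnb r k hr he hd hd' =>
    rw [hd'] at hdir
    cases hdir
  | @up r i j hr hd =>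
    rw [hd] at hdir
    cases hdir
  | @umxl r j k d hr he hd hj =>
    obtain ⟨_, _, h3, _⟩ := mx_facts hW hr he
    have h : dir W r j = false := (h3 j hj).symm.trans hd
    rw [h] at hdir
    cases hdir
  | @umxr r j k d hr he hd hj =>
    obtain ⟨_, _, _, _, _, h6⟩ := mx_facts hW hr he
    have h : dir W r j = false := (h6 _ hj).symm.trans hd
    rw [h] at hdir
    cases hdir
  | @bra r k hr he =>
    obtain ⟨_, _, _, g4, _, _⟩ := mx_facts hW hr he
    refine ⟨g4, ?_⟩
    rw [yv_up _ _ _ _ g4, lab_mx he, ins_k]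
  | @brb r k hr he =>
    obtain ⟨_, _, _, _, g5, _⟩ := mx_facts hW hr he
    have g5' : dir W r (k + 1) = false := g5
    refine ⟨g5', ?_⟩
    rw [yv_up _ _ _ _ g5', lab_mx he, ins_k1]
  | @umnl r j k hr he hd hj =>
    obtain ⟨_, _, _, h4, _⟩ := mn_facts hW hr he
    have h : dir W r j = false := (h4 j hj).symm.trans hd
    rw [h] at hdir
    cases hdir
  | @umnr r j k hr he hd hj =>
    obtain ⟨_, _, _, _, h5⟩ := mn_facts hW hr he
    have h : dir W r (j + 2) = false := (h5 _ hj).symm.trans hd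
    rw [h] at hdir
    cases hdir

end Values

/-! ### The walk matrix -/

section Walk

open Pool.Agent.Helper60.EV2 (U kd Kd)

variable {P : Type} [Fintype P] [DecidableEq P] {G : Sh P} {R : Type} [CommRing R]

/-- The mass on the outgoing edge of a passage. -/
def out (s t : R) (D : Dg G) (y : P → R) (q : P) : R :=
  match D.st q with
  | .pos => if G.lf q = true then y q + (1 - s ^ 2) * y (G.op q) else s ^ 2 * y q
  | .neg => if G.lf q = true then t ^ 2 * y q else y q + (1 - t ^ 2) * y (G.op q)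
  | .smooth => y (G.op q)

theorem sum_U_triv (s t : R) (D : Dg G) (y : P → R) {q : P} (h : G.op q = q) :
    ∑ p, y p * U G.op (kd s t D) p q = y q := by
  rw [Finset.sum_eq_single q]
  · have : U G.op (kd s t D) q q = 1 := by
      unfold U
      cases kd s t D q with
      | ov q => simp [h]
      | un => simp
      | sm => simp [h]
    rw [this, mul_one]
  · intro p _ hp
    rw [Pool.Agent.Helper60.EV2.U_zero s t D hp (by rw [h]; exact hp), mul_zero]
  · intro h'
    exact absurd (Finset.mem_univ _) h'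

theorem sum_U_cross (s t : R) (D : Dg G) (y : P → R) {q : P} (h : G.op q ≠ q) :
    ∑ p, y p * U G.op (kd s t D) p q = out s t D y q := by
  rw [Pool.Agent.Helper60.EV2.sum_two (G := G) _ q h fun i h1 h2 => by
    rw [Pool.Agent.Helper60.EV2.U_zero s t D h1 h2, mul_zero]]
  have h' : q ≠ G.op q := Ne.symm h
  unfold out
  cases hl : G.lf q
  · have hlo : G.lf (G.op q) = true := by rw [G.lf_op q h, hl]; rfl
    cases hs : D.st q
    · have e1 : kd s t D q = .ov (s ^ 2) := by simp [kd, hs, hl]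
      have e2 : kd s t D (G.op q) = .un := by simp [kd, D.st_op, hs, hlo]
      simp only [U, e1, e2, if_neg h']
      simp
      ring
    · have e1 : kd s t D q = .un := by simp [kd, hs, hl]
      have e2 : kd s t D (G.op q) = .ov (t ^ 2) := by simp [kd, D.st_op, hs, hlo]
      simp only [U, e1, e2, if_neg h', G.op_op]
      simp
      ring
    · have e1 : kd s t D q = .sm := by simp [kd, hs]
      have e2 : kd s t D (G.op q) = .sm := by simp [kd, D.st_op, hs]
      simp only [U, e1, e2, if_neg h', G.op_op]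
      simp
  · have hlo : G.lf (G.op q) = false := by rw [G.lf_op q h, hl]; rfl
    cases hs : D.st q
    · have e1 : kd s t D q = .un := by simp [kd, hs, hl]
      have e2 : kd s t D (G.op q) = .ov (s ^ 2) := by simp [kd, D.st_op, hs, hlo]
      simp only [U, e1, e2, if_neg h', G.op_op]
      simp
      ring
    · have e1 : kd s t D q = .ov (t ^ 2) := by simp [kd, hs, hl]
      have e2 : kd s t D (G.op q) = .un := by simp [kd, D.st_op, hs, hlo]
      simp only [U, e1, e2, if_neg h']
      simp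
      ring
    · have e1 : kd s t D q = .sm := by simp [kd, hs]
      have e2 : kd s t D (G.op q) = .sm := by simp [kd, D.st_op, hs]
      simp only [U, e1, e2, if_neg h', G.op_op]
      simp

end Walk

/-! ### The elimination -/

section Elim

open Pool.Agent.Helper60.EV2 (U kd Kd B)

variable {R : Type} [CommRing R] (hW : Ok W) (s t : R) (D : Dg (shadow W hW)) (ξ : ℕ → R)

/-- the mass at a point -/
def yp (p : Pt W) : R := yv (s ^ 2) (t ^ 2) (stat D) ξ W p.r p.i p.j

theorem stat_eq {r i j : ℕ} (hr : r < W.length) (hi : i ≤ (row W r).w.length)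
    (hj : j < (lv W (r + 1)).length) (h : j = (row W r).w.getD i 0) :
    stat D r i = D.st ⟨r, i, j, hr, hi, hj⟩ := by
  subst h
  exact dif_pos ⟨hr, hi, hj⟩

/-- The mass after a crossing. -/
theorem out_cross {q : Pt W} (h : op q ≠ q) :
    out s t D (yp hW s t D ξ) q = yp hW s t D ξ (nx q) := by
  have hc := cro_of_ne h
  obtain ⟨r, i, j, hr, hi, hj⟩ := q
  obtain ⟨c1, c2, c3, c4, c5⟩ := hc
  have c1' : i < (row W r).w.length := c1
  have c2' : dir W r ((row W r).w.getD i 0) = true := c2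
  have c3' : dir W r ((row W r).w.getD i 0 + 1) = true := c3
  have c4' : (row W r).w.getD i 0 + 1 < (lv W (r + 1)).length := c4
  have c5' : j = (row W r).w.getD i 0 ∨ j = (row W r).w.getD i 0 + 1 := c5
  obtain ⟨k, hk⟩ : ∃ k, k = (row W r).w.getD i 0 := ⟨_, rfl⟩
  rw [← hk] at c2' c3' c4' c5'
  have hsw : sw k k = k + 1 := by
    unfold sw
    rw [if_pos rfl]
  have hsw' : sw k (k + 1) = k := by
    unfold sw
    rw [if_neg (by omega), if_pos rfl]
  have hs1 : stat D r i = D.st ⟨r, i, k, hr, hi, by omega⟩ := stat_eq hW D hr hi _ hk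
  have hfl : ∀ l, flowI W (s ^ 2) (t ^ 2) (stat D) ξ 0 r (i + 1) l =
      fl (s ^ 2) (t ^ 2) (D.st ⟨r, i, k, hr, hi, by omega⟩) k
        (flowI W (s ^ 2) (t ^ 2) (stat D) ξ 0 r i) l := by
    intro l
    rw [flowI_succ, hs1, ← hk]
  have hyk : yp hW s t D ξ ⟨r, i, k, hr, hi, by omega⟩ =
      flowI W (s ^ 2) (t ^ 2) (stat D) ξ 0 r i k := yv_dn _ _ _ _ c2'
  have hyk1 : yp hW s t D ξ ⟨r, i, k + 1, hr, hi, c4'⟩ =
      flowI W (s ^ 2) (t ^ 2) (stat D) ξ 0 r i (k + 1) := yv_dn _ _ _ _ c3'
  have hzk : yp hW s t D ξ ⟨r, i + 1, k, hr, c1', by omega⟩ =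
      flowI W (s ^ 2) (t ^ 2) (stat D) ξ 0 r (i + 1) k := yv_dn _ _ _ _ c2'
  have hzk1 : yp hW s t D ξ ⟨r, i + 1, k + 1, hr, c1', c4'⟩ =
      flowI W (s ^ 2) (t ^ 2) (stat D) ξ 0 r (i + 1) (k + 1) := yv_dn _ _ _ _ c3'
  have ho : op (⟨r, i, k, hr, hi, by omega⟩ : Pt W) = ⟨r, i, k + 1, hr, hi, c4'⟩ := by
    have hc' : Cro (⟨r, i, k, hr, hi, by omega⟩ : Pt W) := ⟨c1, c2, c3, c4, Or.inl hk⟩
    rw [op_of hc']
    ext
    · rfl
    · rfl
    · show sw ((row W r).w.getD i 0) k = k + 1
      rw [← hk, hsw]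
  rcases c5' with h5 | h5
  · subst h5
    have hn : nx (⟨r, i, j, hr, hi, hj⟩ : Pt W) = ⟨r, i + 1, j + 1, hr, c1', c4'⟩ := by
      apply nx_eq
      show nxRaw W r i j = _
      rw [nx_cross c2' c1', ← hk, hsw]
    have hl : (shadow W hW).lf ⟨r, i, j, hr, hi, hj⟩ = true := by
      show decide (j = (row W r).w.getD i 0) = true
      simpa using hk
    rw [hn, hzk1, hfl]
    unfold out
    show (match D.st ⟨r, i, j, hr, hi, hj⟩ with
      | .pos => if (shadow W hW).lf ⟨r, i, j, hr, hi, hj⟩ = true then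
          yp hW s t D ξ ⟨r, i, j, hr, hi, hj⟩ + (1 - s ^ 2) * yp hW s t D ξ (op ⟨r, i, j, hr, hi, hj⟩)
          else s ^ 2 * yp hW s t D ξ ⟨r, i, j, hr, hi, hj⟩
      | .neg => if (shadow W hW).lf ⟨r, i, j, hr, hi, hj⟩ = true then
          t ^ 2 * yp hW s t D ξ ⟨r, i, j, hr, hi, hj⟩ else yp hW s t D ξ ⟨r, i, j, hr, hi, hj⟩ +
            (1 - t ^ 2) * yp hW s t D ξ (op ⟨r, i, j, hr, hi, hj⟩)
      | .smooth => yp hW s t D ξ (op ⟨r, i, j, hr, hi, hj⟩)) = _
    rw [ho, hyk, hyk1, if_pos hl, if_pos hl]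
    cases D.st ⟨r, i, j, hr, hi, hj⟩
    · simp [fl]
    · simp [fl]
    · rfl
  · subst h5
    have hn : nx (⟨r, i, k + 1, hr, hi, hj⟩ : Pt W) = ⟨r, i + 1, k, hr, c1', by omega⟩ := by
      apply nx_eq
      show nxRaw W r i (k + 1) = _
      rw [nx_cross c3' c1', ← hk, hsw']
    have hl : ¬ (shadow W hW).lf ⟨r, i, k + 1, hr, hi, hj⟩ = true := by
      show ¬ decide (k + 1 = (row W r).w.getD i 0) = true
      rw [← hk]
      simp
    have hst : D.st ⟨r, i, k + 1, hr, hi, hj⟩ = D.st ⟨r, i, k, hr, hi, by omega⟩ := by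
      have := D.st_op ⟨r, i, k, hr, hi, by omega⟩
      have h9 : (shadow W hW).op ⟨r, i, k, hr, hi, by omega⟩ = ⟨r, i, k + 1, hr, hi, hj⟩ := ho
      rw [h9] at this
      exact this
    have ho' : op (⟨r, i, k + 1, hr, hi, hj⟩ : Pt W) = ⟨r, i, k, hr, hi, by omega⟩ := by
      rw [← ho, op_op]
    rw [hn, hzk, hfl]
    unfold out
    show (match D.st ⟨r, i, k + 1, hr, hi, hj⟩ with
      | .pos => if (shadow W hW).lf ⟨r, i, k + 1, hr, hi, hj⟩ = true then
          yp hW s t D ξ ⟨r, i, k + 1, hr, hi, hj⟩ +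
            (1 - s ^ 2) * yp hW s t D ξ (op ⟨r, i, k + 1, hr, hi, hj⟩)
          else s ^ 2 * yp hW s t D ξ ⟨r, i, k + 1, hr, hi, hj⟩
      | .neg => if (shadow W hW).lf ⟨r, i, k + 1, hr, hi, hj⟩ = true then
          t ^ 2 * yp hW s t D ξ ⟨r, i, k + 1, hr, hi, hj⟩ else
            yp hW s t D ξ ⟨r, i, k + 1, hr, hi, hj⟩ +
            (1 - t ^ 2) * yp hW s t D ξ (op ⟨r, i, k + 1, hr, hi, hj⟩)
      | .smooth => yp hW s t D ξ (op ⟨r, i, k + 1, hr, hi, hj⟩)) = _
    rw [ho', hyk, hyk1, if_neg hl, if_neg hl, hst]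
    cases D.st ⟨r, i, k, hr, hi, _⟩
    · simp [fl]
    · simp [fl]
    · rfl

/-- `B` is the walk matrix of the shadow. -/
theorem sum_B (y : Pt W → R) (p : Pt W) :
    ∑ p', y p' * B (shadow W hW).nxt (shadow W hW).op (kd s t D) p' p =
      ∑ p', y p' * U (shadow W hW).op (kd s t D) p' ((shadow W hW).nxt.symm p) := rfl

theorem nx_symm (p : Pt W) : nx ((shadow W hW).nxt.symm p) = p :=
  (shadow W hW).nxt.apply_symm_apply p

include hW in
theorem not_cro {q : Pt W} (h : op q = q) (hi : q.i < (row W q.r).w.length)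
    (_ : dir W q.r q.j = true) :
    q.j ≠ (row W q.r).w.getD q.i 0 ∧ q.j ≠ (row W q.r).w.getD q.i 0 + 1 := by
  obtain ⟨h1, h2, h3⟩ := cr_facts hW q.hr hi
  have key : ∀ j', (j' = (row W q.r).w.getD q.i 0 ∨ j' = (row W q.r).w.getD q.i 0 + 1) →
      q.j ≠ j' := by
    intro j' h4 h5
    rw [← h5] at h4
    have hc : Cro q := ⟨hi, h2, h3, h1, h4⟩
    rw [op_of hc] at h
    have h6 : sw ((row W q.r).w.getD q.i 0) q.j = q.j := congrArg Pt.j h
    unfold sw at h6
    split_ifs at h6 <;> omega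
  exact ⟨key _ (Or.inl rfl), key _ (Or.inr rfl)⟩

/-- the conservation of mass away from the births -/
theorem yp_eq {p : Pt W} (hp : ∀ x, ¬ Bi p x) : yp hW s t D ξ p =
    ∑ p', yp hW s t D ξ p' * B (shadow W hW).nxt (shadow W hW).op (kd s t D) p' p := by
  rw [sum_B]
  obtain ⟨q, hq⟩ : ∃ q, q = (shadow W hW).nxt.symm p := ⟨_, rfl⟩
  have hn : nx q = p := by rw [hq]; exact nx_symm hW p
  rw [← hq]
  by_cases ho : op q = q
  · rw [sum_U_triv (G := shadow W hW) s t D _ ho, ← hn]
    rw [← hn] at hp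
    exact (step hW q).val _ _ _ _ hW (val_pt q) (val_pt (nx q)) (not_cro hW ho) hp
  · rw [sum_U_cross (G := shadow W hW) s t D _ ho, out_cross hW s t D ξ ho, hn]

/-- the mass which arrives at a birth -/
theorem yp_birth {p : Pt W} {x : ℕ} (hp : Bi p x) :
    ∑ p', yp hW s t D ξ p' * B (shadow W hW).nxt (shadow W hW).op (kd s t D) p' p =
      Q W (s ^ 2) (t ^ 2) (stat D) ξ x := by
  rw [sum_B]
  obtain ⟨q, hq⟩ : ∃ q, q = (shadow W hW).nxt.symm p := ⟨_, rfl⟩
  have hn : nx q = p := by rw [hq]; exact nx_symm hW p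
  rw [← hq]
  obtain ⟨h1, h2, k, d, h3, h4⟩ := hp
  rw [← hn] at h1 h2 h3 h4
  obtain ⟨h5, h6⟩ := (step hW q).birth (s ^ 2) (t ^ 2) (stat D) ξ hW h1 h3 h4 (nx q).hr
  rw [sum_U_triv (G := shadow W hW) s t D _ (op_up h5), ← h2]
  exact h6

/-- the mass at a birth -/
theorem yp_bi {p : Pt W} {x : ℕ} (hp : Bi p x) : yp hW s t D ξ p = ξ x := by
  have hd := hp.dir hW
  obtain ⟨r, i, j, hr, hi, hj⟩ := p
  obtain ⟨h1, h2, k, d, h3, h4⟩ := hp
  have h1' : i = 0 := h1
  subst h1'
  have h3' : (row W r).e = .mx k d := h3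
  have h4' : j = if d = true then k else k + 1 := h4
  have h2' : nb W r = x := h2
  show yv _ _ _ _ W r 0 j = ξ x
  rw [yv_dn _ _ _ _ hd, ← h2']
  show flowI W _ _ _ ξ 0 r 0 j = _
  rw [flowI_mx _ _ _ _ h3', h4']
  cases d with
  | true =>
    show ins k (ξ (nb W r)) 0 _ k = _
    exact ins_k _ _ _ _
  | false =>
    show ins k 0 (ξ (nb W r)) _ (k + 1) = _
    exact ins_k1 _ _ _ _

/-- a birth point -/
noncomputable def bp (x : Fin (maxima W)) : Pt W := (exists_bi hW x.2).choose

theorem bp_bi (x : Fin (maxima W)) : Bi (bp hW x) x := (exists_bi hW x.2).choose_spec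

theorem bp_inj : Function.Injective (bp hW) := by
  intro x x' h
  have h1 := bp_bi hW x
  have h2 := bp_bi hW x'
  rw [h] at h1
  ext
  rw [← h1.2.1, ← h2.2.1]

theorem not_bi {p : Pt W} (hp : ∀ x, bp hW x ≠ p) (x : ℕ) : ¬ Bi p x := by
  intro h
  have hx : x < maxima W := by
    obtain ⟨_, h2, k, d, h3, _⟩ := h
    rw [← h2]
    exact Pool.Agent.Helper59.EV2.nb_lt p.hr h3
  exact hp ⟨x, hx⟩ (Bi.unique (bp_bi hW ⟨x, hx⟩) h)

/-- the unit values -/
def eu (R : Type) [CommRing R] (x : ℕ) : ℕ → R := fun a => if a = x then 1 else 0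

/-- a step of the walk increases the time -/
theorem B_zero {p p' : Pt W} (hp' : ∀ x, bp hW x ≠ p')
    (hT : tim W p'.r p'.i p'.j ≤ tim W p.r p.i p.j) :
    B (shadow W hW).nxt (shadow W hW).op (kd s t D) p p' = 0 := by
  show U (shadow W hW).op (kd s t D) p ((shadow W hW).nxt.symm p') = 0
  obtain ⟨q, hq⟩ : ∃ q, q = (shadow W hW).nxt.symm p' := ⟨_, rfl⟩
  have hn : nx q = p' := by rw [hq]; exact nx_symm hW p'
  rw [← hq]
  have h1 : tim W q.r q.i q.j < tim W p'.r p'.i p'.j := by
    rw [← hn]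
    refine tim_step hW fun x => ?_
    rw [hn]
    exact not_bi hW hp' x
  refine Pool.Agent.Helper60.EV2.U_zero (G := shadow W hW) s t D ?_ ?_
  · rintro rfl
    omega
  · intro h2
    have h2' : p = op q := h2
    by_cases ho : op q = q
    · rw [ho] at h2'
      rw [h2'] at hT
      omega
    · have h3 : tim W (op q).r (op q).i (op q).j = tim W q.r q.i q.j := by
        have hc := cro_of_ne ho
        have hc' : Cro (op q) := by
          refine cro_of_ne ?_
          rw [op_op]
          exact Ne.symm ho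
        have hd : ∀ {q : Pt W}, Cro q → dir W q.r q.j = true := by
          rintro q ⟨_, c2, c3, _, c5⟩
          rcases c5 with c5 | c5
          · rw [c5]; exact c2
          · rw [c5]; exact c3
        unfold tim
        rw [if_pos (hd hc), if_pos (hd hc'), op_of hc]
      rw [h2', h3] at hT
      omega

open Matrix in
/-- **R6**: the elimination of the points which are not births. -/
theorem schur {b : Pt W} (hb : IsBase b) {R : Type} [CommRing R] (u : Rˣ) (D : Dg (shadow W hW)) :
    Pool.Agent.Helper60.EV2.W (shadow W hW).nxt (shadow W hW).op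
      (kd (u : R) ((u⁻¹ : Rˣ) : R) D) b =
      (1 - Qm W ((u : R) ^ 2) (((u⁻¹ : Rˣ) : R) ^ 2) (stat D)).det := by
  have hne : W ≠ [] := by
    rintro rfl
    exact absurd b.hr (by simp)
  obtain ⟨d0, hd0, hl0⟩ := first_row hW hne
  have h0 : 0 < W.length := List.length_pos_of_ne_nil hne
  have hm : 0 < maxima W := by
    have := Pool.Agent.Helper59.EV2.nb_lt h0 hd0
    omega
  -- the base is the birth 0
  have hbi : Bi b 0 := by
    obtain ⟨r, i, j, hr, hi, hj⟩ := b
    obtain ⟨hb1, hb2, hb3⟩ := hb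
    have hb1' : r = 0 := hb1
    have hb2' : i = 0 := hb2
    have hb3' : dir W 0 j = true := hb3
    subst hb1' hb2'
    refine ⟨rfl, rfl, 0, d0, hd0, ?_⟩
    show j = _
    have hlen : (lv W (0 + 1)).length = 2 := by
      rw [zero_add, hl0]
      rfl
    have hj' : j < 2 := by rw [← hlen]; exact hj
    unfold dir at hb3'
    rw [zero_add, hl0] at hb3'
    cases d0 with
    | true =>
      rw [if_pos rfl]
      by_contra h
      have : j = 1 := by omega
      subst this
      simp at hb3'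
    | false =>
      rw [if_neg (by simp)]
      by_contra h
      have : j = 0 := by omega
      subst this
      simp at hb3'
  have hbp : bp hW ⟨0, hm⟩ = b := Bi.unique (bp_bi hW ⟨0, hm⟩) hbi
  set s : R := (u : R) with hs
  set t : R := ((u⁻¹ : Rˣ) : R) with ht
  have key := Pool.Agent.Helper60.EV2.det_schur
    (B (shadow W hW).nxt (shadow W hW).op (kd s t D)) (bp hW) (bp_inj hW)
    (fun x p => yp hW s t D (eu R x) p)
    (fun x x' => by
      rw [yp_bi hW s t D _ (bp_bi hW x')]
      unfold eu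
      by_cases h : x = x'
      · rw [if_pos h, if_pos (by rw [h])]
      · rw [if_neg h, if_neg (fun h' => h (Fin.ext h'.symm))])
    (fun x p hp => yp_eq hW s t D _ (not_bi hW hp))
    (fun p => tim W p.r p.i p.j)
    (fun p p' _ hp' hT => B_zero hW s t D hp' hT) ⟨0, hm⟩
  rw [hbp] at key
  unfold Pool.Agent.Helper60.EV2.W
  rw [key]
  -- the matrix of the births
  set N : Matrix (Fin (maxima W)) (Fin (maxima W)) R :=
    Matrix.of fun i j => Q W (s ^ 2) (t ^ 2) (stat D) (eu R j) i with hN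
  have hQ : (Matrix.of fun x x' : Fin (maxima W) => ∑ p', yp hW s t D (eu R x) p' *
      B (shadow W hW).nxt (shadow W hW).op (kd s t D) p' (bp hW x')) = Nᵀ := by
    ext x x'
    show _ = Q W (s ^ 2) (t ^ 2) (stat D) (eu R x) x'
    exact yp_birth hW s t D _ (bp_bi hW x')
  rw [hQ]
  have h1 : (1 - Nᵀ + single (⟨0, hm⟩ : Fin (maxima W)) (⟨0, hm⟩ : Fin (maxima W)) (1 : R)).det =
      (1 - N + single (⟨0, hm⟩ : Fin (maxima W)) (⟨0, hm⟩ : Fin (maxima W)) (1 : R)).det := by
    rw [← det_transpose]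
    congr 1
    rw [transpose_add, transpose_sub, transpose_one, transpose_transpose, transpose_single]
  rw [h1, Pool.Agent.Helper60.Burau.det_add_single]
  -- conservation
  have hsum : ∀ j : Fin (maxima W), ∑ i : Fin (maxima W), N i j = 1 := by
    intro j
    have e1 : ∀ i : Fin (maxima W), N i j = ∑ p', yp hW s t D (eu R j) p' *
        B (shadow W hW).nxt (shadow W hW).op (kd s t D) p' (bp hW i) := fun i =>
      (yp_birth hW s t D _ (bp_bi hW i)).symm
    have e2 : ∑ i : Fin (maxima W), ((∑ p', yp hW s t D (eu R j) p' *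
        B (shadow W hW).nxt (shadow W hW).op (kd s t D) p' (bp hW i)) -
          yp hW s t D (eu R j) (bp hW i)) = ∑ p, ((∑ p', yp hW s t D (eu R j) p' *
        B (shadow W hW).nxt (shadow W hW).op (kd s t D) p' p) - yp hW s t D (eu R j) p) := by
      refine Fintype.sum_of_injective (bp hW) (bp_inj hW) _ _ ?_ (fun _ => rfl)
      intro p hp
      rw [← yp_eq hW s t D _ (not_bi hW fun x hx => hp ⟨x, hx⟩), sub_self]
    have e3 : ∑ p, ((∑ p', yp hW s t D (eu R j) p' *
        B (shadow W hW).nxt (shadow W hW).op (kd s t D) p' p) - yp hW s t D (eu R j) p) = 0 := by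
      rw [Finset.sum_sub_distrib, Finset.sum_comm]
      simp only [← Finset.mul_sum, Pool.Agent.Helper60.EV2.B_row_sum, mul_one, sub_self]
    have e4 : ∑ i : Fin (maxima W), yp hW s t D (eu R j) (bp hW i) = 1 := by
      rw [Finset.sum_congr rfl fun i _ => yp_bi hW s t D (eu R j) (bp_bi hW i)]
      rw [Finset.sum_eq_single j]
      · unfold eu
        rw [if_pos rfl]
      · intro i _ hi
        unfold eu
        rw [if_neg (fun h => hi (Fin.ext h))]
      · intro h
        exact absurd (Finset.mem_univ _) h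
    rw [e3, Finset.sum_sub_distrib, e4] at e2
    rw [Finset.sum_congr rfl fun i _ => e1 i]
    linear_combination e2
  have hdet : (1 - N).det = 0 := by
    rw [← det_transpose]
    refine Pool.Agent.Helper60.Burau.det_eq_zero_of_mulVec (u := 1) (i := ⟨0, hm⟩) rfl ?_
    funext j
    show ∑ i, (1 - N)ᵀ j i * 1 = 0
    simp only [mul_one, transpose_apply, Matrix.sub_apply, Finset.sum_sub_distrib, hsum]
    simp [one_apply]
  rw [hdet, zero_add, adjugate_apply]
  congr 1
  ext i j
  by_cases hi : i = ⟨0, hm⟩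
  · subst hi
    rw [updateRow_self]
    simp [Qm, Pi.single_apply, one_apply, eq_comm]
  · rw [updateRow_ne hi]
    have hi' : (i : ℕ) ≠ 0 := fun h => hi (Fin.ext h)
    simp only [Matrix.sub_apply, Qm, if_neg hi']
    rfl

end Elim

/-- **R7**: the formula for all statuses. -/
theorem form (hW : Ok W) (hne : W ≠ []) {nab : Dg (shadow W hW) → ℤ[X]}
    (h : Pool.Agent.Helper60.EV2.Cs nab) (D : Dg (shadow W hW)) {s : ℂ} (hs : s ≠ 0) :
    aeval (s⁻¹ - s) (nab D) = s ^ (w0 W - Pool.Agent.Helper60.EV2.wr D) *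
      (1 - Qm W (s ^ 2) (s⁻¹ ^ 2) (stat D)).det :=
  form_of hW hne h D hs fun hb u => schur hW hb u D

end Pool.Agent.Helper85.Rows
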