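import Mathlib

/-!
# EV2, positivity block: the state formula for link shadows

`P`: the passages (a finite set), `nxt`: the next passage, `op i`: the other passage of the crossing, `op i = i`: `i` is
a trivial passage (no crossing, for instance a crossing which was smoothed for ever, or a point on an edge).
`Cw z c b f`: the properties of the Conway polynomial which are used, for one base point `b`, for a function `f` with
values in a commutative ring (Conway polynomial: `ℤ[X]`, `z = X`, `c = 1`): the skein relation; for a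
diagram whose component of `b` is descending from `b` and lies above the other components the value is `c` if there are no
other components and `0` otherwise.
`expand`: `f D` is the sum of `c * z ^ |S|` over the ascending states `S`.
(Generalises `Pool.Agent.Helper76.PK.expand_ind`.)
-/

set_option autoImplicit false

namespace Pool.Agent.Helper85.Exp

open Polynomial Classical

/-- The status of a crossing. -/
inductive St
  | pos
  | neg
  | smooth
  deriving DecidableEq

/-- An oriented link shadow. -/
structure Sh (P : Type) where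
  nxt : Equiv.Perm P
  op : P → P
  op_op : ∀ i, op (op i) = i
  lf : P → Bool
  lf_op : ∀ i, op i ≠ i → lf (op i) = !lf i

/-- A diagram on the shadow `G`. -/
@[ext] structure Dg {P : Type} (G : Sh P) where
  st : P → St
  st_op : ∀ i, st (G.op i) = st i

variable {P : Type} {G : Sh P}

namespace Dg

/-- The passage `i` is an over passage. -/
def ovr (D : Dg G) (i : P) : Bool :=
  match D.st i with
  | .pos => !G.lf i
  | .neg => G.lf i
  | .smooth => false

/-- The passage at which one arrives after the passage `i`, travelling along the smoothed diagram. -/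
noncomputable def tr (D : Dg G) (i : P) : P := G.nxt (if D.st i = .smooth then G.op i else i)

/-- Change the status of the crossing of `i` to `t`. -/
noncomputable def upd (D : Dg G) (i : P) (t : St) : Dg G where
  st j := if j = i ∨ j = G.op i then t else D.st j
  st_op j := by
    have h1 : (G.op j = i ∨ G.op j = G.op i) ↔ (j = i ∨ j = G.op i) := by
      constructor
      · rintro (h | h)
        · right; rw [← h, G.op_op]
        · left; rw [← G.op_op j, h, G.op_op]
      · rintro (h | h)
        · right; rw [h]
        · left; rw [h, G.op_op]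
    simp only [h1, D.st_op]

/-- Smooth the crossings of the passages in `S`. -/
noncomputable def sm (D : Dg G) (S : Finset P) : Dg G where
  st j := if j ∈ S ∨ G.op j ∈ S then .smooth else D.st j
  st_op j := by
    have h1 : (G.op j ∈ S ∨ G.op (G.op j) ∈ S) ↔ (j ∈ S ∨ G.op j ∈ S) := by
      rw [G.op_op, or_comm]
    simp only [h1, D.st_op]

end Dg

/-- The component of `b` is descending from `b` and lies above the other components. -/
def Des (D : Dg G) (b : P) : Prop :=
  ∀ k : ℕ, D.st (D.tr^[k] b) ≠ .smooth → (∀ l ≤ k, D.tr^[l] b ≠ G.op (D.tr^[k] b)) →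
    D.ovr (D.tr^[k] b) = true

/-- The properties of the Conway polynomial which are used, for the base point `b`. -/
structure Cw {R : Type*} [CommRing R] (z c : R) (b : P) (f : Dg G → R) : Prop where
  skein : ∀ (D : Dg G) (i : P), G.op i ≠ i →
    f (D.upd i .pos) - f (D.upd i .neg) = z * f (D.upd i .smooth)
  knot : ∀ D : Dg G, (∀ i, ∃ k : ℕ, D.tr^[k] b = i) → Des D b → f D = c
  split : ∀ D : Dg G, (∃ i, ∀ k : ℕ, D.tr^[k] b ≠ i) → Des D b → f D = 0

/-- `S` is an ascending one-component state for the travel from `b`. -/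
def Asc (D : Dg G) (b : P) (S : Finset P) : Prop :=
  (∀ i, ∃ k : ℕ, (D.sm S).tr^[k] b = i) ∧
    ∀ i ∈ S, ∀ k : ℕ, (D.sm S).tr^[k] b = G.op i → ∃ l < k, (D.sm S).tr^[l] b = i

/-! ### Travelling -/

theorem op_inj (G : Sh P) : Function.Injective G.op :=
  Function.LeftInverse.injective G.op_op

theorem tr_inj (D : Dg G) : Function.Injective D.tr := by
  intro i j h
  have h1 := G.nxt.injective h
  by_cases hi : D.st i = .smooth
  · by_cases hj : D.st j = .smooth
    · rw [if_pos hi, if_pos hj] at h1
      exact op_inj G h1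
    · rw [if_pos hi, if_neg hj] at h1
      exfalso
      apply hj
      rw [← h1, D.st_op]
      exact hi
  · by_cases hj : D.st j = .smooth
    · rw [if_neg hi, if_pos hj] at h1
      exfalso
      apply hi
      rw [h1, D.st_op]
      exact hj
    · rw [if_neg hi, if_neg hj] at h1
      exact h1

theorem cancel (D : Dg G) (b : P) {l m : ℕ} (hlm : l ≤ m)
    (h : D.tr^[l] b = D.tr^[m] b) : D.tr^[m - l] b = b := by
  have h1 : m = l + (m - l) := by omega
  rw [h1, Function.iterate_add_apply] at h
  exact ((tr_inj D).iterate l h).symm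

theorem tr_period [Fintype P] (D : Dg G) (b : P) :
    ∃ n, 0 < n ∧ n ≤ Fintype.card P ∧ D.tr^[n] b = b := by
  obtain ⟨x, y, hxy, h⟩ := Fintype.exists_ne_map_eq_of_card_lt
    (fun k : Fin (Fintype.card P + 1) => D.tr^[k.val] b) (by simp)
  have h' : D.tr^[x.val] b = D.tr^[y.val] b := h
  have hx := x.isLt
  have hy := y.isLt
  have hne : x.val ≠ y.val := fun h1 => hxy (Fin.ext h1)
  rcases lt_or_gt_of_ne hne with h1 | h1
  · exact ⟨y.val - x.val, by omega, by omega, cancel D b h1.le h'⟩
  · exact ⟨x.val - y.val, by omega, by omega, cancel D b h1.le h'.symm⟩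

theorem iterate_ne (D : Dg G) (b : P) {k : ℕ} (h : ∀ l, 0 < l → l < k → D.tr^[l] b ≠ b)
    {l m : ℕ} (hlm : l < m) (hm : m < k) : D.tr^[l] b ≠ D.tr^[m] b := by
  intro h1
  exact h (m - l) (by omega) (by omega) (cancel D b hlm.le h1)

theorem closed_orbit (D : Dg G) (b : P) {k : ℕ} (hb : D.tr^[k] b = b) (m : ℕ) :
    D.tr^[m] b = D.tr^[m % k] b := by
  have h1 : ∀ q : ℕ, D.tr^[k * q] b = b := by
    intro q
    induction q with
    | zero => rfl
    | succ q ih => rw [Nat.mul_succ, Function.iterate_add_apply, hb, ih]
  conv_lhs => rw [← Nat.mod_add_div m k]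
  rw [Function.iterate_add_apply, h1]

theorem tr_congr (D D' : Dg G) (i : P)
    (h : D'.st i = .smooth ↔ D.st i = .smooth) : D'.tr i = D.tr i := by
  show G.nxt (if D'.st i = .smooth then G.op i else i) =
    G.nxt (if D.st i = .smooth then G.op i else i)
  by_cases h1 : D.st i = .smooth
  · rw [if_pos h1, if_pos (h.2 h1)]
  · rw [if_neg h1, if_neg (fun h2 => h1 (h.1 h2))]

theorem iterate_congr (D D' : Dg G) (b : P) (k : ℕ)
    (h : ∀ l < k, (D'.st (D.tr^[l] b) = .smooth ↔ D.st (D.tr^[l] b) = .smooth)) :
    ∀ l ≤ k, D'.tr^[l] b = D.tr^[l] b := by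
  intro l
  induction l with
  | zero => intro _; rfl
  | succ l ih =>
    intro hl
    rw [Function.iterate_succ_apply', Function.iterate_succ_apply', ih (by omega)]
    exact tr_congr D D' _ (h l (by omega))

theorem sm_st_mem (D : Dg G) (S : Finset P) (i : P) (h : i ∈ S ∨ G.op i ∈ S) :
    (D.sm S).st i = .smooth := if_pos h

theorem sm_st_not (D : Dg G) (S : Finset P) (i : P) (h : i ∉ S) (h' : G.op i ∉ S) :
    (D.sm S).st i = D.st i := if_neg (fun h1 => h1.elim h h')

theorem upd_st (D : Dg G) (i : P) (t : St) (j : P) (h : j = i ∨ j = G.op i) :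
    (D.upd i t).st j = t := if_pos h

theorem upd_st_ne (D : Dg G) (i : P) (t : St) (j : P) (h : j ≠ i) (h' : j ≠ G.op i) :
    (D.upd i t).st j = D.st j := if_neg (fun h1 => h1.elim h h')

theorem upd_self (D : Dg G) (i : P) : D.upd i (D.st i) = D := by
  apply Dg.ext
  funext j
  by_cases h : j = i ∨ j = G.op i
  · rw [upd_st D i _ j h]
    rcases h with h | h
    · rw [h]
    · rw [h, D.st_op]
  · push Not at h
    exact upd_st_ne D i _ j h.1 h.2

theorem sm_insert (D : Dg G) (S : Finset P) (i : P) :
    (D.upd i .smooth).sm S = D.sm (insert i S) := by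
  apply Dg.ext
  funext j
  by_cases h : j ∈ S ∨ G.op j ∈ S
  · rw [sm_st_mem _ S j h, sm_st_mem _ (insert i S) j
      (h.imp (Finset.mem_insert_of_mem) (Finset.mem_insert_of_mem))]
  · push Not at h
    rw [sm_st_not _ S j h.1 h.2]
    by_cases h2 : j = i ∨ j = G.op i
    · rw [upd_st _ i _ j h2, sm_st_mem _ (insert i S) j]
      rcases h2 with h2 | h2
      · left
        rw [h2]
        exact Finset.mem_insert_self i S
      · right
        rw [h2, G.op_op]
        exact Finset.mem_insert_self i S
    · push Not at h2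
      rw [upd_st_ne _ i _ j h2.1 h2.2, sm_st_not _ (insert i S) j]
      · rw [Finset.mem_insert, not_or]
        exact ⟨h2.1, h.1⟩
      · rw [Finset.mem_insert, not_or]
        refine ⟨fun h3 => h2.2 ?_, h.2⟩
        rw [← h3, G.op_op]

theorem sm_empty (D : Dg G) : D.sm ∅ = D := by
  ext j
  simp [Dg.sm]

/-! ### The expansion -/

/-- The passage `i` is the lower passage of a positive crossing. -/
def Low (D : Dg G) (i : P) : Prop := G.op i ≠ i ∧ G.lf i = true ∧ D.st i = .pos

/-- The lower passages of the positive crossings which are not visited before the time `k`. -/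
noncomputable def unv [Fintype P] (D : Dg G) (b : P) (k : ℕ) : Finset P :=
  Finset.univ.filter fun i => Low D i ∧ ∀ l < k, D.tr^[l] b ≠ i ∧ D.tr^[l] b ≠ G.op i

theorem mem_unv [Fintype P] {D : Dg G} {b : P} {k : ℕ} {i : P} :
    i ∈ unv D b k ↔ Low D i ∧ ∀ l < k, D.tr^[l] b ≠ i ∧ D.tr^[l] b ≠ G.op i := by
  simp [unv]

section Expand

variable [Fintype P]

theorem same (D : Dg G) (b : P) (k : ℕ) (S : Finset P) (hS : S ⊆ unv D b k) :
    ∀ l ≤ k, (D.sm S).tr^[l] b = D.tr^[l] b := by
  apply iterate_congr
  intro l hl
  have h1 : D.tr^[l] b ∉ S := fun h => ((mem_unv.1 (hS h)).2 l hl).1 rfl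
  have h2 : G.op (D.tr^[l] b) ∉ S := fun h =>
    ((mem_unv.1 (hS h)).2 l hl).2 (G.op_op _).symm
  rw [sm_st_not D S _ h1 h2]

theorem closed {R : Type*} [CommRing R] {z c : R} {f : Dg G → R} {b : P} (h : Cw z c b f) (k : ℕ) (D : Dg G)
    (hk : 0 < k) (hb : D.tr^[k] b = b)
    (H2 : ∀ l < k, D.st (D.tr^[l] b) = .smooth ∨ D.ovr (D.tr^[l] b) = true ∨
        ∃ l' ≤ l, D.tr^[l'] b = G.op (D.tr^[l] b)) :
    f D = ∑ S ∈ (unv D b k).powerset.filter (fun S => Asc D b S), c * z ^ S.card := by
  have hC : ∀ m, ∃ l < k, D.tr^[l] b = D.tr^[m] b := fun m =>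
    ⟨m % k, Nat.mod_lt _ hk, (closed_orbit D b hb m).symm⟩
  have hC' : ∀ m, ∃ l < k, l ≤ m ∧ D.tr^[l] b = D.tr^[m] b := fun m =>
    ⟨m % k, Nat.mod_lt _ hk, Nat.mod_le _ _, (closed_orbit D b hb m).symm⟩
  have hdes : Des D b := by
    intro m hm hm2
    obtain ⟨l, hl, hlm, hl2⟩ := hC' m
    rw [← hl2] at hm hm2 ⊢
    rcases H2 l hl with h4 | h4 | ⟨l', h4, h5⟩
    · exact absurd h4 hm
    · exact h4
    · exact absurd h5 (hm2 l' (h4.trans hlm))
  by_cases hall : ∀ i, ∃ l < k, D.tr^[l] b = i
  · have h1 : f D = c := by
      apply h.knot D ?_ hdes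
      intro i
      obtain ⟨l, _, hl⟩ := hall i
      exact ⟨l, hl⟩
    have h2 : unv D b k = ∅ := by
      rw [Finset.eq_empty_iff_forall_notMem]
      intro i hi
      obtain ⟨l, hl, hl2⟩ := hall i
      exact ((mem_unv.1 hi).2 l hl).1 hl2
    have h3 : Asc D b ∅ := by
      refine ⟨?_, by simp⟩
      rw [sm_empty]
      intro i
      obtain ⟨l, _, hl⟩ := hall i
      exact ⟨l, hl⟩
    rw [h1, h2, Finset.powerset_empty, Finset.filter_singleton, if_pos h3, Finset.sum_singleton,
      Finset.card_empty, pow_zero, mul_one]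
  · push Not at hall
    obtain ⟨i0, hi0⟩ := hall
    have h1 : f D = 0 := by
      apply h.split D ?_ hdes
      refine ⟨i0, fun m hm => ?_⟩
      obtain ⟨l, hl, hl2⟩ := hC m
      exact hi0 l hl (hl2.trans hm)
    rw [h1]
    symm
    apply Finset.sum_eq_zero
    intro S hS
    exfalso
    rw [Finset.mem_filter, Finset.mem_powerset] at hS
    obtain ⟨m, hm⟩ := hS.2.1 i0
    have h2 := same D b k S hS.1
    have h3 : (D.sm S).tr^[k] b = b := (h2 k le_rfl).trans hb
    rw [closed_orbit (D.sm S) b h3, h2 _ (Nat.mod_lt _ hk).le] at hm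
    exact hi0 _ (Nat.mod_lt _ hk) hm

omit [Fintype P] in
theorem sm_tr_congr (D D' : Dg G) (S : Finset P)
    (h : ∀ j, D'.st j = .smooth ↔ D.st j = .smooth) : (D'.sm S).tr = (D.sm S).tr := by
  funext j
  have h2 : (D'.sm S).st j = .smooth ↔ (D.sm S).st j = .smooth := by
    by_cases hj : j ∈ S ∨ G.op j ∈ S
    · rw [sm_st_mem D S j hj, sm_st_mem D' S j hj]
    · push Not at hj
      rw [sm_st_not D S j hj.1 hj.2, sm_st_not D' S j hj.1 hj.2]
      exact h j
  exact tr_congr _ _ _ h2

omit [Fintype P] in
theorem asc_congr (D D' : Dg G) (b : P) (S : Finset P)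
    (h : ∀ j, D'.st j = .smooth ↔ D.st j = .smooth) : Asc D' b S ↔ Asc D b S := by
  unfold Asc
  rw [sm_tr_congr D D' S h]

theorem expand_ind {R : Type*} [CommRing R] {z c : R} {f : Dg G → R} {b : P} (h : Cw z c b f) (n : ℕ) :
    ∀ (k : ℕ) (D : Dg G), k + n = Fintype.card P →
      (∀ l, 0 < l → l < k → D.tr^[l] b ≠ b) →
      (∀ l < k, D.st (D.tr^[l] b) = .smooth ∨ D.ovr (D.tr^[l] b) = true ∨
        ∃ l' ≤ l, D.tr^[l'] b = G.op (D.tr^[l] b)) →
      (∀ i, G.op i ≠ i → (∀ l < k, D.tr^[l] b ≠ i ∧ D.tr^[l] b ≠ G.op i) →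
        D.st i = .pos ∨ D.st i = .smooth) →
      f D = ∑ S ∈ (unv D b k).powerset.filter (fun S => Asc D b S), c * z ^ S.card := by
  induction n with
  | zero =>
    intro k D hkn H1 H2 H3
    obtain ⟨m, hm0, hmN, hmb⟩ := tr_period D b
    have hmk : m = k := by
      rcases lt_or_ge m k with h1 | h1
      · exact absurd hmb (H1 m hm0 h1)
      · omega
    subst hmk
    exact closed h m D hm0 hmb H2
  | succ n ih =>
    intro k D hkn H1 H2 H3
    by_cases hcl : 0 < k ∧ D.tr^[k] b = b
    · exact closed h k D hcl.1 hcl.2 H2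
    have H1' : ∀ l, 0 < l → l < k + 1 → D.tr^[l] b ≠ b := by
      intro l hl0 hl
      rcases Nat.lt_succ_iff_lt_or_eq.1 hl with h1 | h1
      · exact H1 l hl0 h1
      · subst h1
        exact fun h2 => hcl ⟨hl0, h2⟩
    have hne : ∀ l < k, D.tr^[l] b ≠ D.tr^[k] b := fun l hl =>
      iterate_ne D b H1' hl (Nat.lt_succ_self k)
    by_cases hA : D.st (D.tr^[k] b) = .smooth ∨ D.ovr (D.tr^[k] b) = true ∨
        ∃ l' ≤ k, D.tr^[l'] b = G.op (D.tr^[k] b)
    · rw [ih (k + 1) D (by omega) H1' (by
        intro l hl
        rcases Nat.lt_succ_iff_lt_or_eq.1 hl with h1 | h1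
        · exact H2 l h1
        · subst h1
          exact hA) (fun i hi0 hi => H3 i hi0 fun l hl => hi l (by omega))]
      apply Finset.sum_subset
      · intro S hS
        rw [Finset.mem_filter, Finset.mem_powerset] at hS ⊢
        refine ⟨fun j hj => ?_, hS.2⟩
        have h1 := mem_unv.1 (hS.1 hj)
        exact mem_unv.2 ⟨h1.1, fun l hl => h1.2 l (by omega)⟩
      · intro S hS hS'
        exfalso
        apply hS'
        rw [Finset.mem_filter, Finset.mem_powerset] at hS ⊢
        refine ⟨fun j hj => ?_, hS.2⟩
        have h1 := mem_unv.1 (hS.1 hj)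
        refine mem_unv.2 ⟨h1.1, fun l hl => ?_⟩
        rcases Nat.lt_succ_iff_lt_or_eq.1 hl with h2 | h2
        · exact h1.2 l h2
        · subst h2
          obtain ⟨hop, hlf, hpos⟩ := h1.1
          constructor
          · intro h3
            rw [h3] at hA
            rcases hA with h4 | h4 | ⟨l', h4, h5⟩
            · rw [hpos] at h4
              cases h4
            · unfold Dg.ovr at h4
              rw [hpos] at h4
              simp [hlf] at h4
            · rcases h4.lt_or_eq with h6 | h6
              · exact (h1.2 l' h6).2 h5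
              · rw [h6, h3] at h5
                exact hop h5.symm
          · intro h3
            have h4 := same D b l S hS.1
            obtain ⟨m, hm, hm2⟩ := hS.2.2 j hj l ((h4 l le_rfl).trans h3)
            rw [h4 m hm.le] at hm2
            exact (h1.2 m hm).1 hm2
    · push Not at hA
      obtain ⟨hA1, hA2, hA3⟩ := hA
      set i := D.tr^[k] b with hi
      have hop : G.op i ≠ i := fun h1 => hA3 k le_rfl (by rw [h1])
      have hun : ∀ l < k, D.tr^[l] b ≠ i ∧ D.tr^[l] b ≠ G.op i :=
        fun l hl => ⟨hne l hl, hA3 l hl.le⟩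
      have hpos : D.st i = .pos := (H3 i hop hun).resolve_right hA1
      have hlf : G.lf i = true := by
        unfold Dg.ovr at hA2
        rw [hpos] at hA2
        simpa using hA2
      have hiU : i ∈ unv D b k := mem_unv.2 ⟨⟨hop, hlf, hpos⟩, hun⟩
      have hsk := h.skein D i hop
      have hself : D.upd i .pos = D := by
        have := upd_self D i
        rwa [hpos] at this
      rw [hself] at hsk
      have hst : ∀ t, ∀ l < k, (D.upd i t).st (D.tr^[l] b) = D.st (D.tr^[l] b) := fun t l hl =>
        upd_st_ne D i t _ (hun l hl).1 (hun l hl).2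
      have htr : ∀ t, ∀ l ≤ k, (D.upd i t).tr^[l] b = D.tr^[l] b := fun t =>
        iterate_congr D (D.upd i t) b k fun l hl => by rw [hst t l hl]
      have key : ∀ t, (t = .smooth ∨ t = .neg) → f (D.upd i t) =
          ∑ S ∈ ((unv D b k).erase i).powerset.filter (fun S => Asc (D.upd i t) b S),
            c * z ^ S.card := by
        intro t ht
        have hU : unv (D.upd i t) b (k + 1) = (unv D b k).erase i := by
          ext j
          rw [Finset.mem_erase, mem_unv, mem_unv]
          constructor
          · rintro ⟨h1, h2⟩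
            have h3 : j ≠ i := by
              intro h3
              have h4 := (h2 k (Nat.lt_succ_self k)).1
              rw [htr t k le_rfl] at h4
              exact h4 h3.symm
            have h3' : j ≠ G.op i := by
              intro h3'
              have h4 := (h2 k (Nat.lt_succ_self k)).2
              rw [htr t k le_rfl, h3', G.op_op] at h4
              exact h4 rfl
            refine ⟨h3, ⟨h1.1, h1.2.1, ?_⟩, fun l hl => ?_⟩
            · have := h1.2.2
              rwa [upd_st_ne D i t j h3 h3'] at this
            · have h4 := h2 l (by omega)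
              rwa [htr t l hl.le] at h4
          · rintro ⟨h1, h2, h3⟩
            have h1' : j ≠ G.op i := by
              intro h5
              have h7 := G.lf_op i hop
              rw [← h5, h2.2.1, hlf] at h7
              simp at h7
            refine ⟨⟨h2.1, h2.2.1, ?_⟩, fun l hl => ?_⟩
            · rw [upd_st_ne D i t j h1 h1']
              exact h2.2.2
            rw [htr t l (by omega)]
            rcases Nat.lt_succ_iff_lt_or_eq.1 hl with h4 | h4
            · exact h3 l h4
            · subst h4
              refine ⟨fun h5 => h1 h5.symm, fun h5 => h1' ?_⟩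
              change i = G.op j at h5
              rw [h5, G.op_op]
        rw [← hU]
        apply ih (k + 1) (D.upd i t) (by omega)
        · intro l hl0 hl
          rw [htr t l (by omega)]
          exact H1' l hl0 hl
        · intro l hl
          rw [htr t l (by omega)]
          rcases Nat.lt_succ_iff_lt_or_eq.1 hl with h4 | h4
          · have h5 : (D.upd i t).ovr (D.tr^[l] b) = D.ovr (D.tr^[l] b) := by
              unfold Dg.ovr
              rw [hst t l h4]
            rw [hst t l h4, h5]
            rcases H2 l h4 with h6 | h6 | ⟨l', h6, h7⟩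
            · exact Or.inl h6
            · exact Or.inr (Or.inl h6)
            · exact Or.inr (Or.inr ⟨l', h6, by rw [htr t l' (by omega)]; exact h7⟩)
          · subst h4
            have h5 : (D.upd i t).st i = t := upd_st D i t i (Or.inl rfl)
            rcases ht with rfl | rfl
            · exact Or.inl h5
            · refine Or.inr (Or.inl ?_)
              unfold Dg.ovr
              change (match (D.upd i .neg).st i with
                | .pos => !G.lf i
                | .neg => G.lf i
                | .smooth => false) = true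
              rw [h5]
              exact hlf
        · intro j hj0 hj
          have h5 : j ≠ i := by
            intro h6
            have h7 := (hj k (Nat.lt_succ_self k)).1
            rw [htr t k le_rfl] at h7
            exact h7 h6.symm
          have h6 : j ≠ G.op i := by
            intro h6
            have h7 := (hj k (Nat.lt_succ_self k)).2
            rw [htr t k le_rfl, h6, G.op_op] at h7
            exact h7 rfl
          rw [upd_st_ne D i t j h5 h6]
          apply H3 j hj0
          intro l hl
          have h7 := hj l (by omega)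
          rwa [htr t l hl.le] at h7
      have e1 := key .smooth (Or.inl rfl)
      have e2 := key .neg (Or.inr rfl)
      have e3 : f D = f (D.upd i .neg) + z * f (D.upd i .smooth) := by
        rw [← hsk]
        ring
      have hins : insert i ((unv D b k).erase i) = unv D b k := Finset.insert_erase hiU
      have a1 : ∀ S : Finset P, Asc (D.upd i .neg) b S ↔ Asc D b S := by
        intro S
        apply asc_congr
        intro j
        by_cases hj : j = i ∨ j = G.op i
        · rw [upd_st D i .neg j hj]
          have h5 : D.st j = .pos := by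
            rcases hj with rfl | rfl
            · exact hpos
            · rw [D.st_op]
              exact hpos
          rw [h5]
          simp
        · push Not at hj
          rw [upd_st_ne D i .neg j hj.1 hj.2]
      have a2 : ∀ S ∈ ((unv D b k).erase i).powerset,
          (Asc (D.upd i .smooth) b S ↔ Asc D b (insert i S)) := by
        intro S hS
        rw [Finset.mem_powerset] at hS
        have hS2 : insert i S ⊆ unv D b k := by
          rw [← hins]
          exact Finset.insert_subset_insert i hS
        have h5 := same D b k (insert i S) hS2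
        unfold Asc
        rw [sm_insert]
        constructor
        · rintro ⟨b1, b2⟩
          refine ⟨b1, fun j hj m hm => ?_⟩
          rcases Finset.mem_insert.1 hj with rfl | hj'
          · refine ⟨k, ?_, h5 k le_rfl⟩
            by_contra hkm
            push Not at hkm
            rw [h5 m hkm] at hm
            rcases hkm.lt_or_eq with h6 | h6
            · exact (hun m h6).2 hm
            · rw [h6] at hm
              exact hop hm.symm
          · exact b2 j hj' m hm
        · rintro ⟨b1, b2⟩
          exact ⟨b1, fun j hj m hm => b2 j (Finset.mem_insert_of_mem hj) m hm⟩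
      rw [e3, e1, e2, Finset.sum_filter, Finset.sum_filter, Finset.sum_filter]
      conv_rhs => rw [← hins]
      rw [Finset.sum_powerset_insert (Finset.notMem_erase i _), Finset.mul_sum]
      congr 1
      · apply Finset.sum_congr rfl
        intro S _
        rw [if_congr (a1 S) rfl rfl]
      · apply Finset.sum_congr rfl
        intro S hS
        have h6 : i ∉ S := fun h7 => Finset.notMem_erase i _ (Finset.mem_powerset.1 hS h7)
        rw [if_congr (a2 S hS) rfl rfl, Finset.card_insert_of_notMem h6]
        split_ifs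
        · ring
        · ring

/-- **The state formula** for a diagram without negative crossings -/
theorem expand {R : Type*} [CommRing R] {z c : R} {f : Dg G → R} {b : P} (h : Cw z c b f) (D : Dg G)
    (hD : ∀ i, G.op i ≠ i → D.st i = .pos ∨ D.st i = .smooth) :
    f D = ∑ S ∈ (unv D b 0).powerset.filter (fun S => Asc D b S), c * z ^ S.card :=
  expand_ind h _ 0 D (Nat.zero_add _) (fun l _ hl => absurd hl (by omega))
    (fun l hl => absurd hl (by omega)) (fun i hi _ => hD i hi)

/-- **The state formula** for a diagram with at most one negative crossing, seen from its over passage `b` -/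
theorem expand_neg {R : Type*} [CommRing R] {z c : R} {f : Dg G → R} {b : P} (h : Cw z c b f) (D : Dg G)
    (hb : D.ovr b = true)
    (hD : ∀ i, G.op i ≠ i → i ≠ b → i ≠ G.op b → D.st i = .pos ∨ D.st i = .smooth) :
    f D = ∑ S ∈ (unv D b 1).powerset.filter (fun S => Asc D b S), c * z ^ S.card := by
  have hc : 1 ≤ Fintype.card P := Fintype.card_pos_iff.2 ⟨b⟩
  refine expand_ind h (Fintype.card P - 1) 1 D (by omega) (fun l hl hl' => absurd hl' (by omega))
    ?_ ?_
  · intro l hl
    have : l = 0 := by omega
    subst this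
    exact Or.inr (Or.inl hb)
  · intro i hi hl
    have h1 := hl 0 (by omega)
    refine hD i hi (fun h2 => h1.1 h2.symm) (fun h2 => h1.2 ?_)
    rw [h2, G.op_op]
    rfl

/-! ### Uniqueness -/

omit [Fintype P] in
theorem Cw.map {R S : Type*} [CommRing R] [CommRing S] {z c : R} {b : P} {f : Dg G → R}
    (h : Cw z c b f) (φ : R →+* S) : Cw (φ z) (φ c) b (fun D => φ (f D)) where
  skein D i hi := by rw [← map_sub, h.skein D i hi, map_mul]
  knot D h1 h2 := by rw [h.knot D h1 h2]
  split D h1 h2 := by rw [h.split D h1 h2, map_zero]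

omit [Fintype P] in
theorem Cw.mul {R : Type*} [CommRing R] {z c : R} {b : P} {f : Dg G → R}
    (h : Cw z c b f) (a : R) : Cw z (a * c) b (fun D => a * f D) where
  skein D i hi := by
    rw [← mul_sub, h.skein D i hi]
    ring
  knot D h1 h2 := by rw [h.knot D h1 h2]
  split D h1 h2 := by rw [h.split D h1 h2, mul_zero]

/-- the value of a diagram with a closed good travel -/
theorem closed_val {R : Type*} [CommRing R] {z c : R} {f : Dg G → R} {b : P} (h : Cw z c b f)
    (k : ℕ) (D : Dg G) (hk : 0 < k) (hb : D.tr^[k] b = b)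
    (H2 : ∀ l < k, D.st (D.tr^[l] b) = .smooth ∨ D.ovr (D.tr^[l] b) = true ∨
        ∃ l' ≤ l, D.tr^[l'] b = G.op (D.tr^[l] b)) :
    f D = if ∀ i, ∃ k : ℕ, D.tr^[k] b = i then c else 0 := by
  have hC' : ∀ m, ∃ l < k, l ≤ m ∧ D.tr^[l] b = D.tr^[m] b := fun m =>
    ⟨m % k, Nat.mod_lt _ hk, Nat.mod_le _ _, (closed_orbit D b hb m).symm⟩
  have hdes : Des D b := by
    intro m hm hm2
    obtain ⟨l, hl, hlm, hl2⟩ := hC' m
    rw [← hl2] at hm hm2 ⊢
    rcases H2 l hl with h4 | h4 | ⟨l', h4, h5⟩
    · exact absurd h4 hm
    · exact h4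
    · exact absurd h5 (hm2 l' (h4.trans hlm))
  by_cases hall : ∀ i, ∃ k : ℕ, D.tr^[k] b = i
  · rw [if_pos hall]
    exact h.knot D hall hdes
  · rw [if_neg hall]
    push Not at hall
    exact h.split D hall hdes

theorem unique_ind {R : Type*} [CommRing R] {z c : R} {f g : Dg G → R} {b : P}
    (h : Cw z c b f) (h' : Cw z c b g) (n : ℕ) :
    ∀ (k : ℕ) (D : Dg G), k + n = Fintype.card P →
      (∀ l, 0 < l → l < k → D.tr^[l] b ≠ b) →
      (∀ l < k, D.st (D.tr^[l] b) = .smooth ∨ D.ovr (D.tr^[l] b) = true ∨
        ∃ l' ≤ l, D.tr^[l'] b = G.op (D.tr^[l] b)) →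
      f D = g D := by
  induction n with
  | zero =>
    intro k D hkn H1 H2
    obtain ⟨m, hm0, hmN, hmb⟩ := tr_period D b
    have hmk : m = k := by
      rcases lt_or_ge m k with h1 | h1
      · exact absurd hmb (H1 m hm0 h1)
      · omega
    subst hmk
    rw [closed_val h m D hm0 hmb H2, closed_val h' m D hm0 hmb H2]
  | succ n ih =>
    intro k D hkn H1 H2
    by_cases hcl : 0 < k ∧ D.tr^[k] b = b
    · rw [closed_val h k D hcl.1 hcl.2 H2, closed_val h' k D hcl.1 hcl.2 H2]
    have H1' : ∀ l, 0 < l → l < k + 1 → D.tr^[l] b ≠ b := by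
      intro l hl0 hl
      rcases Nat.lt_succ_iff_lt_or_eq.1 hl with h1 | h1
      · exact H1 l hl0 h1
      · subst h1
        exact fun h2 => hcl ⟨hl0, h2⟩
    have hne : ∀ l < k, D.tr^[l] b ≠ D.tr^[k] b := fun l hl =>
      iterate_ne D b H1' hl (Nat.lt_succ_self k)
    by_cases hA : D.st (D.tr^[k] b) = .smooth ∨ D.ovr (D.tr^[k] b) = true ∨
        ∃ l' ≤ k, D.tr^[l'] b = G.op (D.tr^[k] b)
    · refine ih (k + 1) D (by omega) H1' ?_
      intro l hl
      rcases Nat.lt_succ_iff_lt_or_eq.1 hl with h1 | h1
      · exact H2 l h1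
      · subst h1
        exact hA
    · push Not at hA
      obtain ⟨hA1, hA2, hA3⟩ := hA
      set i := D.tr^[k] b with hi
      have hop : G.op i ≠ i := fun h1 => hA3 k le_rfl (by rw [h1])
      have hun : ∀ l < k, D.tr^[l] b ≠ i ∧ D.tr^[l] b ≠ G.op i :=
        fun l hl => ⟨hne l hl, hA3 l hl.le⟩
      have hst : ∀ t, ∀ l < k, (D.upd i t).st (D.tr^[l] b) = D.st (D.tr^[l] b) := fun t l hl =>
        upd_st_ne D i t _ (hun l hl).1 (hun l hl).2
      have htr : ∀ t, ∀ l ≤ k, (D.upd i t).tr^[l] b = D.tr^[l] b := fun t =>
        iterate_congr D (D.upd i t) b k fun l hl => by rw [hst t l hl]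
      have key : ∀ t, (t = .smooth ∨ (D.upd i t).ovr i = true) →
          f (D.upd i t) = g (D.upd i t) := by
        intro t ht
        apply ih (k + 1) (D.upd i t) (by omega)
        · intro l hl0 hl
          rw [htr t l (by omega)]
          exact H1' l hl0 hl
        · intro l hl
          rw [htr t l (by omega)]
          rcases Nat.lt_succ_iff_lt_or_eq.1 hl with h4 | h4
          · have h5 : (D.upd i t).ovr (D.tr^[l] b) = D.ovr (D.tr^[l] b) := by
              unfold Dg.ovr
              rw [hst t l h4]
            rw [hst t l h4, h5]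
            rcases H2 l h4 with h6 | h6 | ⟨l', h6, h7⟩
            · exact Or.inl h6
            · exact Or.inr (Or.inl h6)
            · exact Or.inr (Or.inr ⟨l', h6, by rw [htr t l' (by omega)]; exact h7⟩)
          · subst h4
            have h5 : (D.upd i t).st i = t := upd_st D i t i (Or.inl rfl)
            rcases ht with rfl | ht
            · exact Or.inl h5
            · exact Or.inr (Or.inl ht)
      have e1 := key .smooth (Or.inl rfl)
      have s1 := h.skein D i hop
      have s2 := h'.skein D i hop
      have hself := upd_self D i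
      cases hs : D.st i with
      | smooth => exact absurd hs hA1
      | pos =>
        rw [hs] at hself
        have hlf : G.lf i = true := by
          unfold Dg.ovr at hA2
          rw [hs] at hA2
          simpa using hA2
        have e2 := key .neg (Or.inr (by
          unfold Dg.ovr
          rw [upd_st D i .neg i (Or.inl rfl)]
          exact hlf))
        rw [hself] at s1 s2
        rw [eq_add_of_sub_eq s1, eq_add_of_sub_eq s2, e1, e2]
      | neg =>
        rw [hs] at hself
        have hlf : G.lf i = false := by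
          unfold Dg.ovr at hA2
          rw [hs] at hA2
          simpa using hA2
        have e2 := key .pos (Or.inr (by
          unfold Dg.ovr
          rw [upd_st D i .pos i (Or.inl rfl)]
          simp [hlf]))
        rw [hself] at s1 s2
        have s1' : f D = f (D.upd i .pos) - z * f (D.upd i .smooth) := by
          rw [← s1]
          ring
        have s2' : g D = g (D.upd i .pos) - z * g (D.upd i .smooth) := by
          rw [← s2]
          ring
        rw [s1', s2', e1, e2]

/-- **Uniqueness** -/
theorem Cw.unique {R : Type*} [CommRing R] {z c : R} {f g : Dg G → R} {b : P}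
    (h : Cw z c b f) (h' : Cw z c b g) (D : Dg G) : f D = g D :=
  unique_ind h h' _ 0 D (Nat.zero_add _) (fun l _ hl => absurd hl (by omega))
    (fun l hl => absurd hl (by omega))

/-- the values of the Conway polynomial -/
theorem Cw.aeval {R : Type*} [CommRing R] {z c : R} {f : Dg G → R} {nab : Dg G → ℤ[X]} {b : P}
    (h : Cw X 1 b nab) (h' : Cw z c b f) (D : Dg G) : f D = c * Polynomial.aeval z (nab D) := by
  have h1 := h.map (Polynomial.aeval (R := ℤ) z).toRingHom
  have h2 := h1.mul c
  simp only [AlgHom.toRingHom_eq_coe, RingHom.coe_coe, aeval_X, map_one, mul_one] at h2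
  exact h'.unique h2 D

/-! ### Consequences -/

theorem coeff_expand {nab : Dg G → ℤ[X]} {b : P} (h : Cw X 1 b nab) (D : Dg G)
    (hD : ∀ i, G.op i ≠ i → D.st i = .pos ∨ D.st i = .smooth) (m : ℕ) :
    (nab D).coeff m = (((unv D b 0).powersetCard m).filter fun S => Asc D b S).card := by
  rw [expand h D hD, Polynomial.finsetSum_coeff]
  simp only [one_mul, Polynomial.coeff_X_pow]
  rw [Finset.sum_boole]
  congr 2
  ext S
  simp only [Finset.mem_filter, Finset.mem_powerset, Finset.mem_powersetCard]
  constructor
  · rintro ⟨⟨h3, h4⟩, h5⟩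
    exact ⟨⟨h3, h5.symm⟩, h4⟩
  · rintro ⟨⟨h3, h5⟩, h4⟩
    exact ⟨⟨h3, h4⟩, h5.symm⟩

/-- **Positivity** -/
theorem coeff_nonneg {nab : Dg G → ℤ[X]} {b : P} (h : Cw X 1 b nab) (D : Dg G)
    (hD : ∀ i, G.op i ≠ i → D.st i = .pos ∨ D.st i = .smooth) (m : ℕ) :
    0 ≤ (nab D).coeff m := by
  rw [coeff_expand h D hD m]
  exact Int.natCast_nonneg _

/-- **Positivity** for one negative crossing with the over passage `b` -/
theorem coeff_neg_nonneg {nab : Dg G → ℤ[X]} {b : P} (h : Cw X 1 b nab) (D : Dg G)
    (hb : D.ovr b = true)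
    (hD : ∀ i, G.op i ≠ i → i ≠ b → i ≠ G.op b → D.st i = .pos ∨ D.st i = .smooth) (m : ℕ) :
    0 ≤ (nab D).coeff m := by
  rw [expand_neg h D hb hD, Polynomial.finsetSum_coeff]
  refine Finset.sum_nonneg fun S _ => ?_
  rw [one_mul, Polynomial.coeff_X_pow]
  split_ifs <;> norm_num

/-- **Monotonicity**: `D` has only positive and smoothed crossings, `i` is a positive crossing, its over passage in the
diagram with the negative crossing is `b` (`G.lf b = true`): the coefficients of `nab D` are at least those of `X` times
the polynomial of the smoothed diagram. -/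
theorem coeff_mono {nab : Dg G → ℤ[X]} {b : P} (h : Cw X 1 b nab) (D : Dg G)
    (hD : ∀ i, G.op i ≠ i → D.st i = .pos ∨ D.st i = .smooth) (hop : G.op b ≠ b)
    (hlf : G.lf b = true) (hst : D.st b = .pos) (m : ℕ) :
    (X * nab (D.upd b .smooth)).coeff m ≤ (nab D).coeff m := by
  have h1 := h.skein D b hop
  have h2 : D.upd b .pos = D := by
    have := upd_self D b
    rwa [hst] at this
  rw [h2] at h1
  have h3 := coeff_neg_nonneg h (D.upd b .neg) (by
    unfold Dg.ovr
    rw [upd_st D b .neg b (Or.inl rfl)]
    exact hlf) (fun i hi h4 h5 => by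
      rw [upd_st_ne D b .neg i h4 h5]
      exact hD i hi) m
  rw [← h1, coeff_sub]
  linarith

/-- The degree is at most the number of positive crossings. -/
theorem coeff_eq_zero {nab : Dg G → ℤ[X]} {b : P} (h : Cw X 1 b nab) (D : Dg G)
    (hD : ∀ i, G.op i ≠ i → D.st i = .pos ∨ D.st i = .smooth) {m : ℕ}
    (hm : (unv D b 0).card < m) : (nab D).coeff m = 0 := by
  rw [coeff_expand h D hD m, Finset.powersetCard_eq_empty.2 hm]
  simp

end Expand

/-! ### Parity -/

section Parity

variable [Fintype P]

/-- The involution of the smoothed crossings. -/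
noncomputable def inv (D : Dg G) : Equiv.Perm P where
  toFun i := if D.st i = .smooth then G.op i else i
  invFun i := if D.st i = .smooth then G.op i else i
  left_inv i := by
    by_cases h : D.st i = .smooth
    · have h1 : D.st (G.op i) = .smooth := by rw [D.st_op, h]
      simp only [if_pos h, if_pos h1, G.op_op]
    · simp only [if_neg h]
  right_inv i := by
    by_cases h : D.st i = .smooth
    · have h1 : D.st (G.op i) = .smooth := by rw [D.st_op, h]
      simp only [if_pos h, if_pos h1, G.op_op]
    · simp only [if_neg h]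

/-- The travel as a permutation. -/
noncomputable def trp (D : Dg G) : Equiv.Perm P := G.nxt * inv D

omit [Fintype P] in
theorem trp_apply (D : Dg G) (i : P) : trp D i = D.tr i := rfl

omit [Fintype P] in
theorem trp_pow (D : Dg G) (k : ℕ) (i : P) : (trp D ^ k) i = D.tr^[k] i := by
  induction k with
  | zero => rfl
  | succ k ih =>
    rw [pow_succ', Equiv.Perm.mul_apply, ih, trp_apply, Function.iterate_succ_apply']

omit [Fintype P] in
theorem inv_upd (D : Dg G) (i : P) (h : D.st i ≠ .smooth) :
    inv (D.upd i .smooth) = inv D * Equiv.swap i (G.op i) := by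
  ext j
  rw [Equiv.Perm.mul_apply]
  show (if (D.upd i .smooth).st j = .smooth then G.op j else j) =
    (if D.st (Equiv.swap i (G.op i) j) = .smooth then G.op (Equiv.swap i (G.op i) j)
      else Equiv.swap i (G.op i) j)
  have h' : D.st (G.op i) ≠ .smooth := by rw [D.st_op]; exact h
  by_cases h1 : j = i
  · subst h1
    rw [upd_st D j _ j (Or.inl rfl), if_pos rfl, Equiv.swap_apply_left, if_neg h']
  · by_cases h2 : j = G.op i
    · subst h2
      rw [upd_st D i _ _ (Or.inr rfl), if_pos rfl, Equiv.swap_apply_right, if_neg h, G.op_op]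
    · rw [upd_st_ne D i _ j h1 h2, Equiv.swap_apply_of_ne_of_ne h1 h2]

/-- a permutation with one orbit has the sign `(-1) ^ (card - 1)` -/
theorem sign_of_orbit (f : Equiv.Perm P) (b : P) (h : ∀ i, ∃ k : ℕ, (f ^ k) b = i) :
    (Equiv.Perm.sign f : ℤˣ) = (-1) ^ (Fintype.card P - 1) := by
  by_cases h1 : f b = b
  · have h2 : ∀ i, i = b := by
      intro i
      obtain ⟨k, hk⟩ := h i
      rw [← hk]
      exact Equiv.Perm.pow_apply_eq_self_of_apply_eq_self h1 k
    have h3 : Fintype.card P = 1 := Fintype.card_eq_one_iff.2 ⟨b, h2⟩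
    have h4 : f = 1 := by
      ext i
      rw [h2 (f i), h2 ((1 : Equiv.Perm P) i)]
    rw [h3, h4]
    simp
  · have hc : f.IsCycle := by
      refine ⟨b, h1, fun y _ => ?_⟩
      obtain ⟨k, hk⟩ := h y
      exact ⟨k, by simpa using hk⟩
    have hs : f.support = Finset.univ := by
      rw [Finset.eq_univ_iff_forall]
      intro i
      obtain ⟨k, hk⟩ := h i
      rw [← hk, Equiv.Perm.pow_apply_mem_support]
      exact Equiv.Perm.mem_support.2 h1
    rw [hc.sign, hs, Finset.card_univ]
    have h5 : 1 ≤ Fintype.card P := Fintype.card_pos_iff.2 ⟨b⟩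
    obtain ⟨c, hc⟩ := Nat.exists_eq_add_of_le' h5
    rw [hc, Nat.add_sub_cancel, pow_succ]
    simp

/-- the sign of the travel permutation after smoothing `S` -/
theorem sign_sm (D : Dg G) (S : Finset P) (hS : ∀ i ∈ S, Low D i) :
    Equiv.Perm.sign (trp (D.sm S)) = Equiv.Perm.sign (trp D) * (-1) ^ S.card := by
  induction S using Finset.induction_on with
  | empty => rw [sm_empty, Finset.card_empty, pow_zero, mul_one]
  | insert i S hi ih =>
    have h1 := hS i (Finset.mem_insert_self i S)
    have h2 := ih fun j hj => hS j (Finset.mem_insert_of_mem hj)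
    have h3 : G.op i ∉ S := by
      intro h3
      have h4 := (hS _ (Finset.mem_insert_of_mem h3)).2.1
      rw [G.lf_op i h1.1, h1.2.1] at h4
      simp at h4
    have h4 : D.sm (insert i S) = (D.sm S).upd i .smooth := by
      apply Dg.ext
      funext j
      by_cases h5 : j = i ∨ j = G.op i
      · rw [upd_st _ i _ j h5, sm_st_mem]
        rcases h5 with h5 | h5
        · left
          rw [h5]
          exact Finset.mem_insert_self i S
        · right
          rw [h5, G.op_op]
          exact Finset.mem_insert_self i S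
      · push Not at h5
        rw [upd_st_ne _ i _ j h5.1 h5.2]
        by_cases h6 : j ∈ S ∨ G.op j ∈ S
        · rw [sm_st_mem _ S j h6, sm_st_mem _ _ j
            (h6.imp Finset.mem_insert_of_mem Finset.mem_insert_of_mem)]
        · push Not at h6
          rw [sm_st_not _ S j h6.1 h6.2, sm_st_not]
          · rw [Finset.mem_insert, not_or]
            exact ⟨h5.1, h6.1⟩
          · rw [Finset.mem_insert, not_or]
            refine ⟨fun h7 => h5.2 ?_, h6.2⟩
            rw [← h7, G.op_op]
    have h5 : (D.sm S).st i ≠ .smooth := by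
      rw [sm_st_not D S i hi h3, h1.2.2]
      simp
    rw [h4, trp, inv_upd _ i h5, ← mul_assoc, ← trp, map_mul, h2,
      Equiv.Perm.sign_swap (Ne.symm h1.1), Finset.card_insert_of_notMem hi, pow_succ, mul_assoc]

/-- **Parity** of the ascending states -/
theorem asc_parity {D : Dg G} {b : P} {S : Finset P} (hS : ∀ i ∈ S, Low D i) (h : Asc D b S) :
    (-1 : ℤˣ) ^ S.card = Equiv.Perm.sign (trp D) * (-1) ^ (Fintype.card P - 1) := by
  have h1 := sign_of_orbit (trp (D.sm S)) b (fun i => by
    obtain ⟨k, hk⟩ := h.1 i
    exact ⟨k, by rw [trp_pow]; exact hk⟩)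
  rw [sign_sm D S hS] at h1
  rw [← h1, ← mul_assoc, Int.units_mul_self, one_mul]

/-- **Parity**: `nab D` has only exponents with one parity -/
theorem coeff_parity {nab : Dg G → ℤ[X]} {b : P} (h : Cw X 1 b nab) (D : Dg G)
    (hD : ∀ i, G.op i ≠ i → D.st i = .pos ∨ D.st i = .smooth) {m : ℕ}
    (hm : (nab D).coeff m ≠ 0) :
    (-1 : ℤˣ) ^ m = Equiv.Perm.sign (trp D) * (-1) ^ (Fintype.card P - 1) := by
  rw [coeff_expand h D hD m] at hm
  have h1 : (((unv D b 0).powersetCard m).filter fun S => Asc D b S).card ≠ 0 := by
    exact_mod_cast hm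
  obtain ⟨S, hS⟩ := Finset.card_pos.1 (Nat.pos_of_ne_zero h1)
  rw [Finset.mem_filter, Finset.mem_powersetCard] at hS
  rw [← hS.1.2]
  exact asc_parity (fun i hi => (mem_unv.1 (hS.1.1 hi)).1) hS.2

/-- two exponents of `nab D` have the same parity -/
theorem parity {nab : Dg G → ℤ[X]} {b : P} (h : Cw X 1 b nab) (D : Dg G)
    (hD : ∀ i, G.op i ≠ i → D.st i = .pos ∨ D.st i = .smooth) {m m' : ℕ}
    (hm : (nab D).coeff m ≠ 0) (hm' : (nab D).coeff m' ≠ 0) : m % 2 = m' % 2 := by
  have h1 := (coeff_parity h D hD hm).trans (coeff_parity h D hD hm').symm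
  rcases Nat.even_or_odd m with h2 | h2
  · rcases Nat.even_or_odd m' with h3 | h3
    · rw [Nat.even_iff.1 h2, Nat.even_iff.1 h3]
    · rw [h2.neg_one_pow, h3.neg_one_pow] at h1
      exact absurd h1 (by decide)
  · rcases Nat.even_or_odd m' with h3 | h3
    · rw [h2.neg_one_pow, h3.neg_one_pow] at h1
      exact absurd h1 (by decide)
    · rw [Nat.odd_iff.1 h2, Nat.odd_iff.1 h3]

end Parity

end Pool.Agent.Helper85.Exp
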