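import Pool.Agent.Helper85.EV2.RowL

/-!
# EV2, rows: the index function, existence (R4), the formula (R7) from the elimination (R6)
-/

set_option autoImplicit false

namespace Pool.Agent.Helper85.Rows

open Polynomial Pool.Agent.Helper27.EV2 Pool.Agent.Helper85.Exp

variable {W : Word}

/-! ### The index of a face -/

theorem ka_succ (W : Word) (r j : ℕ) : ka W r (j + 1) = ka W r j + if dir W r j then 1 else -1 := by
  unfold ka
  rw [Finset.sum_range_succ]

theorem ka_congr {r r' j : ℕ} (h : ∀ l, l < j → dir W r l = dir W r' l) : ka W r j = ka W r' j := by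
  unfold ka
  refine Finset.sum_congr rfl fun l hl => ?_
  rw [h l (Finset.mem_range.1 hl)]

theorem ka_mx (hW : Ok W) {r k : ℕ} {d : Bool} (hr : r + 1 < W.length)
    (he : (row W (r + 1)).e = .mx k d) :
    (∀ j, j ≤ k → ka W (r + 1) j = ka W r j) ∧ ∀ j, k ≤ j → ka W (r + 1) (j + 2) = ka W r j := by
  obtain ⟨h1, h2, h3, h4, h5, h6⟩ := mx_facts hW hr he
  have h3' : ∀ j, j ≤ k → ka W (r + 1) j = ka W r j := fun j hj =>
    ka_congr fun l hl => h3 l (by omega)
  refine ⟨h3', ?_⟩
  intro j hj
  induction j, hj using Nat.le_induction with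
  | base =>
    rw [ka_succ, ka_succ, h3' k le_rfl, h4, h5]
    cases d <;> simp
  | succ j hj ih =>
    rw [show j + 1 + 2 = j + 2 + 1 by omega, ka_succ, ih, ka_succ W r j]
    have : dir W (r + 1) (j + 2) = dir W r j := h6 j hj
    rw [this]

theorem ka_mn (hW : Ok W) {r k : ℕ} (hr : r + 1 < W.length) (he : (row W (r + 1)).e = .mn k) :
    (∀ j, j ≤ k → ka W (r + 1) j = ka W r j) ∧ ∀ j, k ≤ j → ka W (r + 1) j = ka W r (j + 2) := by
  obtain ⟨h1, h2, h3, h4, h5⟩ := mn_facts hW hr he
  rw [dir_eq, dir_eq] at h3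
  have h3' : ∀ j, j ≤ k → ka W (r + 1) j = ka W r j := fun j hj =>
    ka_congr fun l hl => h4 l (by omega)
  refine ⟨h3', ?_⟩
  intro j hj
  induction j, hj using Nat.le_induction with
  | base =>
    rw [ka_succ, ka_succ, h3' k le_rfl, h3]
    cases dir W r k <;> simp
  | succ j hj ih =>
    rw [ka_succ, ih, show j + 1 + 2 = j + 2 + 1 by omega, ka_succ W r (j + 2)]
    have : dir W (r + 1) j = dir W r (j + 2) := h5 j hj
    rw [this]

/-- The index function. -/
def fk (W : Word) (r j : ℕ) : ℤ := if dir W r j = true then -ka W r j else -ka W r (j + 1)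

theorem fk_legs {r k : ℕ} (h : dir W r (k + 1) = !dir W r k) : fk W r (k + 1) = fk W r k := by
  unfold fk
  rw [h, ka_succ W r (k + 1), ka_succ W r k, h]
  cases dir W r k <;> simp

theorem fk_shift {r r' j j' : ℕ} (h : dir W r j = dir W r' j') (h' : ka W r j = ka W r' j') :
    fk W r j = fk W r' j' := by
  unfold fk
  rw [ka_succ, ka_succ, h, h']

/-- The index function on the points. -/
def kp (p : Pt W) : ℤ := fk W p.r p.j

theorem kp_of {p : Pt W} {r' i' j' : ℕ} (hv : Val W r' i' j')
    (he : nxRaw W p.r p.i p.j = (r', i', j')) : kp (nx p) = fk W r' j' := by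
  have : nx p = ⟨r', i', j', hv.1, hv.2.1, hv.2.2⟩ := nx_eq he
  rw [this]
  rfl

theorem kp_triv (hW : Ok W) (p : Pt W) (h : op p = p) : kp (nx p) = kp p := by
  obtain ⟨r, i, j, hr, hi, hj⟩ := p
  show kp (nx _) = fk W r j
  cases hd : dir W r j with
  | true =>
    rcases lt_or_ge i (row W r).w.length with hi0 | hi0
    · obtain ⟨h1, h2, h3⟩ := cr_facts hW hr hi0
      have hne : ∀ j', (j' = (row W r).w.getD i 0 ∨ j' = (row W r).w.getD i 0 + 1) → j ≠ j' := by
        intro j' h4 h5
        subst h5
        have hc : Cro (⟨r, i, j, hr, hi, hj⟩ : Pt W) := ⟨hi0, h2, h3, h1, h4⟩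
        rw [op_of hc] at h
        have h6 : sw ((row W r).w.getD i 0) j = j := congrArg Pt.j h
        unfold sw at h6
        split_ifs at h6 <;> omega
      rw [kp_of (r' := r) (i' := i + 1) (j' := j) ⟨hr, hi0, hj⟩ (by
        show nxRaw W r i j = _
        rw [nx_cross hd hi0, sw_of_ne (hne _ (Or.inl rfl)) (hne _ (Or.inr rfl))])]
    · have hi1 : i = (row W r).w.length := le_antisymm hi hi0
      subst hi1
      have hr1 : r + 1 < W.length := by
        by_contra hr1
        have : r + 1 = W.length := by omega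
        rw [this, hW.closed] at hj
        simp at hj
      cases he : (row W (r + 1)).e with
      | mx k d =>
        obtain ⟨h1, h2, h3, h4, h5, h6⟩ := mx_facts hW hr1 he
        obtain ⟨g1, g2⟩ := ka_mx hW hr1 he
        rcases lt_or_ge j k with hjk | hjk
        · rw [kp_of (r' := r + 1) (i' := 0) (j' := j) ⟨hr1, Nat.zero_le _, by omega⟩ (by
            show nxRaw W r _ j = _
            rw [nx_mx_dn hd he, if_pos hjk])]
          exact fk_shift (h3 j hjk) (g1 j hjk.le)
        · rw [kp_of (r' := r + 1) (i' := 0) (j' := j + 2) ⟨hr1, Nat.zero_le _, by omega⟩ (by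
            show nxRaw W r _ j = _
            rw [nx_mx_dn hd he, if_neg (by omega)])]
          exact fk_shift (h6 j hjk) (g2 j hjk)
      | mn k =>
        obtain ⟨h1, h2, h3, h4, h5⟩ := mn_facts hW hr1 he
        rw [dir_eq, dir_eq] at h3
        obtain ⟨g1, g2⟩ := ka_mn hW hr1 he
        rcases lt_trichotomy j k with hjk | rfl | hjk
        · rw [kp_of (r' := r + 1) (i' := 0) (j' := j) ⟨hr1, Nat.zero_le _, by omega⟩ (by
            show nxRaw W r _ j = _
            rw [nx_mn_dn hd he, if_pos hjk])]
          exact fk_shift (h4 j hjk) (g1 j hjk.le)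
        · rw [kp_of (r' := r) (i' := (row W r).w.length) (j' := j + 1) ⟨hr, le_rfl, h1⟩ (by
            show nxRaw W r _ j = _
            rw [nx_mn_dn hd he, if_neg (by omega), if_pos rfl])]
          exact fk_legs h3
        · rcases Nat.lt_or_ge (k + 1) j with hjk2 | hjk2
          · obtain ⟨j0, rfl⟩ : ∃ j0, j = j0 + 2 := ⟨j - 2, by omega⟩
            rw [kp_of (r' := r + 1) (i' := 0) (j' := j0) ⟨hr1, Nat.zero_le _, by omega⟩ (by
              show nxRaw W r _ _ = _
              rw [nx_mn_dn hd he, if_neg (by omega), if_neg (by omega), if_neg (by omega)]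
              rfl)]
            exact fk_shift (h5 j0 (by omega)) (g2 j0 (by omega))
          · have : j = k + 1 := by omega
            subst this
            rw [kp_of (r' := r) (i' := (row W r).w.length) (j' := k) ⟨hr, le_rfl, by omega⟩ (by
              show nxRaw W r _ _ = _
              rw [nx_mn_dn hd he, if_neg (by omega), if_neg (by omega), if_pos rfl])]
            exact (fk_legs h3).symm
  | false =>
    rcases Nat.eq_zero_or_pos i with rfl | hi0
    · cases he : (row W r).e with
      | mx k d =>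
        obtain ⟨h1, h2, h3, h4, h5, h6⟩ := mx_facts hW hr he
        have hlegs : dir W r (k + 1) = !dir W r k := by rw [h4, h5]
        rcases lt_trichotomy j k with hjk | rfl | hjk
        · have hr0 : r ≠ 0 := by
            rintro rfl
            have h9 : (lv W 0).length = 0 := by rw [lv_zero]; rfl
            omega
          obtain ⟨q, rfl⟩ := Nat.exists_eq_succ_of_ne_zero hr0
          obtain ⟨g1, g2⟩ := ka_mx hW hr he
          rw [kp_of (r' := q) (i' := (row W q).w.length) (j' := j) ⟨by omega, le_rfl, by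
              have : k ≤ (lv W (q + 1)).length := h1
              omega⟩ (by
            show nxRaw W (q + 1) 0 j = _
            rw [nx_mx_up hd he, if_pos hjk]
            rfl)]
          exact (fk_shift (h3 j hjk) (g1 j hjk.le)).symm
        · rw [kp_of (r' := r) (i' := 0) (j' := j + 1) ⟨hr, Nat.zero_le _, by omega⟩ (by
            show nxRaw W r 0 j = _
            rw [nx_mx_up hd he, if_neg (by omega), if_pos rfl])]
          exact fk_legs hlegs
        · rcases Nat.lt_or_ge (k + 1) j with hjk2 | hjk2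
          · obtain ⟨j0, rfl⟩ : ∃ j0, j = j0 + 2 := ⟨j - 2, by omega⟩
            have hr0 : r ≠ 0 := by
              rintro rfl
              have h9 : (lv W 0).length = 0 := by rw [lv_zero]; rfl
              omega
            obtain ⟨q, rfl⟩ := Nat.exists_eq_succ_of_ne_zero hr0
            obtain ⟨g1, g2⟩ := ka_mx hW hr he
            rw [kp_of (r' := q) (i' := (row W q).w.length) (j' := j0) ⟨by omega, le_rfl, by
                have : (lv W (q + 1 + 1)).length = (lv W (q + 1)).length + 2 := h2
                have hj' : j0 + 2 < (lv W (q + 1 + 1)).length := hj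
                omega⟩ (by
              show nxRaw W (q + 1) 0 (j0 + 2) = _
              rw [nx_mx_up hd he, if_neg (by omega), if_neg (by omega), if_neg (by omega)]
              rfl)]
            exact (fk_shift (h6 j0 (by omega)) (g2 j0 (by omega))).symm
          · have : j = k + 1 := by omega
            subst this
            rw [kp_of (r' := r) (i' := 0) (j' := k) ⟨hr, Nat.zero_le _, by omega⟩ (by
              show nxRaw W r 0 _ = _
              rw [nx_mx_up hd he, if_neg (by omega), if_neg (by omega), if_pos rfl])]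
            exact (fk_legs hlegs).symm
      | mn k =>
        obtain ⟨h1, h2, h3, h4, h5⟩ := mn_facts hW hr he
        have hr0 : r ≠ 0 := by
          rintro rfl
          have h9 : (lv W 0).length = 0 := by rw [lv_zero]; rfl
          omega
        obtain ⟨q, rfl⟩ := Nat.exists_eq_succ_of_ne_zero hr0
        obtain ⟨g1, g2⟩ := ka_mn hW hr he
        have hl : (lv W (q + 1 + 1)).length + 2 = (lv W (q + 1)).length := h2
        have hj' : j < (lv W (q + 1 + 1)).length := hj
        rcases lt_or_ge j k with hjk | hjk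
        · rw [kp_of (r' := q) (i' := (row W q).w.length) (j' := j) ⟨by omega, le_rfl, by omega⟩ (by
            show nxRaw W (q + 1) 0 j = _
            rw [nx_mn_up hd he, if_pos hjk]
            rfl)]
          exact (fk_shift (h4 j hjk) (g1 j hjk.le)).symm
        · rw [kp_of (r' := q) (i' := (row W q).w.length) (j' := j + 2)
            ⟨by omega, le_rfl, by omega⟩ (by
            show nxRaw W (q + 1) 0 j = _
            rw [nx_mn_up hd he, if_neg (by omega)]
            rfl)]
          exact (fk_shift (h5 j hjk) (g2 j hjk)).symm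
    · obtain ⟨i0, rfl⟩ : ∃ i0, i = i0 + 1 := ⟨i - 1, by omega⟩
      rw [kp_of (r' := r) (i' := i0) (j' := j) ⟨hr, by omega, hj⟩ (nx_up hd)]

/-- The index function of the shadow of a word. -/
theorem ix (hW : Ok W) : Pool.Agent.Helper60.EV2.Ix (shadow W hW) (kp (W := W)) where
  triv := kp_triv hW
  cr := by
    intro p hp hl
    have hp' : op p ≠ p := hp
    have hc := cro_of_ne hp'
    obtain ⟨r, i, j, hr, hi, hj⟩ := p
    have hl' : decide (j = (row W r).w.getD i 0) = true := hl
    have hj2 : j = (row W r).w.getD i 0 := by simpa using hl'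
    obtain ⟨c1, c2, c3, c4, _⟩ := hc
    have c1' : i < (row W r).w.length := c1
    have c2' : dir W r ((row W r).w.getD i 0) = true := c2
    have c3' : dir W r ((row W r).w.getD i 0 + 1) = true := c3
    have c4' : (row W r).w.getD i 0 + 1 < (lv W (r + 1)).length := c4
    rw [← hj2] at c2' c3' c4'
    have ho : op (⟨r, i, j, hr, hi, hj⟩ : Pt W) = ⟨r, i, j + 1, hr, hi, c4'⟩ := by
      rw [op_of ⟨c1, c2, c3, c4, Or.inl hj2⟩]
      ext
      · rfl
      · rfl
      · show sw ((row W r).w.getD i 0) j = j + 1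
        rw [← hj2]
        unfold sw
        rw [if_pos rfl]
    have h1 : kp (⟨r, i, j, hr, hi, hj⟩ : Pt W) = -ka W r j := if_pos c2'
    have h2 : kp (⟨r, i, j + 1, hr, hi, c4'⟩ : Pt W) = -ka W r (j + 1) := if_pos c3'
    have h3 : ka W r (j + 1) = ka W r j + 1 := by
      rw [ka_succ, c2']
      rfl
    have h4 : kp (nx (⟨r, i, j, hr, hi, hj⟩ : Pt W)) = -ka W r (j + 1) := by
      rw [kp_of (r' := r) (i' := i + 1) (j' := j + 1) ⟨hr, c1', c4'⟩ (by
        show nxRaw W r i j = _
        rw [nx_cross c2' c1', ← hj2]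
        unfold sw
        rw [if_pos rfl])]
      exact if_pos c3'
    have h5 : kp (nx (⟨r, i, j + 1, hr, hi, c4'⟩ : Pt W)) = -ka W r j := by
      rw [kp_of (r' := r) (i' := i + 1) (j' := j) ⟨hr, c1', hj⟩ (by
        show nxRaw W r i (j + 1) = _
        rw [nx_cross c3' c1', ← hj2]
        unfold sw
        rw [if_neg (by omega), if_pos rfl])]
      exact if_pos c2'
    show kp _ = kp (op _) + 1 ∧ kp (nx _) = kp (op _) ∧ kp (nx (op _)) = kp (op _) + 1
    rw [ho, h1, h2, h4, h5, h3]
    refine ⟨?_, rfl, ?_⟩ <;> ring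

/-- **R4: existence** -/
theorem exists_conway (hW : Ok W) (hne : W ≠ []) :
    ∃ nab : Dg (shadow W hW) → ℤ[X], Pool.Agent.Helper60.EV2.Cs nab := by
  obtain ⟨b, hb⟩ := exists_base hW hne
  exact Pool.Agent.Helper60.EV2.exists_cs (ix hW) b (w0 W) fun D h1 h2 => whitney hW hb D h1 h2

/-- **R7** from R6. -/
theorem form_of (hW : Ok W) (hne : W ≠ []) {nab : Dg (shadow W hW) → ℤ[X]}
    (h : Pool.Agent.Helper60.EV2.Cs nab) (D : Dg (shadow W hW)) {s : ℂ} (hs : s ≠ 0)
    (hschur : ∀ {b : Pt W}, IsBase b → ∀ u : ℂˣ,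
      Pool.Agent.Helper60.EV2.W (shadow W hW).nxt (shadow W hW).op
        (Pool.Agent.Helper60.EV2.kd (u : ℂ) ((u⁻¹ : ℂˣ) : ℂ) D) b =
        (1 - Qm W ((u : ℂ) ^ 2) (((u⁻¹ : ℂˣ) : ℂ) ^ 2) (stat D)).det) :
    aeval (s⁻¹ - s) (nab D) = s ^ (w0 W - Pool.Agent.Helper60.EV2.wr D) *
      (1 - Qm W (s ^ 2) (s⁻¹ ^ 2) (stat D)).det := by
  obtain ⟨b, hb⟩ := exists_base hW hne
  have h1 := Pool.Agent.Helper60.EV2.conway_formula (Units.mk0 s hs) b (w0 W)
    (fun D h1 h2 => whitney hW hb D h1 h2) (h.cw b) D
  rw [hschur hb (Units.mk0 s hs)] at h1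
  simpa using h1

end Pool.Agent.Helper85.Rows
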