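import Pool.Agent.Helper27.EV2.Rec

/-!
# EV2, rows: basic facts, R1 (`nx_inj`), R2 (`exists_base`)
-/

set_option autoImplicit false

namespace Pool.Agent.Helper85.Rows

open Pool.Agent.Helper27.EV2

variable {W : Word}

/-! ### The directions -/

theorem lv_zero (W : Word) : lv W 0 = [] := rfl

theorem lv_succ {r : ℕ} (hr : r < W.length) : lv W (r + 1) = (row W r).e.act (lv W r) := by
  unfold lv
  rw [List.take_add_one, List.foldl_append]
  have : W[r]? = some (row W r) := by
    unfold row
    rw [List.getD_eq_getElem?_getD, List.getElem?_eq_getElem hr]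
    rfl
  rw [this]
  rfl

theorem getD_mx {k : ℕ} {d : Bool} {l : List Bool} (hk : k ≤ l.length) (j : ℕ) :
    ((Ext.mx k d).act l).getD j false =
      if j < k then l.getD j false else if j = k then d else if j = k + 1 then !d
        else l.getD (j - 2) false := by
  simp only [Ext.act, List.getD_eq_getElem?_getD]
  have hlen : (l.take k).length = k := by rw [List.length_take]; omega
  by_cases h1 : j < k
  · rw [if_pos h1, List.getElem?_append_left (by omega), List.getElem?_take_of_lt h1]
  · rw [if_neg h1, List.getElem?_append_right (by omega), hlen]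
    by_cases h2 : j = k
    · rw [if_pos h2, h2, Nat.sub_self]
      rfl
    · rw [if_neg h2]
      by_cases h3 : j = k + 1
      · rw [if_pos h3, h3]
        have : k + 1 - k = 1 := by omega
        rw [this]
        rfl
      · rw [if_neg h3]
        have : j - k = (j - k - 2) + 1 + 1 := by omega
        rw [this, List.getElem?_cons_succ, List.getElem?_cons_succ, List.getElem?_drop]
        have : k + (j - k - 2) = j - 2 := by omega
        rw [this]

theorem getD_mn {k : ℕ} {l : List Bool} (hk : k + 1 < l.length) (j : ℕ) :
    ((Ext.mn k).act l).getD j false = if j < k then l.getD j false else l.getD (j + 2) false := by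
  simp only [Ext.act, List.getD_eq_getElem?_getD]
  have hlen : (l.take k).length = k := by rw [List.length_take]; omega
  by_cases h1 : j < k
  · rw [if_pos h1, List.getElem?_append_left (by omega), List.getElem?_take_of_lt h1]
  · rw [if_neg h1, List.getElem?_append_right (by omega), hlen, List.getElem?_drop]
    have : k + 2 + (j - k) = j + 2 := by omega
    rw [this]

theorem length_mx {k : ℕ} {d : Bool} {l : List Bool} (hk : k ≤ l.length) :
    ((Ext.mx k d).act l).length = l.length + 2 := by
  simp only [Ext.act, List.length_append, List.length_take, List.length_cons, List.length_drop]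
  omega

theorem length_mn {k : ℕ} {l : List Bool} (hk : k + 1 < l.length) :
    ((Ext.mn k).act l).length = l.length - 2 := by
  simp only [Ext.act, List.length_append, List.length_take, List.length_drop]
  omega

theorem lt_of_get {l : List Bool} {k : ℕ} {d : Bool} (h : l[k]? = some d) : k < l.length := by
  obtain ⟨h1, _⟩ := List.getElem?_eq_some_iff.1 h
  exact h1

theorem getD_of_get {l : List Bool} {k : ℕ} {d : Bool} (h : l[k]? = some d) :
    l.getD k false = d := by
  rw [List.getD_eq_getElem?_getD, h]
  rfl

/-- a maximum at the row `r` -/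
theorem mx_facts (hW : Ok W) {r k : ℕ} {d : Bool} (hr : r < W.length) (he : (row W r).e = .mx k d) :
    k ≤ (lv W r).length ∧ (lv W (r + 1)).length = (lv W r).length + 2 ∧
      (∀ j, j < k → dir W r j = (lv W r).getD j false) ∧ dir W r k = d ∧ dir W r (k + 1) = !d ∧
      ∀ j, k ≤ j → dir W r (j + 2) = (lv W r).getD j false := by
  have h1 := hW.ext r hr
  rw [he] at h1
  have h1' : k ≤ (lv W r).length := h1
  have h2 : lv W (r + 1) = (Ext.mx k d).act (lv W r) := by rw [lv_succ hr, he]
  have h3 : ∀ j, dir W r j = ((Ext.mx k d).act (lv W r)).getD j false := by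
    intro j
    unfold dir
    rw [h2]
  refine ⟨h1', by rw [h2, length_mx h1'], ?_, ?_, ?_, ?_⟩
  · intro j hj
    rw [h3, getD_mx h1', if_pos hj]
  · rw [h3, getD_mx h1', if_neg (by omega), if_pos rfl]
  · rw [h3, getD_mx h1', if_neg (by omega), if_neg (by omega), if_pos rfl]
  · intro j hj
    rw [h3, getD_mx h1', if_neg (by omega), if_neg (by omega), if_neg (by omega)]
    simp

/-- a minimum at the row `r` -/
theorem mn_facts (hW : Ok W) {r k : ℕ} (hr : r < W.length) (he : (row W r).e = .mn k) :
    k + 1 < (lv W r).length ∧ (lv W (r + 1)).length + 2 = (lv W r).length ∧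
      (lv W r).getD (k + 1) false = !(lv W r).getD k false ∧
      (∀ j, j < k → dir W r j = (lv W r).getD j false) ∧
      ∀ j, k ≤ j → dir W r j = (lv W r).getD (j + 2) false := by
  have h1 := hW.ext r hr
  rw [he] at h1
  obtain ⟨d, h4, h5⟩ : ∃ d, (lv W r)[k]? = some d ∧ (lv W r)[k + 1]? = some (!d) := h1
  have h6 := lt_of_get h5
  have h2 : lv W (r + 1) = (Ext.mn k).act (lv W r) := by rw [lv_succ hr, he]
  have h3 : ∀ j, dir W r j = ((Ext.mn k).act (lv W r)).getD j false := by
    intro j
    unfold dir
    rw [h2]
  refine ⟨h6, by rw [h2, length_mn h6]; omega, ?_, ?_, ?_⟩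
  · rw [getD_of_get h4, getD_of_get h5]
  · intro j hj
    rw [h3, getD_mn h6, if_pos hj]
  · intro j hj
    rw [h3, getD_mn h6, if_neg (by omega)]

theorem dir_eq (W : Word) (r j : ℕ) : (lv W (r + 1)).getD j false = dir W r j := rfl

/-- a crossing -/
theorem cr_facts (hW : Ok W) {r i : ℕ} (hr : r < W.length) (hi : i < (row W r).w.length) :
    (row W r).w.getD i 0 + 1 < (lv W (r + 1)).length ∧ dir W r ((row W r).w.getD i 0) = true ∧
      dir W r ((row W r).w.getD i 0 + 1) = true := by
  have h1 : (row W r).w.getD i 0 ∈ (row W r).w := by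
    rw [List.getD_eq_getElem?_getD, List.getElem?_eq_getElem hi]
    exact List.getElem_mem hi
  have h2 := hW.cr r hr _ h1
  exact ⟨lt_of_get h2.2, getD_of_get h2.1, getD_of_get h2.2⟩

/-! ### Points -/

/-- the coordinates are those of a point -/
def Val (W : Word) (r i j : ℕ) : Prop :=
  r < W.length ∧ i ≤ (row W r).w.length ∧ j < (lv W (r + 1)).length

theorem mk_val {r i j : ℕ} (h : Val W r i j) (p : Pt W) :
    mk W (r, i, j) p = ⟨r, i, j, h.1, h.2.1, h.2.2⟩ := dif_pos h

theorem mk_self (p q : Pt W) : mk W (p.r, p.i, p.j) q = p := by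
  rw [mk_val ⟨p.hr, p.hi, p.hj⟩]

theorem val_pt (p : Pt W) : Val W p.r p.i p.j := ⟨p.hr, p.hi, p.hj⟩

theorem nx_eq {p q : Pt W} (h : nxRaw W p.r p.i p.j = (q.r, q.i, q.j)) : nx p = q := by
  show mk W (nxRaw W p.r p.i p.j) p = q
  rw [h, mk_self]

/-! ### The next point -/

theorem nx_cross {r i j : ℕ} (hd : dir W r j = true) (hi : i < (row W r).w.length) :
    nxRaw W r i j = (r, i + 1, sw ((row W r).w.getD i 0) j) := by
  unfold nxRaw
  rw [if_pos hd, if_pos hi]

theorem nx_up {r i j : ℕ} (hd : dir W r j = false) : nxRaw W r (i + 1) j = (r, i, j) := by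
  unfold nxRaw
  rw [if_neg (by rw [hd]; simp), if_pos (by omega)]
  rfl

theorem nx_mx_dn {r j k : ℕ} {d : Bool} (hd : dir W r j = true)
    (he : (row W (r + 1)).e = .mx k d) :
    nxRaw W r (row W r).w.length j = (r + 1, 0, if j < k then j else j + 2) := by
  unfold nxRaw
  rw [if_pos hd, if_neg (lt_irrefl _), he]

theorem nx_mn_dn {r j k : ℕ} (hd : dir W r j = true) (he : (row W (r + 1)).e = .mn k) :
    nxRaw W r (row W r).w.length j = if j < k then (r + 1, 0, j)
      else if j = k then (r, (row W r).w.length, k + 1)
      else if j = k + 1 then (r, (row W r).w.length, k) else (r + 1, 0, j - 2) := by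
  unfold nxRaw
  rw [if_pos hd, if_neg (lt_irrefl _), he]

theorem nx_mx_up {r j k : ℕ} {d : Bool} (hd : dir W r j = false) (he : (row W r).e = .mx k d) :
    nxRaw W r 0 j = if j < k then (r - 1, (row W (r - 1)).w.length, j)
      else if j = k then (r, 0, k + 1)
      else if j = k + 1 then (r, 0, k) else (r - 1, (row W (r - 1)).w.length, j - 2) := by
  unfold nxRaw
  rw [if_neg (by rw [hd]; simp), if_neg (lt_irrefl _), he]

theorem nx_mn_up {r j k : ℕ} (hd : dir W r j = false) (he : (row W r).e = .mn k) :
    nxRaw W r 0 j = (r - 1, (row W (r - 1)).w.length, if j < k then j else j + 2) := by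
  unfold nxRaw
  rw [if_neg (by rw [hd]; simp), if_neg (lt_irrefl _), he]

theorem sw_of_ne {k j : ℕ} (h1 : j ≠ k) (h2 : j ≠ k + 1) : sw k j = j := by
  unfold sw
  rw [if_neg h1, if_neg h2]

/-- The letters do not change the directions. -/
theorem dir_sw {r k j : ℕ} (h1 : dir W r k = true) (h2 : dir W r (k + 1) = true) :
    dir W r (sw k j) = dir W r j := by
  unfold sw
  split_ifs with h3 h4
  · rw [h3, h1, h2]
  · rw [h4, h1, h2]
  · rfl

/-- Every point has a predecessor. -/
theorem nx_surj (hW : Ok W) : Function.Surjective (nx : Pt W → Pt W) := by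
  intro p
  obtain ⟨r, i, j, hr, hi, hj⟩ := p
  -- it is enough to find the coordinates
  suffices h : ∃ r' i' j', Val W r' i' j' ∧ nxRaw W r' i' j' = (r, i, j) by
    obtain ⟨r', i', j', hv, h⟩ := h
    exact ⟨⟨r', i', j', hv.1, hv.2.1, hv.2.2⟩, nx_eq h⟩
  cases hd : dir W r j with
  | true =>
    rcases Nat.eq_zero_or_pos i with rfl | hi0
    · -- the top of the row
      cases he : (row W r).e with
      | mx k d =>
        obtain ⟨h1, h2, h3, h4, h5, h6⟩ := mx_facts hW hr he
        rcases lt_trichotomy j k with hjk | rfl | hjk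
        · -- left of the maximum
          have hr0 : r ≠ 0 := by
            rintro rfl
            rw [lv_zero] at h1
            simp at h1
            omega
          obtain ⟨q, rfl⟩ := Nat.exists_eq_succ_of_ne_zero hr0
          have h7 : dir W q j = true := by
            have := h3 j hjk
            rw [hd] at this
            exact this.symm
          refine ⟨q, (row W q).w.length, j, ⟨by omega, le_rfl, by
            have : k ≤ (lv W (q + 1)).length := h1
            omega⟩, ?_⟩
          rw [nx_mx_dn h7 he, if_pos hjk]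
        · -- the left leg
          refine ⟨r, 0, j + 1, ⟨hr, Nat.zero_le _, by omega⟩, ?_⟩
          rw [hd] at h4
          have h7 : dir W r (j + 1) = false := by rw [h5, ← h4]; rfl
          rw [nx_mx_up h7 he, if_neg (by omega), if_neg (by omega), if_pos rfl]
        · rcases Nat.lt_or_ge (k + 1) j with hjk2 | hjk2
          · obtain ⟨j0, rfl⟩ : ∃ j0, j = j0 + 2 := ⟨j - 2, by omega⟩
            have hr0 : r ≠ 0 := by
              rintro rfl
              have h9 : (lv W 0).length = 0 := by rw [lv_zero]; rfl
              omega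
            obtain ⟨q, rfl⟩ := Nat.exists_eq_succ_of_ne_zero hr0
            have h7 : dir W q j0 = true := by
              have := h6 j0 (by omega)
              rw [hd] at this
              exact this.symm
            refine ⟨q, (row W q).w.length, j0, ⟨by omega, le_rfl, by
              have : (lv W (q + 1 + 1)).length = (lv W (q + 1)).length + 2 := h2
              have hj' : j0 + 2 < (lv W (q + 1 + 1)).length := hj
              omega⟩, ?_⟩
            rw [nx_mx_dn h7 he, if_neg (by omega)]
          · have : j = k + 1 := by omega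
            subst this
            refine ⟨r, 0, k, ⟨hr, Nat.zero_le _, by omega⟩, ?_⟩
            have h7 : dir W r k = false := by
              rw [h5] at hd
              rw [h4]
              simpa using hd
            rw [nx_mx_up h7 he, if_neg (by omega), if_pos rfl]
      | mn k =>
        obtain ⟨h1, h2, h3, h4, h5⟩ := mn_facts hW hr he
        have hr0 : r ≠ 0 := by
          rintro rfl
          rw [lv_zero] at h1
          simp at h1
        obtain ⟨q, rfl⟩ := Nat.exists_eq_succ_of_ne_zero hr0
        have hl : (lv W (q + 1 + 1)).length + 2 = (lv W (q + 1)).length := h2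
        have hj' : j < (lv W (q + 1 + 1)).length := hj
        rcases lt_or_ge j k with hjk | hjk
        · have h7 : dir W q j = true := by
            have := h4 j hjk
            rw [hd] at this
            exact this.symm
          refine ⟨q, (row W q).w.length, j, ⟨by omega, le_rfl, by omega⟩, ?_⟩
          rw [nx_mn_dn h7 he, if_pos hjk]
        · have h7 : dir W q (j + 2) = true := by
            have := h5 j hjk
            rw [hd] at this
            exact this.symm
          refine ⟨q, (row W q).w.length, j + 2, ⟨by omega, le_rfl, by omega⟩, ?_⟩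
          rw [nx_mn_dn h7 he, if_neg (by omega), if_neg (by omega), if_neg (by omega)]
          rfl
    · -- below a crossing
      obtain ⟨i0, rfl⟩ : ∃ i0, i = i0 + 1 := ⟨i - 1, by omega⟩
      have hi' : i0 < (row W r).w.length := hi
      obtain ⟨h1, h2, h3⟩ := cr_facts hW hr hi'
      refine ⟨r, i0, sw ((row W r).w.getD i0 0) j, ⟨hr, by omega, sw_lt h1 hj⟩, ?_⟩
      rw [nx_cross (by rw [dir_sw h2 h3, hd]) hi', sw_sw]
  | false =>
    rcases lt_or_ge i (row W r).w.length with hi0 | hi0
    · refine ⟨r, i + 1, j, ⟨hr, hi0, hj⟩, nx_up hd⟩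
    · have hi1 : i = (row W r).w.length := le_antisymm hi hi0
      subst hi1
      have hr1 : r + 1 < W.length := by
        by_contra hr1
        have : r + 1 = W.length := by omega
        rw [this, hW.closed] at hj
        simp at hj
      cases he : (row W (r + 1)).e with
      | mx k d =>
        obtain ⟨h1, h2, h3, h4, h5, h6⟩ := mx_facts hW hr1 he
        rcases lt_or_ge j k with hjk | hjk
        · have h7 : dir W (r + 1) j = false := by rw [h3 j hjk]; exact hd
          refine ⟨r + 1, 0, j, ⟨hr1, Nat.zero_le _, by omega⟩, ?_⟩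
          rw [nx_mx_up h7 he, if_pos hjk]
          rfl
        · have h7 : dir W (r + 1) (j + 2) = false := by rw [h6 j hjk]; exact hd
          refine ⟨r + 1, 0, j + 2, ⟨hr1, Nat.zero_le _, by omega⟩, ?_⟩
          rw [nx_mx_up h7 he, if_neg (by omega), if_neg (by omega), if_neg (by omega)]
          rfl
      | mn k =>
        obtain ⟨h1, h2, h3, h4, h5⟩ := mn_facts hW hr1 he
        rw [dir_eq, dir_eq] at h3
        rcases lt_trichotomy j k with hjk | rfl | hjk
        · have h7 : dir W (r + 1) j = false := by rw [h4 j hjk]; exact hd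
          refine ⟨r + 1, 0, j, ⟨hr1, Nat.zero_le _, by omega⟩, ?_⟩
          rw [nx_mn_up h7 he, if_pos hjk]
          rfl
        · have h7 : dir W r (j + 1) = true := by rw [h3, hd]; rfl
          refine ⟨r, (row W r).w.length, j + 1, ⟨hr, le_rfl, h1⟩, ?_⟩
          rw [nx_mn_dn h7 he, if_neg (by omega), if_neg (by omega), if_pos rfl]
        · rcases Nat.lt_or_ge (k + 1) j with hjk2 | hjk2
          · obtain ⟨j0, rfl⟩ : ∃ j0, j = j0 + 2 := ⟨j - 2, by omega⟩
            have h7 : dir W (r + 1) j0 = false := by rw [h5 j0 (by omega)]; exact hd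
            refine ⟨r + 1, 0, j0, ⟨hr1, Nat.zero_le _, by omega⟩, ?_⟩
            rw [nx_mn_up h7 he, if_neg (by omega)]
            rfl
          · have : j = k + 1 := by omega
            subst this
            have h7 : dir W r k = true := by
              rw [h3] at hd
              simpa using hd
            refine ⟨r, (row W r).w.length, k, ⟨hr, le_rfl, by omega⟩, ?_⟩
            rw [nx_mn_dn h7 he, if_neg (by omega), if_pos rfl]

theorem cro_of_ne {p : Pt W} (h : op p ≠ p) : Cro p := by
  by_contra h1
  exact h (op_of_not h1)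

/-- **R1** -/
theorem nx_inj' (hW : Ok W) : Function.Injective (nx : Pt W → Pt W) :=
  Finite.injective_iff_surjective.2 (nx_surj hW)

/-- the first row is a maximum -/
theorem first_row (hW : Ok W) (hne : W ≠ []) : ∃ d, (row W 0).e = .mx 0 d ∧ lv W 1 = [d, !d] := by
  have h0 : 0 < W.length := List.length_pos_of_ne_nil hne
  cases he : (row W 0).e with
  | mx k d =>
    have h1 := hW.ext 0 h0
    rw [he] at h1
    have h1' : k ≤ 0 := h1
    have h2 : k = 0 := by omega
    subst h2
    refine ⟨d, rfl, ?_⟩
    rw [lv_succ h0, he]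
    rfl
  | mn k =>
    obtain ⟨h1, _⟩ := mn_facts hW h0 he
    rw [lv_zero] at h1
    simp at h1

/-- **R2** -/
theorem exists_base (hW : Ok W) (hne : W ≠ []) : ∃ b : Pt W, IsBase b := by
  have h0 : 0 < W.length := List.length_pos_of_ne_nil hne
  obtain ⟨d, _, h1⟩ := first_row hW hne
  cases d with
  | true =>
    refine ⟨⟨0, 0, 0, h0, Nat.zero_le _, by rw [h1]; simp⟩, rfl, rfl, ?_⟩
    show (lv W 1).getD 0 false = true
    rw [h1]
    rfl
  | false =>
    refine ⟨⟨0, 0, 1, h0, Nat.zero_le _, by rw [h1]; simp⟩, rfl, rfl, ?_⟩
    show (lv W 1).getD 1 false = true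
    rw [h1]
    rfl

end Pool.Agent.Helper85.Rows
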