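import Pool.Agent.Helper85.EV2.Exp

/-!
# EV2: Whitney's formula for descending diagrams

`lv l`: the points of the level `l` of a diagram, from the left to the right; `sg p = 1`: the point `p` lies on a downward
strand, `sg p = -1`: on an upward strand. The events between two levels: a crossing of two downward strands, a maximum or a
minimum. For a one-component diagram which is descending from the down leg `b` of the first maximum, the sum of the signs of
the crossings is a constant which depends only on the extrema.
-/

set_option autoImplicit false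

namespace Pool.Agent.Helper85.Whit

open Pool.Agent.Helper85.Exp

variable {P : Type} {G : Sh P}

/-! ### The inversion number -/

/-- the inversions of `a` with the points of `l` -/
def invr (T : P → ℕ) (sg : P → ℤ) (a : P) (l : List P) : ℤ :=
  (l.map fun x => if T x < T a then sg x else 0).sum

/-- the inversions between the points of `l` and the point `a` on their right -/
def invl (T : P → ℕ) (sg : P → ℤ) (a : P) (l : List P) : ℤ :=
  (l.map fun x => if T a < T x then sg x else 0).sum

/-- the inversion number of a level -/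
def Inv (T : P → ℕ) (sg : P → ℤ) : List P → ℤ
  | [] => 0
  | a :: l => sg a * invr T sg a l + Inv T sg l

theorem invr_append (T : P → ℕ) (sg : P → ℤ) (a : P) (l l' : List P) :
    invr T sg a (l ++ l') = invr T sg a l + invr T sg a l' := by
  unfold invr
  rw [List.map_append, List.sum_append]

theorem invr_cons (T : P → ℕ) (sg : P → ℤ) (a x : P) (l : List P) :
    invr T sg a (x :: l) = (if T x < T a then sg x else 0) + invr T sg a l := by
  unfold invr
  rw [List.map_cons, List.sum_cons]

/-- Two points of a strand on neighbouring levels. -/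
def Rel (T : P → ℕ) (sg : P → ℤ) (a a' : P) : Prop :=
  (sg a = 1 ∧ sg a' = 1 ∧ T a' = T a + 1) ∨ (sg a = -1 ∧ sg a' = -1 ∧ T a = T a' + 1)

theorem Rel.sg_eq {T : P → ℕ} {sg : P → ℤ} {a a' : P} (h : Rel T sg a a') : sg a' = sg a := by
  rcases h with ⟨h1, h2, _⟩ | ⟨h1, h2, _⟩ <;> rw [h1, h2]

theorem Rel.lt_iff {T : P → ℕ} {sg : P → ℤ} (hT : Function.Injective T) {a a' x x' : P}
    (h : Rel T sg a a') (h' : Rel T sg x x') : T x' < T a' ↔ T x < T a := by
  rcases h with ⟨h1, h2, h3⟩ | ⟨h1, h2, h3⟩
  · rcases h' with ⟨g1, g2, g3⟩ | ⟨g1, g2, g3⟩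
    · omega
    · have e1 : T x ≠ T a := fun e => by
        have := hT e
        rw [this, h1] at g1
        norm_num at g1
      have e2 : T x ≠ T a' := fun e => by
        have := hT e
        rw [this, h2] at g1
        norm_num at g1
      omega
  · rcases h' with ⟨g1, g2, g3⟩ | ⟨g1, g2, g3⟩
    · have e1 : T a ≠ T x' := fun e => by
        have := hT e
        rw [this, g2] at h1
        norm_num at h1
      have e2 : T a' ≠ T x' := fun e => by
        have := hT e
        rw [this, g2] at h2
        norm_num at h2
      omega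
    · omega

theorem invr_congr {T : P → ℕ} {sg : P → ℤ} (hT : Function.Injective T) {a a' : P}
    (h : Rel T sg a a') {l l' : List P} (hl : List.Forall₂ (Rel T sg) l l') :
    invr T sg a' l' = invr T sg a l := by
  induction hl with
  | nil => rfl
  | cons hx _ ih =>
    rw [invr_cons, invr_cons, ih, hx.sg_eq]
    simp only [Rel.lt_iff hT h hx]

theorem Inv_congr {T : P → ℕ} {sg : P → ℤ} (hT : Function.Injective T) {l l' : List P}
    (hl : List.Forall₂ (Rel T sg) l l') : Inv T sg l' = Inv T sg l := by
  induction hl with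
  | nil => rfl
  | cons hx hl ih =>
    rw [Inv, Inv, ih, invr_congr hT hx hl, hx.sg_eq]

theorem Inv_append (T : P → ℕ) (sg : P → ℤ) (l l' : List P) :
    Inv T sg (l ++ l') = Inv T sg l + Inv T sg l' + (l.map fun a => sg a * invr T sg a l').sum := by
  induction l with
  | nil => simp [Inv]
  | cons a l ih =>
    rw [List.cons_append, Inv, Inv, ih, invr_append, List.map_cons, List.sum_cons]
    ring

/-- exchange of two neighbouring downward points -/
theorem Inv_swap (T : P → ℕ) {sg : P → ℤ} {p q : P} (hp : sg p = 1) (hq : sg q = 1)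
    (A B : List P) :
    Inv T sg (A ++ p :: q :: B) - Inv T sg (A ++ q :: p :: B) =
      (if T q < T p then 1 else 0) - (if T p < T q then 1 else 0) := by
  rw [Inv_append, Inv_append]
  have e : (A.map fun a => sg a * invr T sg a (p :: q :: B)) =
      A.map fun a => sg a * invr T sg a (q :: p :: B) := by
    apply List.map_congr_left
    intro a _
    simp only [invr_cons]
    ring
  rw [e]
  simp only [Inv, invr_cons, hp, hq]
  ring

/-- insertion of two neighbouring points with opposite directions and neighbouring times -/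
theorem Inv_pair {T : P → ℕ} {sg : P → ℤ} {p q : P} (hpq : sg p + sg q = 0) (A B : List P)
    (hA : ∀ a ∈ A, T p < T a ↔ T q < T a) (hB : ∀ a ∈ B, T a < T p ↔ T a < T q) :
    Inv T sg (A ++ p :: q :: B) =
      Inv T sg (A ++ B) + sg p * (if T q < T p then sg q else 0) := by
  rw [Inv_append, Inv_append]
  have e : (A.map fun a => sg a * invr T sg a (p :: q :: B)) =
      A.map fun a => sg a * invr T sg a B := by
    apply List.map_congr_left
    intro a ha
    simp only [invr_cons, hA a ha]
    split_ifs
    · have : sg q = - sg p := by linarith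
      rw [this]
      ring
    · ring
  have e2 : invr T sg p B = invr T sg q B := by
    unfold invr
    congr 1
    apply List.map_congr_left
    intro a ha
    simp only [hB a ha]
  rw [e]
  simp only [Inv, invr_cons, e2]
  have : sg q = - sg p := by linarith
  rw [this]
  ring

/-! ### Events -/

/-- A strand which passes an event. -/
def Pass (G : Sh P) (sg : P → ℤ) (a a' : P) : Prop :=
  (sg a = 1 ∧ sg a' = 1 ∧ G.nxt a = a' ∧ G.op a = a) ∨
    (sg a = -1 ∧ sg a' = -1 ∧ G.nxt a' = a ∧ G.op a' = a')

/-- The events between two levels; the last argument is the contribution to the writhe. -/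
inductive Ev (G : Sh P) (sg : P → ℤ) (b u : P) : List P → List P → ℤ → Prop
  | cr {A A' B B' : List P} {p q p' q' : P} (hA : List.Forall₂ (Pass G sg) A A')
      (hB : List.Forall₂ (Pass G sg) B B') (hp : sg p = 1) (hq : sg q = 1) (hp' : sg p' = 1)
      (hq' : sg q' = 1) (hpq : p ≠ q) (hop : G.op p = q) (hlf : G.lf p = true)
      (hnp : G.nxt p = q') (hnq : G.nxt q = p') :
      Ev G sg b u (A ++ p :: q :: B) (A' ++ p' :: q' :: B') 0
  | mxd {A A' B B' : List P} {p q : P} (hA : List.Forall₂ (Pass G sg) A A')
      (hB : List.Forall₂ (Pass G sg) B B') (hp : sg p = 1) (hq : sg q = -1) (hn : G.nxt q = p)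
      (hop : G.op q = q) (hu : q ≠ u) : Ev G sg b u (A ++ B) (A' ++ p :: q :: B') (-1)
  | mxu {A A' B B' : List P} {p q : P} (hA : List.Forall₂ (Pass G sg) A A')
      (hB : List.Forall₂ (Pass G sg) B B') (hp : sg p = -1) (hq : sg q = 1) (hn : G.nxt p = q)
      (hop : G.op p = p) (hu : p ≠ u) : Ev G sg b u (A ++ B) (A' ++ p :: q :: B') 0
  | fsd : Ev G sg b u [] [b, u] 0
  | fsu : Ev G sg b u [] [u, b] (-1)
  | mnd {A A' B B' : List P} {p q : P} (hA : List.Forall₂ (Pass G sg) A A')
      (hB : List.Forall₂ (Pass G sg) B B') (hp : sg p = 1) (hq : sg q = -1) (hn : G.nxt p = q)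
      (hop : G.op p = p) : Ev G sg b u (A ++ p :: q :: B) (A' ++ B') 0
  | mnu {A A' B B' : List P} {p q : P} (hA : List.Forall₂ (Pass G sg) A A')
      (hB : List.Forall₂ (Pass G sg) B B') (hp : sg p = -1) (hq : sg q = 1) (hn : G.nxt q = p)
      (hop : G.op q = q) : Ev G sg b u (A ++ p :: q :: B) (A' ++ B') 1

/-- the sign of the crossing of `p`, counted at the passage with `lf p = true` -/
noncomputable def wr (D : Dg G) (p : P) : ℤ :=
  open Classical in
  if G.op p ≠ p ∧ G.lf p = true then
    match D.st p with
    | .pos => 1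
    | .neg => -1
    | .smooth => 0
  else 0

theorem wr_trivial (D : Dg G) {p : P} (h : G.op p = p) : wr D p = 0 := by
  unfold wr
  rw [if_neg]
  exact fun h' => h'.1 h

theorem wr_false (D : Dg G) {p : P} (h : G.lf p = false) : wr D p = 0 := by
  unfold wr
  rw [if_neg]
  rintro ⟨_, h'⟩
  rw [h] at h'
  exact absurd h' (by simp)

/-- The travel times. -/
structure Tm (D : Dg G) (b u : P) (T : P → ℕ) : Prop where
  inj : Function.Injective T
  tr : ∀ a, a ≠ u → T (D.tr a) = T a + 1
  zero : T b = 0
  last : ∀ a, T a ≤ T u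

theorem exists_time {D : Dg G} {b u : P} (hu : D.tr u = b)
    (h : ∀ i, ∃ k : ℕ, D.tr^[k] b = i) : ∃ T : P → ℕ, Tm D b u T ∧ ∀ i, D.tr^[T i] b = i := by
  classical
  obtain ⟨T, hT⟩ : ∃ T : P → ℕ, T = fun i => Nat.find (h i) := ⟨_, rfl⟩
  have h1 : ∀ i, D.tr^[T i] b = i := by
    intro i
    rw [hT]
    exact Nat.find_spec (h i)
  have h2 : ∀ i k, D.tr^[k] b = i → T i ≤ k := by
    intro i k hk
    rw [hT]
    exact Nat.find_min' (h i) hk
  have inj : Function.Injective T := by
    intro i j hij
    rw [← h1 i, ← h1 j, hij]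
  refine ⟨T, ⟨inj, ?_, ?_, ?_⟩, h1⟩
  · intro a ha
    have h3 : D.tr^[T a + 1] b = D.tr a := by
      rw [Function.iterate_succ_apply', h1]
    apply le_antisymm (h2 _ _ h3)
    by_contra hlt
    push Not at hlt
    rcases Nat.eq_zero_or_pos (T (D.tr a)) with h4 | h4
    · have h5 := h1 (D.tr a)
      rw [h4] at h5
      have h6 : D.tr u = D.tr a := by rw [hu]; exact h5
      exact ha (tr_inj D h6).symm
    · obtain ⟨m, hm⟩ := Nat.exists_eq_succ_of_ne_zero h4.ne'
      have h5 := h1 (D.tr a)
      rw [hm, Function.iterate_succ_apply'] at h5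
      have h6 := h2 a m (tr_inj D h5)
      omega
  · have := h2 b 0 rfl
    omega
  · intro a
    have h3 : D.tr^[T u + 1] b = b := by
      rw [Function.iterate_succ_apply', h1, hu]
    have h4 := h1 a
    rw [closed_orbit D b h3] at h4
    have h5 := h2 a _ h4
    have h6 := Nat.mod_lt (T a) (Nat.succ_pos (T u))
    have h7 : T a % (T u + 1) < T u + 1 := h6
    omega

section Main

variable {sg : P → ℤ} {b u : P} {D : Dg G} {T : P → ℕ}

theorem tr_trivial (D : Dg G) {a : P} (h : G.op a = a) : D.tr a = G.nxt a := by
  unfold Dg.tr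
  split_ifs
  · rw [h]
  · rfl

/-- a passing strand has neighbouring times -/
theorem Pass.rel (hT : Tm D b u T) (hsb : sg b = 1) (hsu : sg u = -1) (hub : G.nxt u = b) {a a' : P}
    (h : Pass G sg a a') : Rel T sg a a' := by
  rcases h with ⟨h1, h2, h3, h4⟩ | ⟨h1, h2, h3, h4⟩
  · left
    refine ⟨h1, h2, ?_⟩
    have h5 : a ≠ u := by
      rintro rfl
      rw [h1] at hsu
      norm_num at hsu
    have h6 := hT.tr a h5
    rwa [tr_trivial D h4, h3] at h6
  · right
    refine ⟨h1, h2, ?_⟩
    have h5 : a' ≠ u := by
      rintro rfl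
      rw [hub] at h3
      rw [← h3, hsb] at h1
      norm_num at h1
    have h6 := hT.tr a' h5
    rwa [tr_trivial D h4, h3] at h6

theorem rels (hT : Tm D b u T) (hsb : sg b = 1) (hsu : sg u = -1) (hub : G.nxt u = b)
    {A A' : List P} (h : List.Forall₂ (Pass G sg) A A') : List.Forall₂ (Rel T sg) A A' :=
  h.imp fun _ _ h1 => h1.rel hT hsb hsu hub

theorem append_rel {R : P → P → Prop} {A A' B B' : List P} (hA : List.Forall₂ R A A')
    (hB : List.Forall₂ R B B') : List.Forall₂ R (A ++ B) (A' ++ B') :=
  List.rel_append hA hB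

theorem sum_wr_pass (D : Dg G) (hup : ∀ a, sg a = -1 → G.op a = a) {A A' : List P}
    (h : List.Forall₂ (Pass G sg) A A') : (A.map (wr D)).sum = 0 := by
  induction h with
  | nil => rfl
  | cons hx _ ih =>
    rw [List.map_cons, List.sum_cons, ih, add_zero]
    rcases hx with ⟨_, _, _, h4⟩ | ⟨h1, _, _, _⟩
    · exact wr_trivial D h4
    · exact wr_trivial D (hup _ h1)

theorem mem_pass {A A' : List P} (h : List.Forall₂ (Pass G sg) A A') {a' : P} (ha : a' ∈ A') :
    ∃ a, Pass G sg a a' := by
  induction h with
  | nil => simp at ha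
  | cons hx _ ih =>
    rcases List.mem_cons.1 ha with rfl | ha
    · exact ⟨_, hx⟩
    · exact ih ha

theorem mem_pass' {A A' : List P} (h : List.Forall₂ (Pass G sg) A A') {a : P} (ha : a ∈ A) :
    ∃ a', Pass G sg a a' := by
  induction h with
  | nil => simp at ha
  | cons hx _ ih =>
    rcases List.mem_cons.1 ha with rfl | ha
    · exact ⟨_, hx⟩
    · exact ih ha

theorem time_iter (hT : Tm D b u T) : ∀ k, k ≤ T u → T (D.tr^[k] b) = k := by
  intro k
  induction k with
  | zero => intro _; exact hT.zero
  | succ k ih =>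
    intro hk
    have h1 := ih (by omega)
    rw [Function.iterate_succ_apply', hT.tr _ ?_, h1]
    intro h2
    rw [h2] at h1
    omega

theorem time_le (hT : Tm D b u T) {y : P} {l : ℕ} (h : D.tr^[l] b = y) : T y ≤ l := by
  by_contra h1
  push Not at h1
  have h2 := time_iter hT l (by have := hT.last y; omega)
  rw [h] at h2
  omega

/-- a turn at a maximum -/
theorem turn_max {x y : P} (hx : sg x = -1) (hy : sg y = 1) (hn : G.nxt x = y) {A A' : List P}
    (h : List.Forall₂ (Pass G sg) A A') {a : P} (ha : a ∈ A') : a ≠ x ∧ a ≠ y := by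
  obtain ⟨a0, h0⟩ := mem_pass h ha
  constructor
  · rintro rfl
    rcases h0 with ⟨h1, h2, h3, h4⟩ | ⟨h1, h2, h3, h4⟩
    · rw [hx] at h2
      norm_num at h2
    · rw [hn] at h3
      rw [← h3, hy] at h1
      norm_num at h1
  · rintro rfl
    rcases h0 with ⟨h1, h2, h3, h4⟩ | ⟨h1, h2, h3, h4⟩
    · have := G.nxt.injective (h3.trans hn.symm)
      rw [this, hx] at h1
      norm_num at h1
    · rw [hy] at h2
      norm_num at h2

/-- a turn at a minimum -/
theorem turn_min {x y : P} (hx : sg x = 1) (hy : sg y = -1) (hn : G.nxt x = y) {A A' : List P}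
    (h : List.Forall₂ (Pass G sg) A A') {a : P} (ha : a ∈ A) : a ≠ x ∧ a ≠ y := by
  obtain ⟨a', h0⟩ := mem_pass' h ha
  constructor
  · rintro rfl
    rcases h0 with ⟨h1, h2, h3, h4⟩ | ⟨h1, h2, h3, h4⟩
    · rw [hn] at h3
      rw [← h3, hy] at h2
      norm_num at h2
    · rw [hx] at h1
      norm_num at h1
  · rintro rfl
    rcases h0 with ⟨h1, h2, h3, h4⟩ | ⟨h1, h2, h3, h4⟩
    · rw [hy] at h1
      norm_num at h1
    · have := G.nxt.injective (h3.trans hn.symm)
      rw [this, hx] at h2
      norm_num at h2

/-- comparison with two neighbouring times -/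
theorem cmp (hT : Tm D b u T) {x y a : P} (hxy : T y = T x + 1) (h : a ≠ x ∧ a ≠ y) :
    (T x < T a ↔ T y < T a) ∧ (T a < T x ↔ T a < T y) := by
  have e1 : T a ≠ T x := fun e => h.1 (hT.inj e)
  have e2 : T a ≠ T y := fun e => h.2 (hT.inj e)
  constructor <;> constructor <;> intro <;> omega

/-- the change of the inversion number -/
theorem Ev.step (hT : Tm D b u T) (hD : ∀ i, D.tr^[T i] b = i) (hdes : Des D b)
    (hup : ∀ a, sg a = -1 → G.op a = a)
    (hsb : sg b = 1) (hsu : sg u = -1) (hub : G.nxt u = b)
    {l l' : List P} {δ : ℤ} (h : Ev G sg b u l l' δ) :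
    Inv T sg l' - Inv T sg l = δ - (l.map (wr D)).sum := by
  cases h with
  | @cr A A' B B' p q p' q' hA hB hp hq hp' hq' hpq hop hlf hnp hnq =>
    have hpu : p ≠ u := by
      rintro rfl
      rw [hp] at hsu
      norm_num at hsu
    have hqu : q ≠ u := by
      rintro rfl
      rw [hq] at hsu
      norm_num at hsu
    have hoq : G.op q = p := by rw [← hop, G.op_op]
    have hlq : G.lf q = false := by
      have := G.lf_op p (by rw [hop]; exact hpq.symm)
      rw [hop, hlf] at this
      simpa using this
    have hstq : D.st q = D.st p := by rw [← hop, D.st_op]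
    have hs : ((A ++ p :: q :: B).map (wr D)).sum = wr D p := by
      rw [List.map_append, List.sum_append, sum_wr_pass D hup hA, List.map_cons, List.map_cons,
        List.sum_cons, List.sum_cons, sum_wr_pass D hup hB, wr_false D hlq]
      ring
    have hAr := rels hT hsb hsu hub hA
    have hBr := rels hT hsb hsu hub hB
    rw [hs]
    by_cases hsm : D.st p = .smooth
    · have e1 : D.tr p = p' := by
        unfold Dg.tr
        rw [if_pos hsm, hop, hnq]
      have e2 : D.tr q = q' := by
        unfold Dg.tr
        rw [if_pos (by rw [hstq]; exact hsm), hoq, hnp]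
      have t1 := hT.tr p hpu
      have t2 := hT.tr q hqu
      rw [e1] at t1
      rw [e2] at t2
      have hI := Inv_congr hT.inj (append_rel hAr (List.Forall₂.cons
        (show Rel T sg p p' from Or.inl ⟨hp, hp', t1⟩) (List.Forall₂.cons
        (show Rel T sg q q' from Or.inl ⟨hq, hq', t2⟩) hBr)))
      rw [hI]
      have hw : wr D p = 0 := by
        unfold wr
        rw [hsm]
        simp
      rw [hw]
      ring
    · have e1 : D.tr p = q' := by
        unfold Dg.tr
        rw [if_neg hsm, hnp]
      have e2 : D.tr q = p' := by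
        unfold Dg.tr
        rw [if_neg (by rw [hstq]; exact hsm), hnq]
      have t1 := hT.tr p hpu
      have t2 := hT.tr q hqu
      rw [e1] at t1
      rw [e2] at t2
      have hI := Inv_congr hT.inj (append_rel hAr (List.Forall₂.cons
        (show Rel T sg p q' from Or.inl ⟨hp, hq', t1⟩) (List.Forall₂.cons
        (show Rel T sg q p' from Or.inl ⟨hq, hp', t2⟩) hBr)))
      have hS := Inv_swap T (sg := sg) hp' hq' A' B'
      rw [hI] at hS
      rw [hS]
      have hne : T p ≠ T q := fun e => hpq (hT.inj e)
      -- the passage visited first is the over passage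
      have hovr : ∀ x y, G.op x = y → D.st x ≠ .smooth → x ≠ y → T x < T y → D.ovr x = true := by
        intro x y hxy hx hne' hlt
        have := hdes (T x)
        rw [hD x] at this
        apply this hx
        intro l hl hl2
        rw [hxy] at hl2
        have h5 := hD y
        have h6 := time_le hT hl2
        omega
      rcases lt_or_gt_of_ne hne with hlt | hgt
      · -- `p` first: `p` is over, the crossing is negative
        have ho := hovr p q hop hsm hpq hlt
        have hst : D.st p = .neg := by
          cases hc : D.st p with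
          | pos =>
            unfold Dg.ovr at ho
            rw [hc] at ho
            simp [hlf] at ho
          | neg => rfl
          | smooth => exact absurd hc hsm
        have hw : wr D p = -1 := by
          unfold wr
          rw [if_pos ⟨by rw [hop]; exact hpq.symm, hlf⟩, hst]
        rw [hw, if_pos (by omega), if_neg (by omega)]
        norm_num
      · have ho := hovr q p hoq (by rw [hstq]; exact hsm) hpq.symm hgt
        have hst : D.st p = .pos := by
          cases hc : D.st p with
          | pos => rfl
          | neg =>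
            unfold Dg.ovr at ho
            rw [hstq, hc] at ho
            simp [hlq] at ho
          | smooth => exact absurd hc hsm
        have hw : wr D p = 1 := by
          unfold wr
          rw [if_pos ⟨by rw [hop]; exact hpq.symm, hlf⟩, hst]
        rw [hw, if_neg (by omega), if_pos (by omega)]
  | @mxd A A' B B' p q hA hB hp hq hn hop hu =>
    have hs : ((A ++ B).map (wr D)).sum = 0 := by
      rw [List.map_append, List.sum_append, sum_wr_pass D hup hA, sum_wr_pass D hup hB, add_zero]
    have t1 := hT.tr q hu
    rw [tr_trivial D hop, hn] at t1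
    have hI := Inv_congr hT.inj (append_rel (rels hT hsb hsu hub hA) (rels hT hsb hsu hub hB))
    have hP := Inv_pair (T := T) (sg := sg) (p := p) (q := q) (by rw [hp, hq]; norm_num) A' B'
      (fun a ha => ((cmp hT t1 (turn_max hq hp hn hA ha)).1).symm)
      (fun a ha => ((cmp hT t1 (turn_max hq hp hn hB ha)).2).symm)
    rw [hP, hI, hs, hp, hq, if_pos (by omega)]
    ring
  | @mxu A A' B B' p q hA hB hp hq hn hop hu =>
    have hs : ((A ++ B).map (wr D)).sum = 0 := by
      rw [List.map_append, List.sum_append, sum_wr_pass D hup hA, sum_wr_pass D hup hB, add_zero]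
    have t1 := hT.tr p hu
    rw [tr_trivial D hop, hn] at t1
    have hI := Inv_congr hT.inj (append_rel (rels hT hsb hsu hub hA) (rels hT hsb hsu hub hB))
    have hP := Inv_pair (T := T) (sg := sg) (p := p) (q := q) (by rw [hp, hq]; norm_num) A' B'
      (fun a ha => (cmp hT t1 (turn_max hp hq hn hA ha)).1)
      (fun a ha => (cmp hT t1 (turn_max hp hq hn hB ha)).2)
    rw [hP, hI, hs, if_neg (by omega)]
    ring
  | fsd =>
    simp only [Inv, invr, List.map_cons, List.map_nil, List.sum_cons, List.sum_nil]
    rw [hT.zero]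
    simp
  | fsu =>
    have h1 : b ≠ u := by
      rintro rfl
      rw [hsb] at hsu
      norm_num at hsu
    have h2 : T b ≠ T u := fun e => h1 (hT.inj e)
    have h3 := hT.zero
    simp only [Inv, invr, List.map_cons, List.map_nil, List.sum_cons, List.sum_nil]
    rw [if_pos (by omega), hsb, hsu]
    simp
  | @mnd A A' B B' p q hA hB hp hq hn hop =>
    have hpu : p ≠ u := by
      rintro rfl
      rw [hp] at hsu
      norm_num at hsu
    have hs : ((A ++ p :: q :: B).map (wr D)).sum = 0 := by
      rw [List.map_append, List.sum_append, sum_wr_pass D hup hA, List.map_cons, List.map_cons,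
        List.sum_cons, List.sum_cons, sum_wr_pass D hup hB, wr_trivial D hop,
        wr_trivial D (hup q hq)]
      ring
    have t1 := hT.tr p hpu
    rw [tr_trivial D hop, hn] at t1
    have hI := Inv_congr hT.inj (append_rel (rels hT hsb hsu hub hA) (rels hT hsb hsu hub hB))
    have hP := Inv_pair (T := T) (sg := sg) (p := p) (q := q) (by rw [hp, hq]; norm_num) A B
      (fun a ha => (cmp hT t1 (turn_min hp hq hn hA ha)).1)
      (fun a ha => (cmp hT t1 (turn_min hp hq hn hB ha)).2)
    rw [hP, hI, hs, if_neg (by omega)]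
    ring
  | @mnu A A' B B' p q hA hB hp hq hn hop =>
    have hqu : q ≠ u := by
      rintro rfl
      rw [hq] at hsu
      norm_num at hsu
    have hs : ((A ++ p :: q :: B).map (wr D)).sum = 0 := by
      rw [List.map_append, List.sum_append, sum_wr_pass D hup hA, List.map_cons, List.map_cons,
        List.sum_cons, List.sum_cons, sum_wr_pass D hup hB, wr_trivial D hop,
        wr_trivial D (hup p hp)]
      ring
    have t1 := hT.tr q hqu
    rw [tr_trivial D hop, hn] at t1
    have hI := Inv_congr hT.inj (append_rel (rels hT hsb hsu hub hA) (rels hT hsb hsu hub hB))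
    have hP := Inv_pair (T := T) (sg := sg) (p := p) (q := q) (by rw [hp, hq]; norm_num) A B
      (fun a ha => ((cmp hT t1 (turn_min hq hp hn hA ha)).1).symm)
      (fun a ha => ((cmp hT t1 (turn_min hq hp hn hB ha)).2).symm)
    rw [hP, hI, hs, hp, hq, if_pos (by omega)]
    ring

/-- **Whitney's formula**: for a one-component diagram which is descending from the down leg `b` of the first maximum the
writhe depends on the extrema only. -/
theorem whitney (hup : ∀ a, sg a = -1 → G.op a = a) (hsb : sg b = 1) (hsu : sg u = -1)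
    (hub : G.nxt u = b) (L : ℕ) (lv : ℕ → List P) (δ : ℕ → ℤ) (h0 : lv 0 = []) (hL : lv L = [])
    (hev : ∀ l < L, Ev G sg b u (lv l) (lv (l + 1)) (δ l)) (D : Dg G)
    (hD : ∀ i, ∃ k : ℕ, D.tr^[k] b = i) (hdes : Des D b) :
    ∑ l ∈ Finset.range L, ((lv l).map (wr D)).sum = ∑ l ∈ Finset.range L, δ l := by
  have hu : D.tr u = b := by rw [tr_trivial D (hup u hsu), hub]
  obtain ⟨T, hT, hTi⟩ := exists_time hu hD
  have h1 : ∀ m ≤ L, Inv T sg (lv m) =
      ∑ l ∈ Finset.range m, δ l - ∑ l ∈ Finset.range m, ((lv l).map (wr D)).sum := by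
    intro m
    induction m with
    | zero =>
      intro _
      rw [h0]
      simp [Inv]
    | succ m ih =>
      intro hm
      have h2 := (hev m (by omega)).step hT hTi hdes hup hsb hsu hub
      rw [Finset.sum_range_succ, Finset.sum_range_succ]
      have h3 := ih (by omega)
      linarith
  have h2 := h1 L le_rfl
  rw [hL] at h2
  have h3 : Inv T sg [] = 0 := rfl
  rw [h3] at h2
  linarith

end Main

theorem sum_flatMap (lv : ℕ → List P) (f : P → ℤ) (L : ℕ) :
    (((List.range L).flatMap lv).map f).sum = ∑ l ∈ Finset.range L, ((lv l).map f).sum := by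
  induction L with
  | zero => simp
  | succ L ih =>
    rw [List.range_succ, List.flatMap_append, List.map_append, List.sum_append, ih,
      Finset.sum_range_succ]
    simp

/-- the writhe as a sum over all passages -/
theorem whitney_univ [Fintype P] {sg : P → ℤ} {b u : P} (hup : ∀ a, sg a = -1 → G.op a = a)
    (hsb : sg b = 1) (hsu : sg u = -1) (hub : G.nxt u = b) (L : ℕ) (lv : ℕ → List P) (δ : ℕ → ℤ)
    (h0 : lv 0 = []) (hL : lv L = [])
    (hev : ∀ l < L, Ev G sg b u (lv l) (lv (l + 1)) (δ l))
    (hnd : ((List.range L).flatMap lv).Nodup) (hall : ∀ p, p ∈ (List.range L).flatMap lv)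
    (D : Dg G) (hD : ∀ i, ∃ k : ℕ, D.tr^[k] b = i) (hdes : Des D b) :
    ∑ p : P, wr D p = ∑ l ∈ Finset.range L, δ l := by
  classical
  rw [← whitney hup hsb hsu hub L lv δ h0 hL hev D hD hdes]
  have h1 : (Finset.univ : Finset P) = ((List.range L).flatMap lv).toFinset := by
    ext p
    simp only [Finset.mem_univ, List.mem_toFinset, true_iff]
    exact hall p
  rw [h1, List.sum_toFinset _ hnd, sum_flatMap]

end Pool.Agent.Helper85.Whit
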