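import Pool.Agent.Helper85.EV2.RowB
import Pool.Agent.Helper85.EV2.Whit

/-!
# EV2, rows: the levels, Whitney's formula (R3)
-/

set_option autoImplicit false

namespace Pool.Agent.Helper85.Rows

open Pool.Agent.Helper27.EV2 Pool.Agent.Helper85.Exp Pool.Agent.Helper85.Whit

/-! ### Paths of levels -/

section Path

variable {P : Type} {G : Sh P} {sg : P → ℤ} {b u : P}

/-- A sequence of events from the level `l` to the level `l'`; `ls`: the levels without the last one, `s`: the sum of the
contributions. -/
inductive Path (G : Sh P) (sg : P → ℤ) (b u : P) : List P → List P → List (List P) → ℤ → Prop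
  | nil (l : List P) : Path G sg b u l l [] 0
  | cons {l l' l'' : List P} {ls : List (List P)} {δ s : ℤ} (h : Whit.Ev G sg b u l l' δ)
      (hp : Path G sg b u l' l'' ls s) : Path G sg b u l l'' (l :: ls) (δ + s)

theorem Path.trans {l l' l'' : List P} {ls ls' : List (List P)} {s s' : ℤ}
    (h : Path G sg b u l l' ls s) (h' : Path G sg b u l' l'' ls' s') :
    Path G sg b u l l'' (ls ++ ls') (s + s') := by
  induction h with
  | nil l => simpa using h'
  | cons he _ ih =>
    have := Path.cons he (ih h')
    rw [← add_assoc] at this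
    exact this

theorem Path.single {l l' : List P} {δ : ℤ} (h : Whit.Ev G sg b u l l' δ) :
    Path G sg b u l l' [l] δ := by
  have := Path.cons h (Path.nil l')
  rwa [add_zero] at this

theorem Path.levels {l l' : List P} {ls : List (List P)} {s : ℤ} (h : Path G sg b u l l' ls s) :
    (ls ++ [l']).getD 0 [] = l ∧ ∃ δ : ℕ → ℤ, (∀ m < ls.length, Whit.Ev G sg b u
      ((ls ++ [l']).getD m []) ((ls ++ [l']).getD (m + 1) []) (δ m)) ∧
        ∑ m ∈ Finset.range ls.length, δ m = s := by
  induction h with
  | nil l =>
    refine ⟨rfl, fun _ => 0, ?_, ?_⟩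
    · intro m hm
      simp at hm
    · simp
  | @cons l l' l'' ls δ0 s he _ ih =>
    obtain ⟨ih0, δ, ih1, ih2⟩ := ih
    refine ⟨rfl, fun m => Nat.casesOn m δ0 δ, ?_, ?_⟩
    · intro m hm
      cases m with
      | zero =>
        have e1 : ((l :: ls) ++ [l'']).getD (0 + 1) [] = (ls ++ [l'']).getD 0 [] := rfl
        rw [e1, ih0]
        exact he
      | succ m =>
        have hm' : m < ls.length := by
          rw [List.length_cons] at hm
          omega
        exact ih1 m hm'
    · rw [List.length_cons, Finset.sum_range_succ', add_comm]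
      show δ0 + ∑ m ∈ Finset.range ls.length, δ m = _
      rw [ih2]

theorem flatMap_getD (ls : List (List P)) (l' : List P) :
    (List.range ls.length).flatMap (fun m => (ls ++ [l']).getD m []) = ls.flatten := by
  induction ls with
  | nil => rfl
  | cons l ls ih =>
    rw [List.length_cons, List.range_succ_eq_map, List.flatMap_cons, List.flatten_cons]
    congr 1
    rw [List.flatMap_map, ← ih]
    rfl

end Path

/-! ### Lists of points -/

variable {W : Word}

theorem forall_map {P : Type} {R : P → P → Prop} {f g : ℕ → P} {l : List ℕ}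
    (h : ∀ j ∈ l, R (f j) (g j)) : List.Forall₂ R (l.map f) (l.map g) := by
  induction l with
  | nil => exact List.Forall₂.nil
  | cons j l ih =>
    rw [List.map_cons, List.map_cons]
    exact List.Forall₂.cons (h j (by simp)) (ih fun j' hj' => h j' (List.mem_cons_of_mem _ hj'))

theorem range_split (k m : ℕ) : List.range (k + 2 + m) =
    List.range k ++ k :: (k + 1) :: (List.range m).map (fun j => k + 2 + j) := by
  rw [List.range_add, List.range_add]
  simp [List.range_succ]

theorem range_split' (k m : ℕ) : List.range (k + m) =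
    List.range k ++ (List.range m).map (fun j => k + j) := List.range_add

/-- the points of the level `(r, i)`, from the left to the right -/
def pts (b : Pt W) (r i : ℕ) : List (Pt W) :=
  (List.range (lv W (r + 1)).length).map fun j => mk W (r, i, j) b

/-- the direction of a point -/
def sgp (p : Pt W) : ℤ := if dir W p.r p.j = true then 1 else -1

theorem sgp_dn {p : Pt W} (h : dir W p.r p.j = true) : sgp p = 1 := if_pos h

theorem sgp_up {p : Pt W} (h : dir W p.r p.j = false) : sgp p = -1 := by
  unfold sgp
  rw [h]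
  rfl

theorem op_up {p : Pt W} (h : dir W p.r p.j = false) : op p = p := by
  apply op_of_not
  rintro ⟨_, h2, h3, _, h5⟩
  rcases h5 with h5 | h5
  · rw [h5, h2] at h
    exact absurd h (by simp)
  · rw [h5, h3] at h
    exact absurd h (by simp)

theorem op_end {p : Pt W} (h : ¬ p.i < (row W p.r).w.length) : op p = p :=
  op_of_not fun h1 => h h1.1

theorem op_other {p : Pt W} (h1 : p.j ≠ (row W p.r).w.getD p.i 0)
    (h2 : p.j ≠ (row W p.r).w.getD p.i 0 + 1) : op p = p :=
  op_of_not fun h3 => h3.2.2.2.2.elim h1 h2

theorem mk_r {r i j : ℕ} (h : Val W r i j) (p : Pt W) : (mk W (r, i, j) p).r = r := by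
  rw [mk_val h]

theorem mk_i {r i j : ℕ} (h : Val W r i j) (p : Pt W) : (mk W (r, i, j) p).i = i := by
  rw [mk_val h]

theorem mk_j {r i j : ℕ} (h : Val W r i j) (p : Pt W) : (mk W (r, i, j) p).j = j := by
  rw [mk_val h]

/-- the next point in coordinates -/
theorem nx_mk {r i j r' i' j' : ℕ} (h : Val W r i j) (h' : Val W r' i' j')
    (he : nxRaw W r i j = (r', i', j')) (b : Pt W) :
    nx (mk W (r, i, j) b) = mk W (r', i', j') b := by
  apply nx_eq
  rw [mk_val h, mk_val h']
  exact he

section Events

variable (hW : Ok W) (b : Pt W)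

/-- passing points -/
theorem pass_dn {r i j r' i' j' : ℕ} (h : Val W r i j) (h' : Val W r' i' j')
    (hd : dir W r j = true) (hd' : dir W r' j' = true) (he : nxRaw W r i j = (r', i', j'))
    (ho : op (mk W (r, i, j) b) = mk W (r, i, j) b) :
    Pass (shadow W hW) sgp (mk W (r, i, j) b) (mk W (r', i', j') b) := by
  left
  refine ⟨sgp_dn (by rw [mk_r h, mk_j h]; exact hd), sgp_dn (by rw [mk_r h', mk_j h']; exact hd'),
    nx_mk h h' he b, ho⟩

theorem pass_up {r i j r' i' j' : ℕ} (h : Val W r i j) (h' : Val W r' i' j')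
    (hd : dir W r j = false) (hd' : dir W r' j' = false) (he : nxRaw W r' i' j' = (r, i, j)) :
    Pass (shadow W hW) sgp (mk W (r, i, j) b) (mk W (r', i', j') b) := by
  right
  refine ⟨sgp_up (by rw [mk_r h, mk_j h]; exact hd), sgp_up (by rw [mk_r h', mk_j h']; exact hd'),
    nx_mk h' h he b, op_up (by rw [mk_r h', mk_j h']; exact hd')⟩

include hW

/-- a crossing -/
theorem ev_cross (u : Pt W) {r i : ℕ} (hr : r < W.length) (hi : i < (row W r).w.length) :
    Whit.Ev (shadow W hW) sgp b u (pts b r i) (pts b r (i + 1)) 0 := by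
  obtain ⟨h1, h2, h3⟩ := cr_facts hW hr hi
  obtain ⟨k, hk⟩ : ∃ k, k = (row W r).w.getD i 0 := ⟨_, rfl⟩
  rw [← hk] at h1 h2 h3
  obtain ⟨m, hm⟩ : ∃ m, (lv W (r + 1)).length = k + 2 + m := ⟨_, (Nat.add_sub_of_le h1).symm⟩
  have hv : ∀ j, j < k + 2 + m → Val W r i j := fun j hj => ⟨hr, hi.le, by rw [hm]; exact hj⟩
  have hv' : ∀ j, j < k + 2 + m → Val W r (i + 1) j := fun j hj => ⟨hr, hi, by rw [hm]; exact hj⟩
  have hpass : ∀ j, j < k + 2 + m → j ≠ k → j ≠ k + 1 →
      Pass (shadow W hW) sgp (mk W (r, i, j) b) (mk W (r, i + 1, j) b) := by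
    intro j hj hjk hjk'
    cases hd : dir W r j with
    | true =>
      refine pass_dn hW b (hv j hj) (hv' j hj) hd hd ?_ ?_
      · rw [nx_cross hd hi, ← hk, sw_of_ne hjk hjk']
      · apply op_other
        · rw [mk_r (hv j hj), mk_i (hv j hj), mk_j (hv j hj), ← hk]
          exact hjk
        · rw [mk_r (hv j hj), mk_i (hv j hj), mk_j (hv j hj), ← hk]
          exact hjk'
    | false => exact pass_up hW b (hv j hj) (hv' j hj) hd hd (nx_up hd)
  have e1 : pts b r i = (List.range k).map (fun j => mk W (r, i, j) b) ++
      mk W (r, i, k) b :: mk W (r, i, k + 1) b ::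
        (List.range m).map (fun j => mk W (r, i, k + 2 + j) b) := by
    unfold pts
    rw [hm, range_split, List.map_append, List.map_cons, List.map_cons, List.map_map]
    rfl
  have e2 : pts b r (i + 1) = (List.range k).map (fun j => mk W (r, i + 1, j) b) ++
      mk W (r, i + 1, k) b :: mk W (r, i + 1, k + 1) b ::
        (List.range m).map (fun j => mk W (r, i + 1, k + 2 + j) b) := by
    unfold pts
    rw [hm, range_split, List.map_append, List.map_cons, List.map_cons, List.map_map]
    rfl
  have v1 := hv k (by omega)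
  have v2 := hv (k + 1) (by omega)
  have v1' := hv' k (by omega)
  have v2' := hv' (k + 1) (by omega)
  have hop : op (mk W (r, i, k) b) = mk W (r, i, k + 1) b := by
    have hc : Cro (mk W (r, i, k) b) := by
      rw [mk_val v1]
      exact ⟨hi, by rw [← hk]; exact h2, by rw [← hk]; exact h3, by rw [← hk]; exact h1,
        Or.inl hk⟩
    rw [op_of hc, mk_val v2]
    ext
    · show (mk W (r, i, k) b).r = r
      exact mk_r v1 b
    · show (mk W (r, i, k) b).i = i
      exact mk_i v1 b
    · show sw ((row W (mk W (r, i, k) b).r).w.getD (mk W (r, i, k) b).i 0) (mk W (r, i, k) b).j =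
        k + 1
      rw [mk_r v1, mk_i v1, mk_j v1, ← hk]
      unfold sw
      rw [if_pos rfl]
  rw [e1, e2]
  refine Whit.Ev.cr (forall_map fun j hj => hpass j ?_ ?_ ?_) (forall_map fun j hj =>
    hpass (k + 2 + j) ?_ ?_ ?_) (sgp_dn (by rw [mk_r v1, mk_j v1]; exact h2))
    (sgp_dn (by rw [mk_r v2, mk_j v2]; exact h3)) (sgp_dn (by rw [mk_r v1', mk_j v1']; exact h2))
    (sgp_dn (by rw [mk_r v2', mk_j v2']; exact h3)) ?_ hop ?_ ?_ ?_
  · have := List.mem_range.1 hj
    omega
  · have := List.mem_range.1 hj
    omega
  · have := List.mem_range.1 hj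
    omega
  · have := List.mem_range.1 hj
    omega
  · omega
  · omega
  · intro h4
    have := congrArg Pt.j h4
    rw [mk_j v1, mk_j v2] at this
    omega
  · show lf (mk W (r, i, k) b) = true
    unfold lf
    rw [mk_r v1, mk_i v1, mk_j v1, ← hk]
    simp
  · refine nx_mk v1 v2' ?_ b
    rw [nx_cross h2 hi, ← hk]
    unfold sw
    rw [if_pos rfl]
  · refine nx_mk v2 v1' ?_ b
    rw [nx_cross h3 hi, ← hk]
    unfold sw
    rw [if_neg (by omega), if_pos rfl]

/-- the contribution of the extremum of the row `r` -/
def dl (W : Word) (r : ℕ) : ℤ :=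
  match (row W r).e with
    | .mx _ d => if r = 0 then (if d then 0 else -1) else (if d then -1 else 0)
    | .mn k => if (lv W r).getD k false = true then 0 else 1

/-- an extremum below the first row -/
theorem ev_ext (u : Pt W) (hu : u.r = 0) {r : ℕ} (hr : r + 1 < W.length) :
    Whit.Ev (shadow W hW) sgp b u (pts b r (row W r).w.length) (pts b (r + 1) 0)
      (dl W (r + 1)) := by
  cases he : (row W (r + 1)).e with
  | mx k d =>
    obtain ⟨h1, h2, h3, h4, h5, h6⟩ := mx_facts hW hr he
    obtain ⟨m, hm⟩ : ∃ m, (lv W (r + 1)).length = k + m := ⟨_, (Nat.add_sub_of_le h1).symm⟩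
    have hm' : (lv W (r + 1 + 1)).length = k + 2 + m := by omega
    have hv : ∀ j, j < k + m → Val W r (row W r).w.length j :=
      fun j hj => ⟨by omega, le_rfl, by rw [hm]; exact hj⟩
    have hv' : ∀ j, j < k + 2 + m → Val W (r + 1) 0 j :=
      fun j hj => ⟨hr, Nat.zero_le _, by rw [hm']; exact hj⟩
    have hA : ∀ j, j < k → Pass (shadow W hW) sgp (mk W (r, (row W r).w.length, j) b)
        (mk W (r + 1, 0, j) b) := by
      intro j hj
      have hdd : dir W (r + 1) j = dir W r j := h3 j hj
      cases hd : dir W r j with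
      | true =>
        refine pass_dn hW b (hv j (by omega)) (hv' j (by omega)) hd (hdd.trans hd) ?_ ?_
        · rw [nx_mx_dn hd he, if_pos hj]
        · apply op_end
          rw [mk_r (hv j (by omega)), mk_i (hv j (by omega))]
          exact lt_irrefl _
      | false =>
        refine pass_up hW b (hv j (by omega)) (hv' j (by omega)) hd (hdd.trans hd) ?_
        rw [nx_mx_up (hdd.trans hd) he, if_pos hj]
        rfl
    have hB : ∀ j, j < m → Pass (shadow W hW) sgp (mk W (r, (row W r).w.length, k + j) b)
        (mk W (r + 1, 0, k + 2 + j) b) := by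
      intro j hj
      have hdd : dir W (r + 1) (k + 2 + j) = dir W r (k + j) := by
        have := h6 (k + j) (by omega)
        rw [show k + 2 + j = k + j + 2 by omega]
        exact this
      cases hd : dir W r (k + j) with
      | true =>
        refine pass_dn hW b (hv (k + j) (by omega)) (hv' _ (by omega)) hd (hdd.trans hd) ?_ ?_
        · rw [nx_mx_dn hd he, if_neg (by omega)]
          congr 2
          omega
        · apply op_end
          rw [mk_r (hv (k + j) (by omega)), mk_i (hv (k + j) (by omega))]
          exact lt_irrefl _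
      | false =>
        refine pass_up hW b (hv (k + j) (by omega)) (hv' _ (by omega)) hd (hdd.trans hd) ?_
        rw [nx_mx_up (hdd.trans hd) he, if_neg (by omega), if_neg (by omega), if_neg (by omega)]
        congr 2
        omega
    have e1 : pts b r (row W r).w.length =
        (List.range k).map (fun j => mk W (r, (row W r).w.length, j) b) ++
        (List.range m).map (fun j => mk W (r, (row W r).w.length, k + j) b) := by
      unfold pts
      rw [hm, range_split', List.map_append, List.map_map]
      rfl
    have e2 : pts b (r + 1) 0 = (List.range k).map (fun j => mk W (r + 1, 0, j) b) ++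
        mk W (r + 1, 0, k) b :: mk W (r + 1, 0, k + 1) b ::
          (List.range m).map (fun j => mk W (r + 1, 0, k + 2 + j) b) := by
      unfold pts
      rw [hm', range_split, List.map_append, List.map_cons, List.map_cons, List.map_map]
      rfl
    have v1 := hv' k (by omega)
    have v2 := hv' (k + 1) (by omega)
    have hne : ∀ j, j < k + 2 + m → mk W (r + 1, 0, j) b ≠ u := by
      intro j hj h7
      have h8 := congrArg Pt.r h7
      rw [mk_r (hv' j hj), hu] at h8
      omega
    rw [e1, e2]
    have hfa := forall_map (R := Pass (shadow W hW) sgp) (l := List.range k)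
      (f := fun j => mk W (r, (row W r).w.length, j) b) (g := fun j => mk W (r + 1, 0, j) b)
      (fun j hj => hA j (List.mem_range.1 hj))
    have hfb := forall_map (R := Pass (shadow W hW) sgp) (l := List.range m)
      (f := fun j => mk W (r, (row W r).w.length, k + j) b)
      (g := fun j => mk W (r + 1, 0, k + 2 + j) b) (fun j hj => hB j (List.mem_range.1 hj))
    cases d with
    | true =>
      have h5' : dir W (r + 1) (k + 1) = false := h5
      have : dl W (r + 1) = -1 := by
        unfold dl
        rw [he]
        simp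
      rw [this]
      refine Whit.Ev.mxd hfa hfb (sgp_dn (by rw [mk_r v1, mk_j v1]; exact h4))
        (sgp_up (by rw [mk_r v2, mk_j v2]; exact h5')) ?_ (op_up (by
          rw [mk_r v2, mk_j v2]; exact h5')) (hne _ (by omega))
      refine nx_mk v2 v1 ?_ b
      rw [nx_mx_up h5' he, if_neg (by omega), if_neg (by omega), if_pos rfl]
    | false =>
      have h5' : dir W (r + 1) (k + 1) = true := h5
      have : dl W (r + 1) = 0 := by
        unfold dl
        rw [he]
        simp
      rw [this]
      refine Whit.Ev.mxu hfa hfb (sgp_up (by rw [mk_r v1, mk_j v1]; exact h4))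
        (sgp_dn (by rw [mk_r v2, mk_j v2]; exact h5')) ?_ (op_up (by
          rw [mk_r v1, mk_j v1]; exact h4)) (hne _ (by omega))
      refine nx_mk v1 v2 ?_ b
      rw [nx_mx_up h4 he, if_neg (by omega), if_pos rfl]
  | mn k =>
    obtain ⟨h1, h2, h3, h4, h5⟩ := mn_facts hW hr he
    rw [dir_eq, dir_eq] at h3
    obtain ⟨m, hm⟩ : ∃ m, (lv W (r + 1)).length = k + 2 + m := ⟨_, (Nat.add_sub_of_le h1).symm⟩
    have hm' : (lv W (r + 1 + 1)).length = k + m := by omega
    have hv : ∀ j, j < k + 2 + m → Val W r (row W r).w.length j :=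
      fun j hj => ⟨by omega, le_rfl, by rw [hm]; exact hj⟩
    have hv' : ∀ j, j < k + m → Val W (r + 1) 0 j :=
      fun j hj => ⟨hr, Nat.zero_le _, by rw [hm']; exact hj⟩
    have hA : ∀ j, j < k → Pass (shadow W hW) sgp (mk W (r, (row W r).w.length, j) b)
        (mk W (r + 1, 0, j) b) := by
      intro j hj
      have hdd : dir W (r + 1) j = dir W r j := h4 j hj
      cases hd : dir W r j with
      | true =>
        refine pass_dn hW b (hv j (by omega)) (hv' j (by omega)) hd (hdd.trans hd) ?_ ?_
        · rw [nx_mn_dn hd he, if_pos hj]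
        · apply op_end
          rw [mk_r (hv j (by omega)), mk_i (hv j (by omega))]
          exact lt_irrefl _
      | false =>
        refine pass_up hW b (hv j (by omega)) (hv' j (by omega)) hd (hdd.trans hd) ?_
        rw [nx_mn_up (hdd.trans hd) he, if_pos hj]
        rfl
    have hB : ∀ j, j < m → Pass (shadow W hW) sgp (mk W (r, (row W r).w.length, k + 2 + j) b)
        (mk W (r + 1, 0, k + j) b) := by
      intro j hj
      have hdd : dir W (r + 1) (k + j) = dir W r (k + 2 + j) := by
        have := h5 (k + j) (by omega)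
        rw [show k + 2 + j = k + j + 2 by omega]
        exact this
      cases hd : dir W r (k + 2 + j) with
      | true =>
        refine pass_dn hW b (hv _ (by omega)) (hv' _ (by omega)) hd (hdd.trans hd) ?_ ?_
        · rw [nx_mn_dn hd he, if_neg (by omega), if_neg (by omega), if_neg (by omega)]
          congr 2
          omega
        · apply op_end
          rw [mk_r (hv (k + 2 + j) (by omega)), mk_i (hv (k + 2 + j) (by omega))]
          exact lt_irrefl _
      | false =>
        refine pass_up hW b (hv _ (by omega)) (hv' _ (by omega)) hd (hdd.trans hd) ?_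
        rw [nx_mn_up (hdd.trans hd) he, if_neg (by omega)]
        congr 2
        omega
    have e1 : pts b r (row W r).w.length =
        (List.range k).map (fun j => mk W (r, (row W r).w.length, j) b) ++
        mk W (r, (row W r).w.length, k) b :: mk W (r, (row W r).w.length, k + 1) b ::
          (List.range m).map (fun j => mk W (r, (row W r).w.length, k + 2 + j) b) := by
      unfold pts
      rw [hm, range_split, List.map_append, List.map_cons, List.map_cons, List.map_map]
      rfl
    have e2 : pts b (r + 1) 0 = (List.range k).map (fun j => mk W (r + 1, 0, j) b) ++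
        (List.range m).map (fun j => mk W (r + 1, 0, k + j) b) := by
      unfold pts
      rw [hm', range_split', List.map_append, List.map_map]
      rfl
    have v1 := hv k (by omega)
    have v2 := hv (k + 1) (by omega)
    have hend : ∀ j, j < k + 2 + m → op (mk W (r, (row W r).w.length, j) b) =
        mk W (r, (row W r).w.length, j) b := by
      intro j hj
      apply op_end
      rw [mk_r (hv j hj), mk_i (hv j hj)]
      exact lt_irrefl _
    rw [e1, e2]
    have hfa := forall_map (R := Pass (shadow W hW) sgp) (l := List.range k)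
      (f := fun j => mk W (r, (row W r).w.length, j) b) (g := fun j => mk W (r + 1, 0, j) b)
      (fun j hj => hA j (List.mem_range.1 hj))
    have hfb := forall_map (R := Pass (shadow W hW) sgp) (l := List.range m)
      (f := fun j => mk W (r, (row W r).w.length, k + 2 + j) b)
      (g := fun j => mk W (r + 1, 0, k + j) b) (fun j hj => hB j (List.mem_range.1 hj))
    cases hk : dir W r k with
    | true =>
      rw [hk] at h3
      have h3' : dir W r (k + 1) = false := h3
      have : dl W (r + 1) = 0 := by
        unfold dl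
        rw [he]
        show (if dir W r k = true then (0 : ℤ) else 1) = 0
        rw [if_pos hk]
      rw [this]
      refine Whit.Ev.mnd hfa hfb (sgp_dn (by rw [mk_r v1, mk_j v1]; exact hk))
        (sgp_up (by rw [mk_r v2, mk_j v2]; exact h3')) ?_ (hend _ (by omega))
      refine nx_mk v1 v2 ?_ b
      rw [nx_mn_dn hk he, if_neg (by omega), if_pos rfl]
    | false =>
      rw [hk] at h3
      have h3' : dir W r (k + 1) = true := h3
      have : dl W (r + 1) = 1 := by
        unfold dl
        rw [he]
        show (if dir W r k = true then (0 : ℤ) else 1) = 1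
        rw [if_neg (by rw [hk]; simp)]
      rw [this]
      refine Whit.Ev.mnu hfa hfb (sgp_up (by rw [mk_r v1, mk_j v1]; exact hk))
        (sgp_dn (by rw [mk_r v2, mk_j v2]; exact h3')) ?_ (hend _ (by omega))
      refine nx_mk v2 v1 ?_ b
      rw [nx_mn_dn h3' he, if_neg (by omega), if_neg (by omega), if_pos rfl]

/-- the crossings of a row -/
theorem row_path (u : Pt W) {r : ℕ} (hr : r < W.length) (i : ℕ) (hi : i ≤ (row W r).w.length) :
    Path (shadow W hW) sgp b u (pts b r 0) (pts b r i) ((List.range i).map (pts b r)) 0 := by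
  induction i with
  | zero => exact Path.nil _
  | succ i ih =>
    have h1 := (ih (by omega)).trans (Path.single (ev_cross hW b u hr (i := i) (by omega)))
    rw [List.range_succ, List.map_append]
    simpa using h1

/-- the first event -/
theorem nx_base (hne : W ≠ []) (hb : IsBase b) :
    ∃ u : Pt W, u.r = 0 ∧ nx u = b ∧ sgp u = -1 ∧ sgp b = 1 ∧
      Whit.Ev (shadow W hW) sgp b u [] (pts b 0 0) (dl W 0) := by
  obtain ⟨d, h1, h2⟩ := first_row hW hne
  have hp : pts b 0 0 = [mk W (0, 0, 0) b, mk W (0, 0, 1) b] := by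
    unfold pts
    have hl : (lv W (0 + 1)).length = 2 := by
      rw [zero_add, h2]
      rfl
    rw [hl]
    rfl
  rw [hp]
  obtain ⟨r, i, j, hr, hi, hj⟩ := b
  obtain ⟨hb1, hb2, hb3⟩ := hb
  have hb1' : r = 0 := hb1
  have hb2' : i = 0 := hb2
  have hb3' : dir W 0 j = true := hb3
  subst hb1' hb2'
  have hl : (lv W (0 + 1)).length = 2 := by
    rw [zero_add, h2]
    rfl
  have hd0 : dir W 0 0 = d := by
    show (lv W 1).getD 0 false = d
    rw [h2]
    rfl
  have hd1 : dir W 0 1 = !d := by
    show (lv W 1).getD 1 false = !d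
    rw [h2]
    rfl
  have hj' : j < 2 := by rw [← hl]; exact hj
  cases d with
  | true =>
    have hj0 : j = 0 := by
      by_contra h3
      have : j = 1 := by omega
      subst this
      rw [hd1] at hb3'
      exact absurd hb3' (by simp)
    subst hj0
    have hd1' : dir W 0 1 = false := hd1
    refine ⟨⟨0, 0, 1, hr, hi, by rw [hl]; omega⟩, rfl, ?_, sgp_up hd1', sgp_dn hb3', ?_⟩
    · apply nx_eq
      show nxRaw W 0 0 1 = (0, 0, 0)
      rw [nx_mx_up hd1' h1]
      rfl
    · have e2 : dl W 0 = 0 := by
        unfold dl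
        rw [h1]
        rfl
      rw [e2, mk_val ⟨hr, hi, hj⟩, mk_val ⟨hr, hi, by rw [hl]; omega⟩]
      exact Whit.Ev.fsd
  | false =>
    have hj0 : j = 1 := by
      by_contra h3
      have : j = 0 := by omega
      subst this
      rw [hd0] at hb3'
      exact absurd hb3' (by simp)
    subst hj0
    refine ⟨⟨0, 0, 0, hr, hi, by rw [hl]; omega⟩, rfl, ?_, sgp_up hd0, sgp_dn hb3', ?_⟩
    · apply nx_eq
      show nxRaw W 0 0 0 = (0, 0, 1)
      rw [nx_mx_up hd0 h1]
      rfl
    · have e2 : dl W 0 = -1 := by
        unfold dl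
        rw [h1]
        rfl
      rw [e2, mk_val ⟨hr, hi, by rw [hl]; omega⟩, mk_val ⟨hr, hi, hj⟩]
      exact Whit.Ev.fsu

/-- the levels above the row `r` -/
def lvs (b : Pt W) (r : ℕ) : List (List (Pt W)) :=
  [] :: (List.range r).flatMap fun q => (List.range ((row W q).w.length + 1)).map (pts b q)

/-- all levels down to the first level of the row `r` -/
theorem full_path (u : Pt W) (hu : u.r = 0)
    (hf : Whit.Ev (shadow W hW) sgp b u [] (pts b 0 0) (dl W 0)) {r : ℕ} (hr : r < W.length) :
    Path (shadow W hW) sgp b u [] (pts b r 0) (lvs b r) (∑ q ∈ Finset.range (r + 1), dl W q) := by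
  induction r with
  | zero =>
    have h1 := Path.single hf
    simpa [lvs] using h1
  | succ r ih =>
    have h1 := ((ih (by omega)).trans (row_path hW b u (by omega : r < W.length) _ le_rfl)).trans
      (Path.single (ev_ext hW b u hu hr))
    rw [Finset.sum_range_succ]
    have e1 : lvs b (r + 1) =
        lvs b r ++ (List.range (row W r).w.length).map (pts b r) ++ [pts b r (row W r).w.length] := by
      unfold lvs
      rw [List.range_succ, List.flatMap_append, List.flatMap_singleton, List.range_succ,
        List.map_append, List.map_singleton]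
      simp
    rw [e1]
    rwa [add_zero] at h1

end Events

theorem mem_pts {b : Pt W} {r i : ℕ} (hr : r < W.length) (hi : i ≤ (row W r).w.length) {p : Pt W} :
    p ∈ pts b r i ↔ p.r = r ∧ p.i = i := by
  unfold pts
  rw [List.mem_map]
  constructor
  · rintro ⟨j, hj, rfl⟩
    have hj' := List.mem_range.1 hj
    exact ⟨mk_r ⟨hr, hi, hj'⟩ b, mk_i ⟨hr, hi, hj'⟩ b⟩
  · rintro ⟨rfl, rfl⟩
    exact ⟨p.j, List.mem_range.2 p.hj, mk_self p b⟩

theorem nodup_pts {b : Pt W} {r i : ℕ} (hr : r < W.length) (hi : i ≤ (row W r).w.length) :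
    (pts b r i).Nodup := by
  unfold pts
  refine List.Nodup.map_on ?_ List.nodup_range
  intro j hj j' hj' h
  have h1 := congrArg Pt.j h
  rw [mk_j ⟨hr, hi, List.mem_range.1 hj⟩, mk_j ⟨hr, hi, List.mem_range.1 hj'⟩] at h1
  exact h1

theorem flatten_lvs (b : Pt W) (r : ℕ) : (lvs b r).flatten =
    (List.range r).flatMap fun q => (List.range ((row W q).w.length + 1)).flatMap (pts b q) := by
  unfold lvs
  rw [List.flatten_cons, List.nil_append]
  induction r with
  | zero => rfl
  | succ r ih =>
    rw [List.range_succ, List.flatMap_append, List.flatten_append, ih, List.flatMap_append]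
    simp [List.flatMap_def]

theorem nodup_lvs {b : Pt W} {r : ℕ} (hr : r ≤ W.length) : (lvs b r).flatten.Nodup := by
  rw [flatten_lvs, List.nodup_flatMap]
  constructor
  · intro q hq
    have hq' := List.mem_range.1 hq
    rw [List.nodup_flatMap]
    constructor
    · intro i hi
      have hi' := List.mem_range.1 hi
      exact nodup_pts (by omega) (by omega)
    · refine List.nodup_range.pairwise_of_forall_ne ?_
      intro i hi i' hi' hii p hp hp'
      have h1 := List.mem_range.1 hi
      have h2 := List.mem_range.1 hi'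
      exact hii (((mem_pts (by omega) (by omega)).1 hp).2.symm.trans
        ((mem_pts (by omega) (by omega)).1 hp').2)
  · refine List.nodup_range.pairwise_of_forall_ne ?_
    intro q hq q' hq' hqq p hp hp'
    obtain ⟨i, hi, hp⟩ := List.mem_flatMap.1 hp
    obtain ⟨i', hi', hp'⟩ := List.mem_flatMap.1 hp'
    have h1 := List.mem_range.1 hi
    have h2 := List.mem_range.1 hi'
    have h3 := List.mem_range.1 hq
    have h4 := List.mem_range.1 hq'
    exact hqq (((mem_pts (by omega) (by omega)).1 hp).1.symm.trans
      ((mem_pts (by omega) (by omega)).1 hp').1)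

theorem mem_lvs {b : Pt W} {r : ℕ} {p : Pt W} (hp : p.r < r) :
    p ∈ (lvs b r).flatten := by
  rw [flatten_lvs, List.mem_flatMap]
  refine ⟨p.r, List.mem_range.2 hp, ?_⟩
  rw [List.mem_flatMap]
  exact ⟨p.i, List.mem_range.2 (Nat.lt_succ_of_le p.hi), (mem_pts p.hr p.hi).2 ⟨rfl, rfl⟩⟩

/-- `w0` is the sum of the contributions of the rows. -/
theorem w0_eq (W : Word) : w0 W = ∑ r ∈ Finset.range W.length, dl W r := rfl

/-- **The levels of a word**, in the form which `Whit.whitney_univ` and its consequences use. -/
theorem levels (hW : Ok W) {b : Pt W} (hb : IsBase b) : ∃ u : Pt W,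
    (∀ a : Pt W, sgp a = -1 → (shadow W hW).op a = a) ∧ sgp b = 1 ∧ sgp u = -1 ∧
      (shadow W hW).nxt u = b ∧ ∃ (L : ℕ) (l : ℕ → List (Pt W)) (δ : ℕ → ℤ), l 0 = [] ∧ l L = [] ∧
        (∀ m < L, Whit.Ev (shadow W hW) sgp b u (l m) (l (m + 1)) (δ m)) ∧
        ((List.range L).flatMap l).Nodup ∧ (∀ p, p ∈ (List.range L).flatMap l) ∧
        ∑ m ∈ Finset.range L, δ m = w0 W := by
  have hne : W ≠ [] := by
    rintro rfl
    exact absurd b.hr (by simp)
  have h0 : 0 < W.length := List.length_pos_of_ne_nil hne
  obtain ⟨u, hu, h1, h2, h3, h4⟩ := nx_base hW b hne hb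
  have hup : ∀ a : Pt W, sgp a = -1 → (shadow W hW).op a = a := by
    intro a ha
    refine op_up ?_
    cases hd : dir W a.r a.j with
    | true =>
      rw [sgp_dn hd] at ha
      norm_num at ha
    | false => rfl
  refine ⟨u, hup, h3, h2, h1, ?_⟩
  obtain ⟨n, hn⟩ : ∃ n, W.length = n + 1 := ⟨W.length - 1, by omega⟩
  have h5 := full_path hW b u hu h4 (r := n) (by omega)
  have h6 : pts b n 0 = [] := by
    unfold pts
    rw [← hn, hW.closed]
    rfl
  rw [h6] at h5
  obtain ⟨h7, δ, h8, h9⟩ := h5.levels
  refine ⟨(lvs b n).length, fun m => (lvs b n ++ [[]]).getD m [], δ, h7, ?_, h8, ?_, ?_, ?_⟩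
  · show (lvs b n ++ [[]]).getD (lvs b n).length [] = []
    rw [List.getD_eq_getElem?_getD, List.getElem?_append_right le_rfl, Nat.sub_self]
    rfl
  · rw [flatMap_getD]
    exact nodup_lvs (by omega)
  · intro p
    rw [flatMap_getD]
    refine mem_lvs ?_
    by_contra h10
    have h11 : p.r = n := by
      have := p.hr
      omega
    have h12 := p.hj
    rw [h11, ← hn, hW.closed] at h12
    simp at h12
  · rw [h9, w0_eq, hn]

/-- the two definitions of the writhe -/
theorem wr_eq {P : Type} [Fintype P] {G : Sh P} (D : Dg G) :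
    Pool.Agent.Helper60.EV2.wr D = ∑ p : P, Whit.wr D p := by
  unfold Pool.Agent.Helper60.EV2.wr Whit.wr
  refine Finset.sum_congr rfl fun p _ => ?_
  by_cases h : G.op p ≠ p ∧ G.lf p = true
  · rw [if_pos h, if_pos h]
    cases D.st p <;> rfl
  · rw [if_neg h, if_neg h]

/-- **R3: Whitney's formula** -/
theorem whitney (hW : Ok W) {b : Pt W} (hb : IsBase b) (D : Dg (shadow W hW))
    (h1 : ∀ i, ∃ k : ℕ, D.tr^[k] b = i) (h2 : Des D b) : Pool.Agent.Helper60.EV2.wr D = w0 W := by
  obtain ⟨u, hup, hsb, hsu, hub, L, l, δ, h3, h4, h5, h6, h7, h8⟩ := levels hW hb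
  rw [wr_eq, ← h8]
  exact Whit.whitney_univ hup hsb hsu hub L l δ h3 h4 h5 h6 h7 D h1 h2

end Pool.Agent.Helper85.Rows
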