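import Pool.Agent.Helper60.EV2.Val
import Pool.Agent.Helper85.EV2.Whit

/-!
# EV2: the constant of the determinant formula

`scal s t D = t ^ w0` for the descending one-component diagrams, `w0` depends on the extrema only (Whitney), hence the walk
determinant `F s t b` has the properties `Cw (t - s) (t ^ w0) b`.
-/

set_option autoImplicit false

namespace Pool.Agent.Helper85.Whit

open Pool.Agent.Helper85.Exp Pool.Agent.Helper60.EV2

variable {P : Type} [Fintype P] [DecidableEq P] {G : Sh P} {R : Type*} [CommRing R]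

theorem scal_eq (τ : Rˣ) (D : Dg G) :
    scal (↑τ⁻¹ : R) (τ : R) D = ((τ ^ (∑ p : P, wr D p) : Rˣ) : R) := by
  have h1 : ∀ S : Finset P, ((τ ^ (∑ p ∈ S, wr D p) : Rˣ) : R) =
      ∏ p ∈ S, ((τ ^ (wr D p) : Rˣ) : R) := by
    intro S
    induction S using Finset.induction_on with
    | empty => simp
    | insert p S hp ih => rw [Finset.sum_insert hp, zpow_add, Units.val_mul, ih, Finset.prod_insert hp]
  rw [h1, scal]
  refine Finset.prod_congr rfl fun p _ => ?_
  by_cases h : G.op p ≠ p ∧ G.lf p = true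
  · rw [if_pos h]
    unfold wr
    rw [if_pos h]
    cases D.st p <;> simp [fac]
  · rw [if_neg h]
    unfold wr
    rw [if_neg h]
    simp

/-- **The determinant formula for one base point**: the walk determinant is a Conway function with the constant `t ^ w0`. -/
theorem cw {sg : P → ℤ} {b u : P} (hup : ∀ a, sg a = -1 → G.op a = a)
    (hsb : sg b = 1) (hsu : sg u = -1) (hub : G.nxt u = b) (L : ℕ) (lv : ℕ → List P) (δ : ℕ → ℤ)
    (h0 : lv 0 = []) (hL : lv L = [])
    (hev : ∀ l < L, Ev G sg b u (lv l) (lv (l + 1)) (δ l))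
    (hnd : ((List.range L).flatMap lv).Nodup) (hall : ∀ p, p ∈ (List.range L).flatMap lv)
    (τ : Rˣ) : Cw ((τ : R) - (↑τ⁻¹ : R)) ((τ ^ (∑ l ∈ Finset.range L, δ l) : Rˣ) : R) b
      (F (G := G) (↑τ⁻¹ : R) (τ : R) b) := by
  refine F_cw (↑τ⁻¹ : R) (τ : R) _ (by simp) b ?_
  intro D hD hdes
  rw [scal_eq, whitney_univ hup hsb hsu hub L lv δ h0 hL hev hnd hall D hD hdes]

end Pool.Agent.Helper85.Whit
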